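import Mathlib

/-! Successor cardinals as well-ordered types, the Easton type lemma, chain conditions. -/

namespace Pool.Agent.P.MP_b10269_lc.H21

open Cardinal Set

/-- The well-ordered type of the successor of `κ`. -/
abbrev W (κ : Cardinal.{0}) : Type := (Order.succ κ).ord.ToType

theorem W_card (κ : Cardinal.{0}) : #(W κ) = Order.succ κ := Cardinal.mk_ord_toType _

theorem W_Iio {κ : Cardinal.{0}} (ξ : W κ) : #(Iio ξ) ≤ κ :=
  Order.lt_succ_iff.mp (Cardinal.mk_Iio_toType_ord_lt ξ)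

theorem mk_biUnion_le_of {α ι : Type} {κ : Cardinal.{0}} (hκ : ℵ₀ ≤ κ) {s : Set ι}
    {f : ι → Set α} (hs : #s ≤ κ) (hf : ∀ i ∈ s, #(f i) ≤ κ) : #(⋃ i ∈ s, f i) ≤ κ := by
  rw [biUnion_eq_iUnion]
  refine Cardinal.mk_iUnion_le_sum_mk.trans ?_
  refine (Cardinal.sum_le_sum _ (fun _ => κ) (fun i : s => hf i i.2)).trans ?_
  rw [Cardinal.sum_const']
  exact Cardinal.mul_le_of_le hκ hs le_rfl

theorem mk_iUnion_le_of {α ι : Type} {κ : Cardinal.{0}} (hκ : ℵ₀ ≤ κ)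
    {f : ι → Set α} (hs : #ι ≤ κ) (hf : ∀ i, #(f i) ≤ κ) : #(⋃ i, f i) ≤ κ := by
  refine Cardinal.mk_iUnion_le_sum_mk.trans ?_
  refine (Cardinal.sum_le_sum _ (fun _ => κ) hf).trans ?_
  rw [Cardinal.sum_const']
  exact Cardinal.mul_le_of_le hκ hs le_rfl

theorem W_bdd {κ : Cardinal.{0}} (hκ : ℵ₀ ≤ κ) (s : Set (W κ)) (hs : #s ≤ κ) :
    ∃ η, ∀ ξ ∈ s, ξ < η := by
  have h1 : #(⋃ ξ ∈ s, Iic ξ) ≤ κ := by
    refine mk_biUnion_le_of hκ hs (fun ξ _ => ?_)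
    rw [← Iio_insert]
    exact (Cardinal.mk_insert_le).trans
      (Cardinal.add_le_of_le hκ (W_Iio ξ) (Cardinal.one_le_aleph0.trans hκ))
  by_contra hcon
  push Not at hcon
  have h2 : (univ : Set (W κ)) ⊆ ⋃ ξ ∈ s, Iic ξ := fun η _ => by
    obtain ⟨ξ, g1, g2⟩ := hcon η
    exact mem_biUnion g1 g2
  have h3 := (Cardinal.mk_le_mk_of_subset h2).trans h1
  rw [Cardinal.mk_univ, W_card] at h3
  exact absurd h3 (not_le.mpr (Order.lt_succ κ))

theorem W_bdd_fun {κ : Cardinal.{0}} (hκ : ℵ₀ ≤ κ) {ι : Type} (hι : #ι ≤ κ) (f : ι → W κ) :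
    ∃ η, ∀ i, f i < η := by
  obtain ⟨η, h⟩ := W_bdd hκ (range f) (Cardinal.mk_range_le.trans hι)
  exact ⟨η, fun i => h _ ⟨i, rfl⟩⟩

instance W_nonempty (κ : Cardinal.{0}) : Nonempty (W κ) := by
  rw [← Cardinal.mk_ne_zero_iff, W_card]
  exact (Cardinal.succ_pos κ).ne'

/-- `ω₁`. -/
abbrev Om : Type := W ℵ₀

theorem Om_bdd {s : Set Om} (hs : s.Countable) : ∃ η, ∀ ξ ∈ s, ξ < η :=
  W_bdd le_rfl s (Cardinal.mk_le_aleph0_iff.mpr hs)

theorem Om_Iio (ξ : Om) : (Iio ξ).Countable := Cardinal.mk_le_aleph0_iff.mp (W_Iio ξ)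

theorem Om_card : #Om ≤ 𝔠 := by
  rw [W_card, Cardinal.succ_aleph0]
  exact Cardinal.aleph_one_le_continuum

section order

variable {X G : Type} [Preorder X] [Preorder G]

/-- Compatible conditions. -/
def Comp (x y : X) : Prop := ∃ z, z ≤ x ∧ z ≤ y

/-- Antichains have size at most `θ`. -/
def CC (X : Type) [Preorder X] (θ : Cardinal.{0}) : Prop :=
  ∀ s : Set X, s.Pairwise (fun x y => ¬ Comp x y) → #s ≤ θ

/-- Nonempty chains of size at most `θ` have lower bounds. -/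
def Closed (G : Type) [Preorder G] (θ : Cardinal.{0}) : Prop :=
  ∀ c : Set G, IsChain (· ≤ ·) c → c.Nonempty → #c ≤ θ → ∃ g, ∀ g' ∈ c, g ≤ g'

theorem CC.mono {θ θ' : Cardinal.{0}} (h : CC X θ) (h' : θ ≤ θ') : CC X θ' :=
  fun s hs => (h s hs).trans h'

theorem Closed.anti {θ θ' : Cardinal.{0}} (h : Closed G θ) (h' : θ' ≤ θ) : Closed G θ' :=
  fun c h1 h2 h3 => h c h1 h2 (h3.trans h')

theorem Closed.prod {G' : Type} [Preorder G'] {θ : Cardinal.{0}} (h : Closed G θ)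
    (h' : Closed G' θ) : Closed (G × G') θ := by
  intro c h1 h2 h3
  obtain ⟨g, hg⟩ := h (Prod.fst '' c) (h1.image_of_map_rel _ _ _ (fun _ _ h => h.1))
    (h2.image _) (Cardinal.mk_image_le.trans h3)
  obtain ⟨g', hg'⟩ := h' (Prod.snd '' c) (h1.image_of_map_rel _ _ _ (fun _ _ h => h.2))
    (h2.image _) (Cardinal.mk_image_le.trans h3)
  exact ⟨(g, g'), fun x hx => ⟨hg _ ⟨x, hx, rfl⟩, hg' _ ⟨x, hx, rfl⟩⟩⟩

theorem cc_unit (θ : Cardinal.{0}) (hθ : ℵ₀ ≤ θ) : CC Unit θ :=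
  fun _ _ => Cardinal.mk_le_aleph0.trans hθ

theorem closed_unit (θ : Cardinal.{0}) : Closed Unit θ := fun _ _ _ _ => ⟨(), fun _ _ => le_rfl⟩

/-- The Easton type lemma. -/
theorem lemH {T : Type} {θ : Cardinal.{0}} (hθ : ℵ₀ ≤ θ) (hcc : CC X θ) (hcl : Closed G θ)
    (hT : #T ≤ θ) (V : T → X → G → Prop) (x0 : X) (g0 : G)
    (hmono : ∀ t x g g', g' ≤ g → V t x g → V t x g')
    (hd : ∀ t x g, x ≤ x0 → g ≤ g0 → ∃ x' ≤ x, ∃ g' ≤ g, V t x' g') :
    ∃ g ≤ g0, ∃ A : T → Set X, ∀ t, #(A t) ≤ θ ∧ (∀ x ∈ A t, V t x g) ∧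
      ∀ x ≤ x0, ∃ y ∈ A t, Comp x y := by
  let S := {p : Set (T × X) × G // p.2 ≤ g0 ∧ (∀ e ∈ p.1, V e.1 e.2 p.2) ∧
    ∀ e ∈ p.1, ∀ e' ∈ p.1, e.1 = e'.1 → e.2 ≠ e'.2 → ¬ Comp e.2 e'.2}
  let r : S → S → Prop := fun p p' => p = p' ∨ (p.1.1 ⊂ p'.1.1 ∧ p'.1.2 ≤ p.1.2)
  have hsize : ∀ s : Set (T × X), (∀ e ∈ s, ∀ e' ∈ s, e.1 = e'.1 → e.2 ≠ e'.2 → ¬ Comp e.2 e'.2) →
      (∀ t, #{x | (t, x) ∈ s} ≤ θ) ∧ #s ≤ θ := by
    intro s hs
    have h1 : ∀ t, #{x | (t, x) ∈ s} ≤ θ :=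
      fun t => hcc _ (fun x hx y hy hne => hs _ hx _ hy rfl hne)
    refine ⟨h1, le_trans (Cardinal.mk_le_mk_of_subset
      (t := ⋃ t, (fun x => (t, x)) '' {x | (t, x) ∈ s}) ?_) ?_⟩
    · rintro ⟨t, x⟩ h
      exact mem_iUnion.mpr ⟨t, x, h, rfl⟩
    · exact mk_iUnion_le_of hθ hT (fun t => Cardinal.mk_image_le.trans (h1 t))
  have hr1 : ∀ {p p' : S}, r p p' → p.1.1 ⊆ p'.1.1 := by
    rintro p p' (rfl | h)
    exacts [Subset.rfl, h.1.1]
  have hr2 : ∀ {p p' : S}, r p p' → p'.1.2 ≤ p.1.2 := by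
    rintro p p' (rfl | h)
    exacts [le_rfl, h.2]
  have : Nonempty S := ⟨⟨(∅, g0), le_rfl, fun _ h => h.elim, fun _ h => h.elim⟩⟩
  obtain ⟨m, hm⟩ := exists_maximal_of_nonempty_chains_bounded (r := r) (by
    intro c hc hne
    have tot : ∀ p ∈ c, ∀ p' ∈ c, r p p' ∨ r p' p := by
      intro p hp p' hp'
      by_cases h : p = p'
      · exact Or.inl (Or.inl h)
      · exact hc hp hp' h
    by_cases hmax : ∃ p ∈ c, ∀ a ∈ c, r a p
    · obtain ⟨p, -, h⟩ := hmax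
      exact ⟨p, h⟩
    push Not at hmax
    have hup : ∀ p ∈ c, ∃ a ∈ c, p.1.1 ⊂ a.1.1 := by
      intro p hp
      obtain ⟨a, ha, h⟩ := hmax p hp
      rcases (tot p hp a ha).resolve_right h with h1 | h1
      · exact absurd (Or.inl h1.symm) h
      · exact ⟨a, ha, h1.1⟩
    let u : Set (T × X) := ⋃ p ∈ c, p.1.1
    have hu : ∀ e ∈ u, ∀ e' ∈ u, e.1 = e'.1 → e.2 ≠ e'.2 → ¬ Comp e.2 e'.2 := by
      intro e he e' he'
      obtain ⟨p, hp, h1⟩ := mem_iUnion₂.mp he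
      obtain ⟨p', hp', h2⟩ := mem_iUnion₂.mp he'
      rcases tot p hp p' hp' with h | h
      · exact p'.2.2.2 e (hr1 h h1) e' h2
      · exact p.2.2.2 e h1 e' (hr1 h h2)
    choose s hs1 hs2 using fun e : u => mem_iUnion₂.mp e.2
    obtain ⟨p0, hp0⟩ := hne
    obtain ⟨a0, ha0, h0⟩ := hup p0 hp0
    obtain ⟨e0, he0, -⟩ := exists_of_ssubset h0
    obtain ⟨g, hg⟩ := hcl (range (fun e : u => (s e).1.2)) (by
      rintro _ ⟨e, rfl⟩ _ ⟨e', rfl⟩ _
      rcases tot _ (hs1 e) _ (hs1 e') with h | h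
      exacts [Or.inr (hr2 h), Or.inl (hr2 h)])
      ⟨_, ⟨e0, mem_biUnion ha0 he0⟩, rfl⟩ (Cardinal.mk_range_le.trans (hsize u hu).2)
    have hgc : ∀ p ∈ c, g ≤ p.1.2 := by
      intro p hp
      obtain ⟨a, ha, h⟩ := hup p hp
      obtain ⟨e, he, he'⟩ := exists_of_ssubset h
      rcases tot p hp _ (hs1 ⟨e, mem_biUnion ha he⟩) with h1 | h1
      · exact (hg _ ⟨_, rfl⟩).trans (hr2 h1)
      · exact absurd (hr1 h1 (hs2 _)) he'
    refine ⟨⟨(u, g), (hgc p0 hp0).trans p0.2.1, fun e he => ?_, hu⟩, fun p hp => Or.inr ⟨?_, hgc p hp⟩⟩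
    · obtain ⟨p, hp, h1⟩ := mem_iUnion₂.mp he
      exact hmono _ _ _ _ (hgc p hp) (p.2.2.1 e h1)
    · obtain ⟨a, ha, h⟩ := hup p hp
      exact h.trans_subset (subset_biUnion_of_mem (u := fun p : S => p.1.1) ha))
    (by
      rintro a b c (rfl | h1) h2
      · exact h2
      · exact Or.inr ⟨h1.1.trans_subset (hr1 h2), (hr2 h2).trans h1.2⟩)
  refine ⟨m.1.2, m.2.1, fun t => {x | (t, x) ∈ m.1.1}, fun t =>
    ⟨(hsize _ m.2.2.2).1 t, fun x hx => m.2.2.1 _ hx, fun x hx => ?_⟩⟩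
  by_contra hcon
  push Not at hcon
  obtain ⟨x', h1, g', h2, h3⟩ := hd t x m.1.2 hx m.2.1
  have h4 : ∀ y, (t, y) ∈ m.1.1 → ¬ Comp x' y := fun y hy ⟨z, z1, z2⟩ =>
    hcon y hy ⟨z, z1.trans h1, z2⟩
  have h5 : (t, x') ∉ m.1.1 := fun h => h4 x' h ⟨x', le_rfl, le_rfl⟩
  let m' : S := ⟨(insert (t, x') m.1.1, g'), h2.trans m.2.1, by
      rintro e (rfl | he)
      exacts [h3, hmono _ _ _ _ h2 (m.2.2.1 e he)], by
      rintro e (rfl | he) e' (rfl | he') k1 k2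
      · exact absurd rfl k2
      · exact h4 _ (by obtain ⟨t', y⟩ := e'; cases k1; exact he')
      · rintro ⟨z, z1, z2⟩
        exact h4 e.2 (by obtain ⟨t', y⟩ := e; cases k1; exact he) ⟨z, z2, z1⟩
      · exact m.2.2.2 e he e' he' k1 k2⟩
  exact h5 (hr1 (hm m' (Or.inr ⟨ssubset_insert h5, h2⟩)) (mem_insert _ _))

/-- Countably many dense open sets of a closed order can be met at once. -/
theorem Closed.meet {T : Type} {θ : Cardinal.{0}} (hθ : ℵ₀ ≤ θ) (hcl : Closed G θ) (hT : #T ≤ θ)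
    (V : T → G → Prop) (g0 : G) (hmono : ∀ t g g', g' ≤ g → V t g → V t g')
    (hd : ∀ t g, g ≤ g0 → ∃ g' ≤ g, V t g') : ∃ g ≤ g0, ∀ t, V t g := by
  obtain ⟨g, h1, A, hA⟩ := lemH (X := Unit) hθ (cc_unit θ hθ) hcl hT (fun t _ g => V t g) () g0
    (fun t _ g g' => hmono t g g') (fun t x g _ hg => ⟨x, le_rfl, hd t g hg⟩)
  refine ⟨g, h1, fun t => ?_⟩
  obtain ⟨y, hy, -⟩ := (hA t).2.2 () le_rfl
  exact (hA t).2.1 y hy

/-- A small subset of a lower set that is predense in it. -/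
theorem CC.exists_predense {θ : Cardinal.{0}} (hcc : CC X θ) (s : Set X) :
    ∃ A ⊆ s, #A ≤ θ ∧ ∀ x ∈ s, ∃ y ∈ A, Comp x y := by
  obtain ⟨A, hA⟩ := zorn_subset {A : Set X | A ⊆ s ∧ A.Pairwise (fun x y => ¬ Comp x y)} (by
    intro c hc hchain
    refine ⟨⋃₀ c, ⟨?_, ?_⟩, fun s hs => subset_sUnion_of_mem hs⟩
    · rintro a ⟨s, hs, ha⟩
      exact (hc hs).1 ha
    · exact (pairwise_sUnion hchain.directedOn).mpr (fun s hs => (hc hs).2))
  refine ⟨A, hA.prop.1, hcc A hA.prop.2, fun x hx => ?_⟩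
  by_contra hcon
  push Not at hcon
  refine hcon x (hA.mem_of_prop_insert ⟨insert_subset hx hA.prop.1, ?_⟩) ⟨x, le_rfl, le_rfl⟩
  exact hA.prop.2.insert (fun a ha _ => ⟨hcon a ha, fun ⟨z, z1, z2⟩ => hcon a ha ⟨z, z2, z1⟩⟩)

end order

/-- Families of countably supported patterns that pairwise disagree have size at most `𝔠`. -/
theorem card_le_of_disagree {T X Y : Type} (hY : #Y ≤ 𝔠) (s : T → Set X)
    (hs : ∀ t, (s t).Countable) (col : T → X → Y)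
    (h : ∀ t t', t ≠ t' → ∃ x ∈ s t, x ∈ s t' ∧ col t x ≠ col t' x) : #T ≤ 𝔠 := by
  classical
  rcases isEmpty_or_nonempty T with hT | ⟨⟨t0⟩⟩
  · simp
  rcases isEmpty_or_nonempty X with hX | ⟨⟨x0⟩⟩
  · have : Subsingleton T := ⟨fun t t' => by
      by_contra hne
      obtain ⟨x, -⟩ := h t t' hne
      exact hX.elim x⟩
    exact Cardinal.mk_le_aleph0.trans Cardinal.aleph0_le_continuum
  choose en hen using fun t => ((hs t).insert x0).exists_eq_range (insert_nonempty _ _)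
  let pat : (ℕ → T) → T → (ℕ × ℕ → Option Y) := fun f t p =>
    if en (f p.1) p.2 ∈ s t then some (col t (en (f p.1) p.2)) else none
  let F : (ℕ → T) → (ℕ × ℕ → Option Y) → T := fun f c =>
    if hc : ∃ t, pat f t = c then hc.choose else t0
  have hF : ∀ f t, pat f (F f (pat f t)) = pat f t := by
    intro f t
    have hc : ∃ t', pat f t' = pat f t := ⟨t, rfl⟩
    simp only [F, dif_pos hc]
    exact hc.choose_spec
  let β : Option (ℕ × ℕ → Option Y) → Type := fun o => ULift.{0} {_n : ℕ // o.isSome}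
  let ev : WType β → T := WType.elim T (fun p => match p with
    | ⟨none, _⟩ => t0
    | ⟨some c, f⟩ => F (fun n => f ⟨⟨n, rfl⟩⟩) c)
  have hcard : #(WType β) ≤ 𝔠 := by
    apply WType.cardinalMk_le_of_le
    refine (Cardinal.sum_le_sum _ (fun _ => 𝔠) (fun o => ?_)).trans ?_
    · refine (Cardinal.power_le_power_left Cardinal.continuum_ne_zero
        (Cardinal.mk_le_aleph0 (α := β o))).trans_eq Cardinal.continuum_power_aleph0
    · rw [Cardinal.sum_const']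
      refine Cardinal.mul_le_of_le Cardinal.aleph0_le_continuum ?_ le_rfl
      have h1 : #(Option Y) ≤ 𝔠 := by
        rw [Cardinal.mk_option]
        exact Cardinal.add_le_of_le Cardinal.aleph0_le_continuum hY
          (Cardinal.one_le_aleph0.trans Cardinal.aleph0_le_continuum)
      rw [Cardinal.mk_option, ← Cardinal.power_def, Cardinal.mk_eq_aleph0 (ℕ × ℕ)]
      exact Cardinal.add_le_of_le Cardinal.aleph0_le_continuum
        ((Cardinal.power_le_power_right h1).trans_eq Cardinal.continuum_power_aleph0)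
        (Cardinal.one_le_aleph0.trans Cardinal.aleph0_le_continuum)
  refine le_trans (Cardinal.mk_le_of_surjective (f := ev) (fun t => ?_)) hcard
  have h1 : ∀ n, ∃ w : WType β, (∃ w', en t n ∈ s (ev w')) → en t n ∈ s (ev w) := by
    intro n
    by_cases h2 : ∃ w', en t n ∈ s (ev w')
    · obtain ⟨w, hw⟩ := h2
      exact ⟨w, fun _ => hw⟩
    · exact ⟨WType.mk none (fun x => absurd x.1.2 (by simp)), fun h3 => absurd h3 h2⟩
  choose w hw using h1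
  let w' : WType β := WType.mk (some (pat (fun n => ev (w n)) t)) (fun x => w x.1.1)
  have hw' : ev w' = F (fun n => ev (w n)) (pat (fun n => ev (w n)) t) := rfl
  refine ⟨w', ?_⟩
  by_contra hne
  obtain ⟨x, x1, x2, x3⟩ := h _ _ hne
  obtain ⟨n, hn⟩ : x ∈ range (en t) := by rw [← hen]; exact Or.inr x2
  have x4 : x ∈ s (ev (w n)) := by rw [← hn]; exact hw n ⟨w', by rw [hn]; exact x1⟩
  obtain ⟨m, hm⟩ : x ∈ range (en (ev (w n))) := by rw [← hen]; exact Or.inr x4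
  have x5 := congrFun (hF (fun n => ev (w n)) t) (n, m)
  rw [← hw'] at x5
  simp only [pat, hm, x1, x2, if_true, Option.some.injEq] at x5
  exact x3 x5

end Pool.Agent.P.MP_b10269_lc.H21
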