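import Mathlib
import Pool.Agent.P.MP_b10269_lc.H21.Basic

/-! Cohen conditions: finite partial functions into `Bool`. -/

namespace Pool.Agent.P.MP_b10269_lc.H21

open Cardinal Set

/-- Cohen conditions. -/
structure A (N : Type) where
  s : Set (N × Bool)
  fin : s.Finite
  fn : ∀ n v, (n, v) ∈ s → (n, !v) ∉ s

namespace A

variable {N : Type}

instance : Preorder (A N) where
  le a b := b.s ⊆ a.s
  le_refl _ := Subset.rfl
  le_trans _ _ _ h1 h2 := Subset.trans h2 h1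

theorem le_def {a b : A N} : a ≤ b ↔ b.s ⊆ a.s := Iff.rfl

theorem ext' {a b : A N} (h : a.s = b.s) : a = b := by
  cases a; cases b; cases h; rfl

/-- The trivial condition. -/
def top : A N := ⟨∅, finite_empty, fun _ _ h => h.elim⟩

theorem le_top (a : A N) : a ≤ top := empty_subset _

theorem comp_of {a b : A N} (h : ∀ n v, (n, v) ∈ a.s → (n, !v) ∉ b.s) : Comp a b := by
  refine ⟨⟨a.s ∪ b.s, a.fin.union b.fin, ?_⟩, subset_union_left, subset_union_right⟩
  rintro n v (h1 | h1) (h2 | h2)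
  · exact a.fn n v h1 h2
  · exact h n v h1 h2
  · exact h n (!v) h2 (by simpa using h1)
  · exact b.fn n v h1 h2

theorem card_le [Infinite N] : #(A N) ≤ #N := by
  have : #(A N) ≤ #(Finset (N × Bool)) :=
    Cardinal.mk_le_of_injective (f := fun a => a.fin.toFinset) (fun a b h => ext' (by
      simpa using h))
  refine this.trans ?_
  rw [Cardinal.mk_finset_of_infinite, Cardinal.mk_prod, Cardinal.lift_id, Cardinal.lift_id]
  exact Cardinal.mul_le_of_le (Cardinal.aleph0_le_mk N) le_rfl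
    (Cardinal.mk_le_aleph0.trans (Cardinal.aleph0_le_mk N))

/-- The root lemma. -/
theorem exists_root {S : Set (A N)} (hS : S.Infinite) {a0 : A N} {j : ℕ}
    (h : ∀ w ∈ S, w ≤ a0 ∧ w.s.ncard ≤ j) :
    ∃ r ≤ a0, r.s.ncard < j ∧ ∀ a ≤ r, {w ∈ S | w ≤ r ∧ Comp a w}.Infinite := by
  obtain ⟨r, ⟨r1, r2⟩, hmin⟩ := (measure fun r : A N => j - r.s.ncard).wf.has_min
    {r | r ≤ a0 ∧ {w ∈ S | w ≤ r}.Infinite} ⟨a0, le_rfl, hS.mono fun w hw => ⟨hw, (h w hw).1⟩⟩
  have hlt : ∀ r' : A N, {w ∈ S | w ≤ r'}.Infinite → r'.s.ncard < j := by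
    intro r' hr'
    by_contra hn
    refine hr' ((finite_singleton r').subset fun w hw => ext' ?_)
    exact (eq_of_subset_of_ncard_le hw.2 ((h w hw.1).2.trans (not_lt.mp hn)) w.fin).symm
  refine ⟨r, r1, hlt r r2, fun a ha hfin => r2 ?_⟩
  refine (hfin.union (a.fin.biUnion
    (t := fun e => {w ∈ S | w ≤ r ∧ (e.1, !e.2) ∈ w.s}) fun e he => ?_)).subset ?_
  · by_contra hinf
    obtain ⟨w, hw⟩ := (not_finite.mp hinf).nonempty
    have h1 : (e.1, !e.2) ∉ r.s := fun h' => a.fn _ _ he (ha h')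
    let r' : A N := ⟨insert (e.1, !e.2) r.s, r.fin.insert _, fun n v k1 k2 =>
      w.fn n v (insert_subset hw.2.2 hw.2.1 k1) (insert_subset hw.2.2 hw.2.1 k2)⟩
    have h2 : {w ∈ S | w ≤ r'}.Infinite :=
      (not_finite.mp hinf).mono fun w hw => ⟨hw.1, insert_subset hw.2.2 hw.2.1⟩
    refine hmin r' ⟨le_trans (subset_insert _ _) r1, h2⟩ ?_
    have h3 : r'.s.ncard = r.s.ncard + 1 := ncard_insert_of_notMem h1 r.fin
    have h4 := hlt r' h2
    show j - r'.s.ncard < j - r.s.ncard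
    omega
  · intro w hw
    by_cases hc : Comp a w
    · exact Or.inl ⟨hw.1, hw.2, hc⟩
    · right
      by_contra hn
      exact hc (comp_of fun n v k1 k2 => hn (mem_biUnion k1 ⟨hw.1, hw.2, k2⟩))

theorem ccc : CC (A N) ℵ₀ := by
  intro S hS
  rw [Cardinal.mk_le_aleph0_iff, countable_coe_iff]
  have : S ⊆ ⋃ j, {w ∈ S | w.s.ncard ≤ j} := fun w hw => mem_iUnion.mpr ⟨_, hw, le_rfl⟩
  refine (countable_iUnion fun j => Finite.countable ?_).mono this
  by_contra hinf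
  obtain ⟨r, -, -, h⟩ := exists_root (a0 := top) (j := j) (not_finite.mp hinf)
    (fun w hw => ⟨le_top w, hw.2⟩)
  obtain ⟨w, hw⟩ := (h r le_rfl).nonempty
  obtain ⟨w', h1, h2⟩ := (h w hw.2.1).exists_notMem_finite (finite_singleton w)
  exact hS hw.1.1 h1.1.1 (fun h => h2 h.symm) h1.2.2

/-- One more bit. -/
theorem exists_bit (a : A N) {n : N} (h : ∀ v, (n, v) ∉ a.s) (v : Bool) :
    ∃ b ≤ a, b.s = insert (n, v) a.s := by
  refine ⟨⟨insert (n, v) a.s, a.fin.insert _, ?_⟩, subset_insert _ _, rfl⟩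
  rintro m u (k1 | k1) (k2 | k2)
  · cases k1; cases v <;> simp at k2
  · cases k1; exact h _ k2
  · cases k2; exact h _ k1
  · exact a.fn _ _ k1 k2

variable [LinearOrder N]

/-- Restriction to the coordinates below `i`. -/
def res (a : A N) (i : N) : A N :=
  ⟨{e ∈ a.s | e.1 < i}, a.fin.subset fun _ h => h.1, fun n v h1 h2 => a.fn n v h1.1 h2.1⟩

theorem le_res (a : A N) (i : N) : a ≤ a.res i := fun _ h => h.1

theorem res_mono {a b : A N} (h : a ≤ b) (i : N) : a.res i ≤ b.res i := fun _ k => ⟨h k.1, k.2⟩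

theorem res_le_res {a b : A N} {i : N} (h : a ≤ b.res i) : a.res i ≤ b.res i :=
  fun _ k => ⟨h k, k.2⟩

theorem res_anti (a : A N) {i i' : N} (h : i ≤ i') : a.res i' ≤ a.res i :=
  fun _ k => ⟨k.1, k.2.trans_le h⟩

theorem exists_glue {x y : A N} {i : N} (h : x.res i ≤ y.res i) :
    ∃ d ≤ y, d ≤ x.res i ∧ x.res i ≤ d.res i := by
  refine ⟨⟨(x.res i).s ∪ y.s, (x.res i).fin.union y.fin, ?_⟩, subset_union_right,
    subset_union_left, ?_⟩
  · rintro n v (h1 | h1) (h2 | h2)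
    · exact x.fn n v h1.1 h2.1
    · exact x.fn n v h1.1 (h ⟨h2, h1.2⟩).1
    · exact x.fn n v (h ⟨h1, h2.2⟩).1 h2.1
    · exact y.fn n v h1 h2
  · rintro e ⟨h1 | h1, h2⟩
    exacts [h1, h ⟨h1, h2⟩]

end A

end Pool.Agent.P.MP_b10269_lc.H21
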