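import Mathlib
import Pool.Agent.P.MP_54b694_lc.Defs

/-! The notions of the problem, read inside a structure `(M, E)` for the language of set theory. -/

namespace Pool.Agent.P.MP_b10269_lc.H21

open Pool.Agent.P.MP_54b694_lc

universe u

variable {M : Type u} (E : M → M → Prop)

/-- `A ⊆ C`. -/
def Sub (A C : M) : Prop := ∀ x, E x A → E x C

/-- `d` is a von Neumann ordinal: a transitive set on which membership is trichotomous. -/
def IsOrd (d : M) : Prop :=
  (∀ x y, E x d → E y x → E y d) ∧ ∀ x y, E x d → E y d → E x y ∨ x = y ∨ E y x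

/-- `k` is a regular uncountable cardinal: an ordinal that injects neither into a smaller ordinal
nor into `ω`, and whose subsets of size `< k` are bounded in `k`. -/
def IsRegUnc (k : M) : Prop :=
  IsOrd E k ∧ (∀ a, E a k → ¬ CardLE E k a) ∧ ¬ IsCountable E k ∧
    ∀ A, Sub E A k → CardLT E A k → ∃ b, E b k ∧ Sub E A b

/-- `A ∈ [k]^k`: a subset of `k` of cardinality `k`. -/
def Big (k A : M) : Prop := Sub E A k ∧ CardLE E A k ∧ CardLE E k A

/-- `A ⊆* F`: `|A \ F| < k`. -/
def AlmostSub (k A F : M) : Prop := ∃ D, (∀ x, E x D ↔ E x A ∧ ¬ E x F) ∧ CardLT E D k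

/-- The strong intersection property: every subfamily `G` of size `< k` has an intersection
(taken inside `k`) of cardinality `k`. -/
def SIP (k F : M) : Prop :=
  ∀ G, Sub E G F → CardLT E G k →
    ∃ I, (∀ x, E x I ↔ E x k ∧ ∀ A, E A G → E x A) ∧ Big E k I

/-- `F ⊆ [k]^k` has the SIP and no pseudo-intersection of cardinality `k`. -/
def PFam (k F : M) : Prop :=
  (∀ A, E A F → Big E k A) ∧ SIP E k F ∧
    ¬ ∃ Y, Big E k Y ∧ ∀ A, E A F → AlmostSub E k Y A

/-- `f` is a function with domain `d` and range `T`. -/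
def IsFunOnto (f d T : M) : Prop :=
  (∀ p, E p f → ∃ a b, E a d ∧ E b T ∧ IsOPair E p a b) ∧ (∀ a, E a d → ∃ b, Rel E f a b) ∧
    (∀ a b b', Rel E f a b → Rel E f a b' → b = b') ∧ ∀ b, E b T → ∃ a, Rel E f a b

/-- `T` is a tower: `T = {f α : α < d}` for an ordinal `d`, with `f β ⊆* f α` for `α < β < d`,
and `T ⊆ [k]^k` has the SIP and no pseudo-intersection of cardinality `k`. -/
def IsTower (k T : M) : Prop :=
  PFam E k T ∧ ∃ d f, IsOrd E d ∧ IsFunOnto E f d T ∧
    ∀ a b A C, E a b → E b d → Rel E f a A → Rel E f b C → AlmostSub E k C A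

/-- `|p|` is the least cardinality of a set with the property `Q`. -/
def IsLeastCard (Q : M → Prop) (p : M) : Prop :=
  (∃ F, Q F ∧ CardLE E F p ∧ CardLE E p F) ∧ ∀ F, Q F → CardLE E p F

end Pool.Agent.P.MP_b10269_lc.H21
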