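import Mathlib
import Pool.Agent.P.MP_54b694_lc.Card
import Pool.Agent.P.MP_b10269_lc.H21.Defs
import Pool.Agent.P.MP_b10269_lc.H21.Basic

/-! Names for ordinals, comparison of cardinals in the quotient models. -/

namespace Pool.Agent.P.MP_b10269_lc.H21

open Pool.Agent.P.MP_54b694_lc Pool.Agent.P.MP_54b694_lc.Name Cardinal Set

variable {B : Type} [CompleteBooleanAlgebra B]

section ord

variable {T : Type} [LinearOrder T] [WellFoundedLT T]

/-- The von Neumann ordinal of an element of a well-order. -/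
noncomputable def ordN : T → Name B :=
  WellFounded.fix (wellFounded_lt (α := T))
    (fun ξ ih => Name.mk (Iio ξ) (fun η => ih η η.2) (fun _ => ⊤))

theorem ordN_eq (ξ : T) : (ordN ξ : Name B) = Name.mk (Iio ξ) (fun η => ordN η.1) (fun _ => ⊤) :=
  WellFounded.fix_eq _ _ ξ

theorem ordN_mem (U : Ultra B) {η ξ : T} (h : η < ξ) :
    mem U (mk U (ordN η)) (mk U (ordN ξ)) := by
  rw [ordN_eq ξ]
  exact mem_mk_of (A := fun η : Iio ξ => ordN η.1) ⟨η, h⟩ U.top

theorem ordN_inj (U : Ultra B) {η ξ : T} (h : mk U (ordN η) = mk U (ordN ξ)) : η = ξ := by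
  by_contra hne
  rcases lt_or_gt_of_ne hne with h1 | h1
  · have := ordN_mem U h1
    rw [h] at this
    exact mod_irrefl U _ this
  · have := ordN_mem U h1
    rw [h] at this
    exact mod_irrefl U _ this

/-- The name of a set of ordinals. -/
noncomputable def subN (S : T → B) : Name B := Name.mk T ordN S

theorem mem_subN (U : Ultra B) (S : T → B) (ξ : T) :
    mem U (mk U (ordN ξ)) (mk U (subN S)) ↔ U.s (S ξ) := by
  refine ⟨fun h => ?_, fun h => mem_mk_of (A := ordN) ξ h⟩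
  refine of_mem_mk (P := fun V y => y = mk V (ordN ξ) → V.s (S ξ))
    (fun y => (Rep.eq y _).imp (Rep.of_s _)) ?_ U _ h rfl
  intro η V h1 h2
  rwa [← ordN_inj V h2]

/-- The order type of the well-order. -/
noncomputable def fullN (B T : Type) [CompleteBooleanAlgebra B] [LinearOrder T] [WellFoundedLT T] :
    Name B := subN (fun _ : T => ⊤)

theorem ordN_mem_full (U : Ultra B) (ξ : T) : mem U (mk U (ordN ξ)) (mk U (fullN B T)) :=
  (mem_subN U _ ξ).mpr U.top

theorem subN_sub (U : Ultra B) (S : T → B) : Sub (mem U) (mk U (subN S)) (mk U (fullN B T)) :=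
  of_mem_mk (P := fun V y => mem V y (mk V (fullN B T))) (fun y => Rep.mem y _)
    (fun ξ V _ => ordN_mem_full V ξ) U

theorem ordN_sub (U : Ultra B) (ξ : T) : Sub (mem U) (mk U (ordN ξ)) (mk U (fullN B T)) := by
  rw [ordN_eq]
  exact of_mem_mk (P := fun V y => mem V y (mk V (fullN B T))) (fun y => Rep.mem y _)
    (fun η V _ => ordN_mem_full V η.1) U

theorem lt_of_ordN_mem (U : Ultra B) {η ξ : T} (h : mem U (mk U (ordN η)) (mk U (ordN ξ))) :
    η < ξ := by
  by_contra hn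
  rw [ordN_eq ξ] at h
  refine of_mem_mk (P := fun V y => ¬ y = mk V (ordN η)) (fun y => (Rep.eq y _).not) ?_ U _ h rfl
  intro ζ V _ h2
  exact hn (ordN_inj V h2 ▸ ζ.2)

theorem isOrd_full (U : Ultra B) : IsOrd (mem U) (mk U (fullN B T)) := by
  constructor
  · intro x y hx hy
    obtain ⟨y, rfl⟩ := mk_surj y
    refine of_mem_mk (P := fun V x => mem V (mk V y) x → mem V (mk V y) (mk V (fullN B T)))
      (fun x => (Rep.mem y x).imp (Rep.mem y _)) ?_ U x hx hy
    exact fun ξ V _ => ordN_sub V ξ _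
  · intro x y hx hy
    obtain ⟨y, rfl⟩ := mk_surj y
    refine of_mem_mk (P := fun V x => mem V (mk V y) (mk V (fullN B T)) →
        mem V x (mk V y) ∨ x = mk V y ∨ mem V (mk V y) x)
      (fun x => (Rep.mem y _).imp ((Rep.mem x y).or ((Rep.eq x y).or (Rep.mem y x)))) ?_ U x hx hy
    intro ξ V _ h
    refine of_mem_mk (P := fun V y => mem V (mk V (ordN ξ)) y ∨ mk V (ordN ξ) = y ∨
        mem V y (mk V (ordN ξ)))
      (fun y => (Rep.mem _ y).or ((Rep.eq _ y).or (Rep.mem y _))) ?_ V _ h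
    intro η V' _
    rcases lt_trichotomy ξ η with h | h | h
    exacts [Or.inl (ordN_mem V' h), Or.inr (Or.inl (by rw [h])), Or.inr (Or.inr (ordN_mem V' h))]

theorem eq_subN (U : Ultra B) (A : Name B) (h : Sub (mem U) (mk U A) (mk U (fullN B T))) :
    mk U A = mk U (subN (fun ξ : T => bmem (ordN ξ) A)) := by
  rw [eq_trace U (fullN B T) A h]
  congr 1
  exact congrArg (Name.mk T ordN) (funext fun ξ => top_inf_eq _)

/-- Either an initial part of the well-order injects into `X`, or `X` is locally covered by a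
family indexed by a proper initial segment. -/
theorem cardLE_or_covered (X Z : Name B) (s : Set T) {q : B}
    (hZ : Covered q Z (fun η : s => ordN η.1)) :
    Forces q (fun U => CardLE (mem U) (mk U Z) (mk U X)) ∨
      ∃ j ∈ s, ∃ r, r ≠ ⊥ ∧ r ≤ q ∧ ∃ g : Iio j → Name B, Covered r X g := by
  have hrep : ∀ G y : Name B, Rep (fun U => mem U (mk U y) (mk U X) ∧ ¬ mem U (mk U y) (mk U G)) :=
    fun G y => (Rep.mem y X).and (Rep.mem y G).not
  choose w hw using fun G : Name B =>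
    Rep.witness (P := fun U y => mem U y (mk U X) ∧ ¬ mem U y (mk U G)) (hrep G)
  let g : T → Name B := WellFounded.fix (wellFounded_lt (α := T))
    (fun ξ ih => w (Name.mk (Iio ξ) (fun η => ih η η.2) (fun _ => ⊤)))
  let G : T → Name B := fun ξ => Name.mk (Iio ξ) (fun η => g η.1) (fun _ => ⊤)
  have hg : ∀ ξ, g ξ = w (G ξ) := fun ξ => WellFounded.fix_eq _ _ ξ
  by_cases h : ∀ j ∈ s, Forces q (fun U => ∃ y, mem U y (mk U X) ∧ ¬ mem U y (mk U (G j)))
  · left
    have h1 : ∀ j ∈ s, Forces q (fun U => mem U (mk U (g j)) (mk U X) ∧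
        ¬ mem U (mk U (g j)) (mk U (G j))) := by
      intro j hj U hU
      rw [hg]
      exact hw _ U (h j hj U hU)
    have key : ∀ i j : s, i.1 < j.1 → Forces q (fun U => mk U (g i) ≠ mk U (g j)) := by
      intro i j hij U hU he
      apply (h1 j j.2 U hU).2
      rw [← he]
      exact mem_mk_of (A := fun η : Iio j.1 => g η.1) ⟨i, hij⟩ U.top
    refine forces_cardLE (z := fun η : s => g η.1) hZ (fun i U hU => (h1 i i.2 U hU).1) ?_
    intro i j U hU he
    by_contra hne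
    rcases lt_or_gt_of_ne (fun h => hne (Subtype.ext h) : i.1 ≠ j.1) with h2 | h2
    exacts [key i j h2 U hU he, key j i h2 U hU he.symm]
  · right
    simp only [Forces, not_forall] at h
    obtain ⟨j, hj, U, hU, h⟩ := h
    obtain ⟨r, r1, r2, r3⟩ := (Rep.ex (P := fun U y => mem U y (mk U X) ∧ ¬ mem U y (mk U (G j)))
      (hrep (G j))).not.localize h hU
    refine ⟨j, hj, r, r1, r2, _, (covered_mk r (fun η : Iio j => g η.1) (fun _ => ⊤)).subset ?_⟩
    intro V hV x hx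
    by_contra hn
    exact r3 V hV ⟨x, hx, hn⟩

theorem covered_full (q : B) : Covered q (fullN B T) (fun η : (univ : Set T) => ordN η.1) := by
  intro u r h1 h2 h3
  obtain ⟨i, h⟩ := covered_mk q (ordN : T → Name B) (fun _ => ⊤) u r h1 h2 h3
  exact ⟨⟨i, trivial⟩, h⟩

theorem covered_ordN (q : B) (ξ : T) : Covered q (ordN ξ) (fun η : Iio ξ => ordN η.1) := by
  rw [ordN_eq ξ]
  exact covered_mk q _ _

theorem forces_cardLE_ordN {q : B} {X : Name B} {j : T} {g : Iio j → Name B}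
    (h : Covered q X g) : Forces q (fun U => CardLE (mem U) (mk U X) (mk U (ordN j))) :=
  forces_cardLE (z := fun η : Iio j => ordN η.1) h (fun i U _ => ordN_mem U i.2)
    (fun _ _ U _ he => Subtype.ext (ordN_inj U he))

end ord

theorem IsInjection.mem_left {U : Ultra B} {f A C a b : Mod U} (h : IsInjection (mem U) f A C)
    (hr : Rel (mem U) f a b) : mem U a A := by
  obtain ⟨p, h1, h2⟩ := hr
  obtain ⟨a', b', g1, -, g3⟩ := h.1 p h1
  rwa [(IsOPair.inj (mod_pair U) h2 g3).1]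

theorem exists_opair (U : Ultra B) (a b : Mod U) : ∃ p, IsOPair (mem U) p a b := by
  obtain ⟨a, rfl⟩ := mk_surj a
  obtain ⟨b, rfl⟩ := mk_surj b
  exact ⟨_, isOPair_opair U a b⟩

theorem opair_unique {U : Ultra B} {p p' a b : Mod U} (h : IsOPair (mem U) p a b)
    (h' : IsOPair (mem U) p' a b) : p = p' := mod_ext U _ _ (fun x => by rw [h x, h' x])

theorem cardLE_trans {U : Ultra B} {A C D : Mod U} (h1 : CardLE (mem U) A C)
    (h2 : CardLE (mem U) C D) : CardLE (mem U) A D := by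
  obtain ⟨f, hf⟩ := h1
  obtain ⟨g, hg⟩ := h2
  obtain ⟨A, rfl⟩ := mk_surj A
  obtain ⟨D, rfl⟩ := mk_surj D
  obtain ⟨f, rfl⟩ := mk_surj f
  obtain ⟨g, rfl⟩ := mk_surj g
  let Pr : Name B := Name.mk (A.idx × D.idx) (fun s => opair (A.val s.1) (D.val s.2)) (fun _ => ⊤)
  have hPr : ∀ a d, mem U a (mk U A) → mem U d (mk U D) → Rel (mem U) (mk U Pr) a d := by
    intro a d ha hd
    obtain ⟨d, rfl⟩ := mk_surj d
    refine of_mem_name (P := fun V a => mem V (mk V d) (mk V D) → Rel (mem V) (mk V Pr) a (mk V d))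
      (fun a => (Rep.mem d D).imp (rep_rel Pr a d)) ?_ U a ha hd
    intro i V _ h
    refine of_mem_name (P := fun V d => Rel (mem V) (mk V Pr) (mk V (A.val i)) d)
      (fun d => rep_rel Pr _ d) ?_ V _ h
    intro j V' _
    exact rel_mk_of (y := fun s : A.idx × D.idx => A.val s.1) (z := fun s => D.val s.2) (i, j) V'.top
  obtain ⟨h, hh⟩ := exists_sep Pr (P := fun V p => ∃ a c d, IsOPair (mem V) p a d ∧
      Rel (mem V) (mk V f) a c ∧ Rel (mem V) (mk V g) c d)
    (fun p => Rep.ex fun a => Rep.ex fun c => Rep.ex fun d =>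
      (rep_opair p a d).and ((rep_rel f a c).and (rep_rel g c d)))
  have hrel : ∀ a d, Rel (mem U) (mk U h) a d ↔
      ∃ c, Rel (mem U) (mk U f) a c ∧ Rel (mem U) (mk U g) c d := by
    intro a d
    constructor
    · rintro ⟨p, p1, p2⟩
      obtain ⟨a', c, d', k1, k2, k3⟩ := ((hh U p).mp p1).2
      obtain ⟨rfl, rfl⟩ := IsOPair.inj (mod_pair U) p2 k1
      exact ⟨c, k2, k3⟩
    · rintro ⟨c, k1, k2⟩
      obtain ⟨p, p1, p2⟩ := hPr a d (IsInjection.mem_left hf k1) (hg.mem_right k2)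
      exact ⟨p, (hh U p).mpr ⟨p1, a, c, d, p2, k1, k2⟩, p2⟩
  refine ⟨mk U h, fun p hp => ?_, fun a ha => ?_, fun a b b' k1 k2 => ?_, fun a a' b k1 k2 => ?_⟩
  · obtain ⟨a, c, d, k1, k2, k3⟩ := ((hh U p).mp hp).2
    exact ⟨a, d, IsInjection.mem_left hf k2, hg.mem_right k3, k1⟩
  · obtain ⟨c, hc⟩ := hf.2.1 a ha
    obtain ⟨d, hd⟩ := hg.2.1 c (hf.mem_right hc)
    exact ⟨d, (hrel a d).mpr ⟨c, hc, hd⟩⟩
  · obtain ⟨c, c1, c2⟩ := (hrel _ _).mp k1
    obtain ⟨c', c3, c4⟩ := (hrel _ _).mp k2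
    obtain rfl := hf.2.2.1 _ _ _ c1 c3
    exact hg.2.2.1 _ _ _ c2 c4
  · obtain ⟨c, c1, c2⟩ := (hrel _ _).mp k1
    obtain ⟨c', c3, c4⟩ := (hrel _ _).mp k2
    obtain rfl := hg.2.2.2 _ _ _ c2 c4
    exact hf.2.2.2 _ _ _ c1 c3

theorem cardLE_mono_right {U : Ultra B} {A C D : Mod U} (h1 : CardLE (mem U) A C)
    (h2 : Sub (mem U) C D) : CardLE (mem U) A D := by
  obtain ⟨f, hf⟩ := h1
  refine ⟨f, fun p hp => ?_, hf.2⟩
  obtain ⟨a, b, k1, k2, k3⟩ := hf.1 p hp
  exact ⟨a, b, k1, h2 b k2, k3⟩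

theorem cardLE_refl (U : Ultra B) (A : Mod U) : CardLE (mem U) A A := by
  obtain ⟨A, rfl⟩ := mk_surj A
  let D : Name B := Name.mk A.idx (fun i => opair (A.val i) (A.val i)) A.bv
  have h1 : ∀ a b, Rel (mem U) (mk U D) a b → a = b :=
    of_rel_mk (P := fun _ a b => a = b) (fun a b => Rep.eq a b) (fun _ _ _ => rfl) U
  refine ⟨mk U D, ?_, ?_, fun a b b' k1 k2 => (h1 _ _ k1).symm.trans (h1 _ _ k2),
    fun a a' b k1 k2 => (h1 _ _ k1).trans (h1 _ _ k2).symm⟩
  · refine of_mem_mk (P := fun V p => ∃ a b, mem V a (mk V A) ∧ mem V b (mk V A) ∧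
      IsOPair (mem V) p a b) (fun p => Rep.ex fun a => Rep.ex fun b =>
        (Rep.mem a A).and ((Rep.mem b A).and (rep_opair p a b))) ?_ U
    intro i V h
    exact ⟨_, _, mem_val A i h, mem_val A i h, isOPair_opair V _ _⟩
  · refine of_mem_name (P := fun V a => ∃ b, Rel (mem V) (mk V D) a b)
      (fun a => Rep.ex fun b => rep_rel D a b) ?_ U
    intro i V h
    exact ⟨_, rel_mk_of (y := A.val) (z := A.val) i h⟩

theorem cardLE_of_sub {U : Ultra B} {A C : Mod U} (h : Sub (mem U) A C) : CardLE (mem U) A C :=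
  cardLE_mono_right (cardLE_refl U A) h

theorem cover_of_cardLE {I : Type} {p : B} {X Y : Name B} {y : I → Name B}
    (h : Forces p (fun U => CardLE (mem U) (mk U X) (mk U Y))) (hcov : Covered p Y y) :
    ∃ x : I → Name B, Covered p X x := by
  obtain ⟨f, hf⟩ := Forces.ex (P := fun U f => IsInjection (mem U) f (mk U X) (mk U Y))
    (fun f => rep_inj f X Y) h
  choose x hx using fun i : I => Rep.witness
    (P := fun U a => Rel (mem U) (mk U f) a (mk U (y i))) (fun a => rep_rel f a _)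
  refine ⟨x, fun u q hq hqp hu => ?_⟩
  obtain ⟨b, hb⟩ := Forces.ex (P := fun U b => Rel (mem U) (mk U f) (mk U u) b)
    (fun b => rep_rel f _ b) (p := q) (fun V hV => (hf V (V.mono hqp hV)).2.1 _ (hu V hV))
  obtain ⟨n, r, g1, g2, g3⟩ := hcov b q hq hqp
    (fun V hV => (hf V (V.mono hqp hV)).mem_right (hb V hV))
  refine ⟨n, r, g1, g2, fun V hV => ?_⟩
  have k1 := hb V (V.mono g2 hV)
  beta_reduce at k1
  rw [g3 V hV] at k1
  exact (hf V (V.mono (g2.trans hqp) hV)).2.2.2 _ _ _ k1 (hx n V ⟨_, k1⟩)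

theorem covered_name (p : B) (X : Name B) : Covered p X X.val := by
  cases X with
  | mk I y b => exact covered_mk p y b

/-- A nonempty representable class has a member of least cardinality. -/
theorem exists_least_card {Q : ∀ U : Ultra B, Mod U → Prop} (hQ : ∀ x, Rep (fun U => Q U (mk U x)))
    (U : Ultra B) (h : ∃ x, Q U x) : ∃ x, Q U x ∧ ∀ y, Q U y → CardLE (mem U) x y := by
  refine Rep.imp_of_dense (P := fun U => ∃ x, Q U x)
    (Q := fun U => ∃ x, Q U x ∧ ∀ y, Q U y → CardLE (mem U) x y) (Rep.ex hQ)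
    (Rep.ex fun x => (hQ x).and (Rep.all fun y => (hQ y).imp (rep_cardLE x y))) ?_ U h
  intro q hq hF
  obtain ⟨X, hX⟩ := Forces.ex hQ hF
  obtain ⟨lo, wf⟩ := exists_wellFoundedLT X.idx
  have hrep : ∀ z : Name B, Rep (fun V => ∃ x, Q V x ∧ CardLE (mem V) x (mk V z)) :=
    fun z => Rep.ex fun x => (hQ x).and (rep_cardLE x z)
  have hne : {j : WithTop X.idx | ∃ r, r ≠ ⊥ ∧ r ≤ q ∧
      Forces r (fun V => ∃ x, Q V x ∧ CardLE (mem V) x (mk V (ordN j)))}.Nonempty := by
    refine ⟨⊤, q, hq, le_rfl, fun V hV => ⟨_, hX V hV, ?_⟩⟩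
    refine forces_cardLE (z := fun i : X.idx => ordN (i : WithTop X.idx)) (covered_name q X)
      (fun i V _ => ordN_mem V (WithTop.coe_lt_top i))
      (fun _ _ V _ he => WithTop.coe_injective (ordN_inj V he)) V hV
  obtain ⟨j, ⟨r, r1, r2, r3⟩, hmin⟩ := (wellFounded_lt (α := WithTop X.idx)).has_min _ hne
  refine ⟨r, r1, r2, fun V hV => ?_⟩
  obtain ⟨x, x1, x2⟩ := r3 V hV
  refine ⟨x, x1, fun y hy => cardLE_trans x2 ?_⟩
  obtain ⟨y, rfl⟩ := mk_surj y
  refine Rep.imp_of_dense (P := fun V => V.s r ∧ Q V (mk V y))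
    (Q := fun V => CardLE (mem V) (mk V (ordN j)) (mk V y)) ((Rep.of_s r).and (hQ y))
    (rep_cardLE _ y) ?_ V ⟨hV, hy⟩
  intro s hs hs'
  rcases cardLE_or_covered y (ordN j) (Iio j) (covered_ordN s j) with h1 | ⟨i, hi, t, t1, t2, g, hg⟩
  · exact ⟨s, hs, le_rfl, h1⟩
  · have t3 : t ≤ r := t2.trans (le_of_ultra fun V hV => (hs' V hV).1)
    exact absurd hi (hmin i ⟨t, t1, t3.trans r2, fun V hV =>
      ⟨_, (hs' V (V.mono t2 hV)).2, forces_cardLE_ordN hg V hV⟩⟩)

end Pool.Agent.P.MP_b10269_lc.H21
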