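import Mathlib
import Pool.Agent.P.MP_b10269_lc.H21.BVa

/-! From four properties of a complete Boolean algebra to a model of `p(ω₁) < t(ω₁)`. -/

namespace Pool.Agent.P.MP_b10269_lc.H21

open Pool.Agent.P.MP_54b694_lc Pool.Agent.P.MP_54b694_lc.Name Cardinal Set

variable {B : Type} [CompleteBooleanAlgebra B]

/-- The value of: `S` is unbounded in `ω₁`. -/
def unb (S : Om → B) : B := ⨅ η, ⨆ ξ : {ξ : Om // η ≤ ξ}, S ξ.1

/-- The value of: `S ⊆* T`. -/
def asub (S T : Om → B) : B := (unb (fun ξ => S ξ ⊓ (T ξ)ᶜ))ᶜ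

/-- Countable covering. -/
def Cov (B : Type) [CompleteBooleanAlgebra B] : Prop :=
  ∀ (T ι : Type), Countable T → ∀ (f : T → ι → B) (p : B), p ≠ ⊥ → (∀ n, p ≤ ⨆ x, f n x) →
    ∃ r, r ≠ ⊥ ∧ r ≤ p ∧ ∃ X : Set ι, X.Countable ∧ ∀ n, r ≤ ⨆ x : X, f n x

/-- A family with the strong intersection property and no pseudo-intersection. -/
def Fam {ι : Type} (F : ι → Om → B) : Prop :=
  (∀ b : ℕ → ι, unb (fun ξ => ⨅ n, F (b n) ξ) = ⊤) ∧ ∀ Y, unb Y ⊓ ⨅ β, asub Y (F β) = ⊥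

/-- Chains indexed by `ι` with the strong intersection property have pseudo-intersections. -/
def Chains (B : Type) [CompleteBooleanAlgebra B] (ι : Type) : Prop :=
  ∀ (S : ι → Om → B) (p : B), p ≠ ⊥ → (∀ β β', p ≤ asub (S β) (S β') ⊔ asub (S β') (S β)) →
    (∀ b : ℕ → ι, p ≤ unb (fun ξ => ⨅ n, S (b n) ξ)) → ∃ Y, p ⊓ (unb Y ⊓ ⨅ β, asub Y (S β)) ≠ ⊥

/-- The name of `ω₁`. -/
noncomputable abbrev KN (B : Type) [CompleteBooleanAlgebra B] : Name B := fullN B Om

theorem Cov.covered (hc : Cov B) {I ι : Type} [Countable I] {r : B} {Y : Name B}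
    {g : I → Name B} {z : ι → Name B} (hr : r ≠ ⊥) (h1 : Covered r Y g) (h3 : Covered r Y z) :
    ∃ r', r' ≠ ⊥ ∧ r' ≤ r ∧ ∃ X : Set ι, X.Countable ∧ Covered r' Y (fun x : X => z x) := by
  obtain ⟨r', k1, k2, X, k3, k4⟩ := hc I (Option ι) inferInstance
    (fun n o => Option.elim o (bmem (g n) Y)ᶜ (fun x => beq (g n) (z x))) r hr (fun n => by
      refine le_of_dense (fun q hq hqr => ?_)
      by_cases h : q ≤ bmem (g n) Y
      · obtain ⟨x, s, s1, s2, s3⟩ := h3 (g n) q hq hqr (fun V hV => V.mono h hV)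
        exact ⟨s, s1, s2, le_iSup_of_le (some x) (le_of_ultra fun V hV => mk_eq.mp (s3 V hV))⟩
      · obtain ⟨s, s1, s2, s3⟩ := exists_of_not_le h
        exact ⟨s, s1, s2, le_iSup_of_le none s3⟩)
  refine ⟨r', k1, k2, some ⁻¹' X, k3.preimage (Option.some_injective _), fun u q hq hqr hu => ?_⟩
  obtain ⟨n, s, s1, s2, s3⟩ := h1 u q hq (hqr.trans k2) hu
  obtain ⟨⟨o, ho⟩, t, t1, t2, t3⟩ := exists_of_le_iSup s1 ((s2.trans hqr).trans (k4 n))
  cases o with
  | none =>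
    refine (false_of_le_compl t1 (le_of_ultra fun V hV => ?_) t3).elim
    have := hu V (V.mono (t2.trans s2) hV)
    beta_reduce at this
    rwa [s3 V (V.mono t2 hV)] at this
  | some x =>
    exact ⟨⟨x, ho⟩, t, t1, t2.trans s2, fun V hV =>
      (s3 V (V.mono t2 hV)).trans (mk_eq.mpr (V.mono t3 hV))⟩

theorem Cov.not_cardLE (hc : Cov B) {I : Type} [Countable I] {r : B} {Y : Name B}
    {g : I → Name B} (h1 : Covered r Y g) :
    Forces r (fun U => ¬ CardLE (mem U) (mk U (KN B)) (mk U Y)) := by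
  refine (rep_cardLE _ _).not.of_contra (fun q hq hqr h => ?_)
  obtain ⟨x, hx⟩ := cover_of_cardLE (fun U hU => not_not.mp (h U hU)) (h1.mono hqr)
  obtain ⟨r', k1, k2, X, k3, k4⟩ := hc.covered hq hx (covered_mk q (ordN : Om → Name B) _)
  obtain ⟨η, hη⟩ := Om_bdd k3
  obtain ⟨x, s, s1, -, s3⟩ := k4 (ordN η) r' k1 le_rfl (fun V _ => ordN_mem_full V η)
  obtain ⟨V, -, hV⟩ := s3.exists s1
  exact (hη x x.2).ne' (ordN_inj V hV)

theorem Cov.cardLT (hc : Cov B) {I : Type} [Countable I] {r : B} {Y : Name B}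
    {g : I → Name B} (h1 : Covered r Y g) :
    Forces r (fun U => CardLT (mem U) (mk U Y) (mk U (KN B))) := by
  have : #I ≤ #Om := by
    rw [W_card]
    exact Cardinal.mk_le_aleph0.trans (Order.le_succ _)
  obtain ⟨e⟩ := (Cardinal.le_def _ _).mp this
  exact fun U hU => ⟨forces_cardLE (z := fun i => ordN (e i)) h1 (fun i V _ => ordN_mem_full V _)
    (fun _ _ V _ he => e.injective (ordN_inj V he)) U hU, hc.not_cardLE h1 U hU⟩

theorem exists_cover_of_not_cardLE {q : B} (hq : q ≠ ⊥) {Y : Name B}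
    (h : Forces q (fun U => ¬ CardLE (mem U) (mk U (KN B)) (mk U Y))) :
    ∃ j : Om, ∃ r, r ≠ ⊥ ∧ r ≤ q ∧ ∃ g : Iio j → Name B, Covered r Y g := by
  rcases cardLE_or_covered Y (KN B) univ (covered_full q) with h1 | ⟨j, -, h1⟩
  · obtain ⟨V, hV, h2⟩ := h1.exists hq
    exact absurd h2 (h V hV)
  · exact ⟨j, h1⟩

instance (j : Om) : Countable (Iio j) := (Om_Iio j).to_subtype

theorem Cov.s_unb (hc : Cov B) (U : Ultra B) (S : Om → B) :
    U.s (unb S) ↔ CardLE (mem U) (mk U (KN B)) (mk U (subN S)) := by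
  constructor
  · refine Rep.imp_of_contra (Rep.of_s _) (rep_cardLE _ _) (fun q hq h1 h2 => ?_) U
    obtain ⟨j, r, r1, r2, g, hg⟩ := exists_cover_of_not_cardLE hq h2
    obtain ⟨r', k1, k2, X, k3, k4⟩ := hc.covered r1 hg (covered_mk r (ordN : Om → Name B) S)
    obtain ⟨η, hη⟩ := Om_bdd k3
    obtain ⟨ξ, s, s1, s2, s3⟩ := exists_of_le_iSup k1
      (((k2.trans r2).trans h1.le).trans (iInf_le _ η))
    obtain ⟨x, t, t1, -, t3⟩ := k4 (ordN ξ.1) s s1 s2
      (fun V hV => (mem_subN V S ξ.1).mpr (V.mono s3 hV))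
    obtain ⟨V, -, hV⟩ := t3.exists t1
    exact absurd (ordN_inj V hV ▸ ξ.2) (not_le.mpr (hη x x.2))
  · refine Rep.imp_of_contra (rep_cardLE _ _) (Rep.of_s _) (fun q hq h1 h2 => ?_) U
    have h3 : ¬ q ≤ unb S := fun h => by
      obtain ⟨V, hV, h4⟩ := h2.exists hq
      exact h4 (V.mono h hV)
    rw [unb, le_iInf_iff, not_forall] at h3
    obtain ⟨η, h3⟩ := h3
    obtain ⟨r, r1, r2, r3⟩ := exists_of_not_le h3
    have h4 : Covered r (subN S) (fun ξ : Iio η => ordN ξ.1) := by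
      intro u s s1 s2 s3
      obtain ⟨ξ, t, t1, t2, t3, t4⟩ := s3.refine_mem s1
      refine ⟨⟨ξ, ?_⟩, t, t1, t2, t4⟩
      by_contra hn
      exact false_of_le_compl t1 (t3.trans (le_iSup (fun ξ : {ξ : Om // η ≤ ξ} => S ξ.1) ⟨ξ, not_lt.mp hn⟩))
        ((t2.trans s2).trans r3)
    obtain ⟨V, hV, h5⟩ := (hc.not_cardLE h4).exists r1
    exact h5 (h1 V (V.mono r2 hV))

theorem mem_subN_diff (U : Ultra B) (S T : Om → B) (x : Mod U) :
    mem U x (mk U (subN (fun ξ => S ξ ⊓ (T ξ)ᶜ))) ↔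
      mem U x (mk U (subN S)) ∧ ¬ mem U x (mk U (subN T)) := by
  constructor
  · refine of_mem_mk (P := fun V x => mem V x (mk V (subN S)) ∧ ¬ mem V x (mk V (subN T)))
      (fun x => (Rep.mem x _).and (Rep.mem x _).not) ?_ U x
    intro ξ V h
    rwa [mem_subN, mem_subN, ← V.compl_iff, ← V.inf_iff]
  · rintro ⟨h1, h2⟩
    refine of_mem_mk (P := fun V x => ¬ mem V x (mk V (subN T)) →
        mem V x (mk V (subN (fun ξ => S ξ ⊓ (T ξ)ᶜ))))
      (fun x => (Rep.mem x _).not.imp (Rep.mem x _)) ?_ U x h1 h2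
    intro ξ V k1 k2
    rw [mem_subN] at k2 ⊢
    exact V.inf k1 (V.compl_iff.mpr k2)

theorem Cov.s_asub (hc : Cov B) (U : Ultra B) (S T : Om → B) :
    U.s (asub S T) ↔ AlmostSub (mem U) (mk U (KN B)) (mk U (subN S)) (mk U (subN T)) := by
  rw [asub, U.compl_iff, hc.s_unb]
  constructor
  · exact fun h => ⟨_, mem_subN_diff U S T, cardLE_of_sub (subN_sub U _), h⟩
  · rintro ⟨D, h1, h2⟩
    rw [mod_ext U _ D (fun x => (mem_subN_diff U S T x).trans (h1 x).symm)]
    exact h2.2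

theorem rep_sub (A C : Name B) : Rep (fun U => Sub (mem U) (mk U A) (mk U C)) :=
  Rep.all fun x => (Rep.mem x A).imp (Rep.mem x C)

theorem rep_big (k A : Name B) : Rep (fun U => Big (mem U) (mk U k) (mk U A)) :=
  (rep_sub A k).and ((rep_cardLE A k).and (rep_cardLE k A))

theorem rep_almost (k A F : Name B) :
    Rep (fun U => AlmostSub (mem U) (mk U k) (mk U A) (mk U F)) :=
  Rep.ex fun D => (Rep.all fun x => (Rep.mem x D).iff ((Rep.mem x A).and (Rep.mem x F).not)).and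
    (rep_cardLT D k)

theorem rep_inter (k G I : Name B) : Rep (fun U => ∀ x, mem U x (mk U I) ↔
    mem U x (mk U k) ∧ ∀ A, mem U A (mk U G) → mem U x A) :=
  Rep.all fun x => (Rep.mem x I).iff ((Rep.mem x k).and
    (Rep.all fun A => (Rep.mem A G).imp (Rep.mem x A)))

theorem rep_pfam (k F : Name B) : Rep (fun U => PFam (mem U) (mk U k) (mk U F)) :=
  (Rep.all fun A => (Rep.mem A F).imp (rep_big k A)).and
    ((Rep.all fun G => (rep_sub G F).imp ((rep_cardLT G k).imp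
      (Rep.ex fun I => (rep_inter k G I).and (rep_big k I)))).and
    (Rep.ex fun Y => (rep_big k Y).and
      (Rep.all fun A => (Rep.mem A F).imp (rep_almost k Y A))).not)

theorem rep_tower (k T : Name B) : Rep (fun U => IsTower (mem U) (mk U k) (mk U T)) :=
  (rep_pfam k T).and (Rep.ex fun d => Rep.ex fun f =>
    ((Rep.all fun x => Rep.all fun y => (Rep.mem x d).imp ((Rep.mem y x).imp (Rep.mem y d))).and
      (Rep.all fun x => Rep.all fun y => (Rep.mem x d).imp ((Rep.mem y d).imp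
        ((Rep.mem x y).or ((Rep.eq x y).or (Rep.mem y x)))))).and
    (((Rep.all fun p => (Rep.mem p f).imp (Rep.ex fun a => Rep.ex fun b =>
        (Rep.mem a d).and ((Rep.mem b T).and (rep_opair p a b)))).and
      ((Rep.all fun a => (Rep.mem a d).imp (Rep.ex fun b => rep_rel f a b)).and
      ((Rep.all fun a => Rep.all fun b => Rep.all fun b' =>
        (rep_rel f a b).imp ((rep_rel f a b').imp (Rep.eq b b'))).and
      (Rep.all fun b => (Rep.mem b T).imp (Rep.ex fun a => rep_rel f a b))))).and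
    (Rep.all fun a => Rep.all fun b => Rep.all fun A => Rep.all fun C => (Rep.mem a b).imp
      ((Rep.mem b d).imp ((rep_rel f a A).imp ((rep_rel f b C).imp (rep_almost k C A)))))))

theorem Cov.isRegUnc (hc : Cov B) (U : Ultra B) : IsRegUnc (mem U) (mk U (KN B)) := by
  refine ⟨isOrd_full U, ?_, ?_, ?_⟩
  · refine of_mem_mk (P := fun V a => ¬ CardLE (mem V) (mk V (KN B)) a)
      (fun a => (rep_cardLE _ a).not) ?_ U
    intro ξ V _
    exact hc.not_cardLE (covered_ordN ⊤ ξ) V V.top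
  · intro h
    obtain ⟨q, q1, -, q3⟩ := (rep_countable (KN B)).localize h U.top
    obtain ⟨y, hy⟩ := exists_cover_of_countable q3
    obtain ⟨V, -, hV⟩ := (hc.not_cardLE hy).exists q1
    exact hV (cardLE_refl V _)
  · intro A h1 h2
    obtain ⟨A, rfl⟩ := mk_surj A
    refine Rep.imp_of_dense (P := fun V => Sub (mem V) (mk V A) (mk V (KN B)) ∧
        ¬ CardLE (mem V) (mk V (KN B)) (mk V A))
      (Q := fun V => ∃ b, mem V b (mk V (KN B)) ∧ Sub (mem V) (mk V A) b)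
      ((rep_sub _ _).and (rep_cardLE _ _).not) (Rep.ex fun b => (Rep.mem b _).and (rep_sub A b))
      ?_ U ⟨h1, h2.2⟩
    intro q hq hF
    obtain ⟨j, r, r1, r2, g, hg⟩ := exists_cover_of_not_cardLE hq (fun V hV => (hF V hV).2)
    obtain ⟨r', k1, k2, X, k3, k4⟩ := hc.covered r1 hg
      ((covered_mk r (ordN : Om → Name B) _).subset (fun V hV => (hF V (V.mono r2 hV)).1))
    obtain ⟨η, hη⟩ := Om_bdd k3
    refine ⟨r', k1, k2.trans r2, fun V hV => ⟨_, ordN_mem_full V η, fun u hu => ?_⟩⟩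
    obtain ⟨u, rfl⟩ := mk_surj u
    refine Rep.imp_of_dense (P := fun V => V.s r' ∧ mem V (mk V u) (mk V A))
      ((Rep.of_s _).and (Rep.mem u A)) (Rep.mem u (ordN η)) ?_ V ⟨hV, hu⟩
    intro s s1 s2
    obtain ⟨x, t, t1, t2, t3⟩ := k4 u s s1 (le_of_ultra fun V hV => (s2 V hV).1)
      (fun V hV => (s2 V hV).2)
    exact ⟨t, t1, t2, fun V hV => by
      beta_reduce
      rw [t3 V hV]
      exact ordN_mem V (hη x x.2)⟩

theorem exists_inter (G : Name B) : ∃ I : Name B, ∀ U x, mem U x (mk U I) ↔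
    mem U x (mk U (KN B)) ∧ ∀ A, mem U A (mk U G) → mem U x A :=
  exists_sep (KN B) (P := fun U x => ∀ A, mem U A (mk U G) → mem U x A)
    (fun x => Rep.all fun A => (Rep.mem A G).imp (Rep.mem x A))

theorem unb_mono {S T : Om → B} (h : ∀ ξ, S ξ ≤ T ξ) : unb S ≤ unb T :=
  iInf_mono fun _ => iSup_mono fun ξ => h ξ.1

/-- The name of a family of subsets of `ω₁`. -/
noncomputable def famN {ι : Type} (F : ι → Om → B) : Name B :=
  Name.mk ι (fun β => subN (F β)) (fun _ => ⊤)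

theorem mem_famN (U : Ultra B) {ι : Type} (F : ι → Om → B) (β : ι) :
    mem U (mk U (subN (F β))) (mk U (famN F)) := mem_mk_of (A := fun β => subN (F β)) β U.top

theorem Cov.pfam (hc : Cov B) {ι : Type} [Nonempty ι] {F : ι → Om → B} (hF : Fam F)
    (U : Ultra B) : PFam (mem U) (mk U (KN B)) (mk U (famN F)) := by
  refine ⟨?_, ?_, ?_⟩
  · refine of_mem_mk (P := fun V A => Big (mem V) (mk V (KN B)) A) (fun A => rep_big _ A) ?_ U
    intro β V _
    refine ⟨subN_sub V _, cardLE_of_sub (subN_sub V _), (hc.s_unb V _).mp ?_⟩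
    have := hF.1 (fun _ => β)
    simp only [iInf_const] at this
    rw [show unb (F β) = ⊤ from this]
    exact V.top
  · intro G h1 h2
    obtain ⟨G, rfl⟩ := mk_surj G
    obtain ⟨I, hI⟩ := exists_inter G
    have hIK : Sub (mem U) (mk U I) (mk U (KN B)) := fun x hx => ((hI U x).mp hx).1
    refine ⟨mk U I, hI U, hIK, cardLE_of_sub hIK, ?_⟩
    refine Rep.imp_of_dense (P := fun V => Sub (mem V) (mk V G) (mk V (famN F)) ∧
        ¬ CardLE (mem V) (mk V (KN B)) (mk V G))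
      ((rep_sub _ _).and (rep_cardLE _ _).not) (rep_cardLE (KN B) I) ?_ U ⟨h1, h2.2⟩
    intro q hq hq'
    obtain ⟨j, r, r1, r2, g, hg⟩ := exists_cover_of_not_cardLE hq (fun V hV => (hq' V hV).2)
    obtain ⟨r', k1, k2, X, k3, k4⟩ := hc.covered r1 hg
      ((covered_mk r (fun β => subN (F β)) _).subset (fun V hV => (hq' V (V.mono r2 hV)).1))
    obtain ⟨b, hb⟩ := (k3.insert (Classical.arbitrary ι)).exists_eq_range (insert_nonempty _ _)
    refine ⟨r', k1, k2.trans r2, fun V hV => ?_⟩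
    refine cardLE_mono_right ((hc.s_unb V _).mp (by rw [hF.1 b]; exact V.top)) (fun x hx => ?_)
    refine of_mem_mk (P := fun V x => V.s r' → mem V x (mk V I))
      (fun x => (Rep.of_s _).imp (Rep.mem x I)) ?_ V x hx hV
    intro ξ V' g1 g2
    refine (hI V' _).mpr ⟨ordN_mem_full V' ξ, fun A hA => ?_⟩
    obtain ⟨A, rfl⟩ := mk_surj A
    refine Rep.imp_of_dense (P := fun V => V.s r' ∧ V.s (⨅ n, F (b n) ξ) ∧ mem V (mk V A) (mk V G))
      ((Rep.of_s _).and ((Rep.of_s _).and (Rep.mem A G))) (Rep.mem (ordN ξ) A) ?_ V' ⟨g2, g1, hA⟩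
    intro s s1 s2
    obtain ⟨x, t, t1, t2, t3⟩ := k4 A s s1 (le_of_ultra fun V hV => (s2 V hV).1)
      (fun V hV => (s2 V hV).2.2)
    obtain ⟨n, hn⟩ : x.1 ∈ range b := by rw [← hb]; exact Or.inr x.2
    refine ⟨t, t1, t2, fun V hV => ?_⟩
    beta_reduce
    rw [t3 V hV, mem_subN, ← hn]
    exact V.mono (iInf_le _ n) (s2 V (V.mono t2 hV)).2.1
  · rintro ⟨Y, h1, h2⟩
    obtain ⟨Y, rfl⟩ := mk_surj Y
    obtain ⟨q, q1, -, q3⟩ := ((rep_big (KN B) Y).and (Rep.all
      (P := fun V A => mem V A (mk V (famN F)) → AlmostSub (mem V) (mk V (KN B)) (mk V Y) A)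
      fun A => (Rep.mem A _).imp (rep_almost _ Y A))).localize ⟨h1, h2⟩ U.top
    apply q1
    rw [← le_bot_iff, ← hF.2 (fun ξ => bmem (ordN ξ) Y)]
    refine le_inf (le_of_ultra fun V hV => ?_) (le_iInf fun β => le_of_ultra fun V hV => ?_)
    · rw [hc.s_unb, ← eq_subN V Y (q3 V hV).1.1]
      exact (q3 V hV).1.2.2
    · rw [hc.s_asub, ← eq_subN V Y (q3 V hV).1.1]
      exact (q3 V hV).2 _ (mem_famN V F β)

theorem Cov.almost_of_sub (hc : Cov B) {U : Ultra B} {A C : Mod U} (h : Sub (mem U) A C) :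
    AlmostSub (mem U) (mk U (KN B)) A C :=
  ⟨mk U (natN 0), fun x => iff_of_false (not_mem_zero U x) (fun h' => h'.2 (h x h'.1)),
    hc.cardLT (covered_mk ⊤ (Empty.elim : Empty → Name B) Empty.elim) U U.top⟩

theorem Cov.isTower (hc : Cov B) {T : Type} [LinearOrder T] [WellFoundedLT T] [Nonempty T]
    {F : T → Om → B} (hF : Fam F) (hdec : ∀ α β, α < β → asub (F β) (F α) = ⊤) (U : Ultra B) :
    IsTower (mem U) (mk U (KN B)) (mk U (famN F)) := by
  let f : Name B := Name.mk T (fun α => opair (ordN α) (subN (F α))) (fun _ => ⊤)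
  have hf : ∀ (V : Ultra B) α, Rel (mem V) (mk V f) (mk V (ordN α)) (mk V (subN (F α))) :=
    fun V α => rel_mk_of (y := ordN) (z := fun α => subN (F α)) α V.top
  refine ⟨hc.pfam hF U, mk U (fullN B T), mk U f, isOrd_full U, ⟨?_, ?_, ?_, ?_⟩, ?_⟩
  · refine of_mem_mk (P := fun V p => ∃ a b, mem V a (mk V (fullN B T)) ∧
      mem V b (mk V (famN F)) ∧ IsOPair (mem V) p a b) (fun p => Rep.ex fun a => Rep.ex fun b =>
        (Rep.mem a _).and ((Rep.mem b _).and (rep_opair p a b))) ?_ U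
    exact fun α V _ => ⟨_, _, ordN_mem_full V α, mem_famN V F α, isOPair_opair V _ _⟩
  · exact of_mem_mk (P := fun V a => ∃ b, Rel (mem V) (mk V f) a b)
      (fun a => Rep.ex fun b => rep_rel f a b) (fun α V _ => ⟨_, hf V α⟩) U
  · intro a b b' h1 h2
    obtain ⟨b', rfl⟩ := mk_surj b'
    refine of_rel_mk (P := fun V a b => Rel (mem V) (mk V f) a (mk V b') → b = mk V b')
      (fun a b => (rep_rel f a b').imp (Rep.eq b b')) ?_ U a b h1 h2
    intro i V _ g2
    refine of_rel_mk (P := fun V a c => mk V (ordN i) = a → mk V (subN (F i)) = c)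
      (fun a c => (Rep.eq _ a).imp (Rep.eq _ c)) ?_ V _ _ g2 rfl
    intro j V' _ k
    rw [ordN_inj V' k]
  · exact of_mem_mk (P := fun V b => ∃ a, Rel (mem V) (mk V f) a b)
      (fun b => Rep.ex fun a => rep_rel f a b) (fun α V _ => ⟨_, hf V α⟩) U
  · intro a b A C h1 _ h3 h4
    obtain ⟨b, rfl⟩ := mk_surj b
    obtain ⟨C, rfl⟩ := mk_surj C
    refine of_rel_mk (P := fun V a A => mem V a (mk V b) → Rel (mem V) (mk V f) (mk V b) (mk V C) →
        AlmostSub (mem V) (mk V (KN B)) (mk V C) A)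
      (fun a A => (Rep.mem a b).imp ((rep_rel f b C).imp (rep_almost _ C A))) ?_ U a A h3 h1 h4
    intro i V _ g1 g2
    refine of_rel_mk (P := fun V b C => mem V (mk V (ordN i)) b →
        AlmostSub (mem V) (mk V (KN B)) C (mk V (subN (F i))))
      (fun b C => (Rep.mem _ b).imp (rep_almost _ C _)) ?_ V _ _ g2 g1
    intro j V' _ k
    rw [← hc.s_asub, hdec i j (lt_of_ordN_mem V' k)]
    exact V'.top

theorem Cov.tower_chain (hc : Cov B) {U : Ultra B} {T A C : Mod U}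
    (h : IsTower (mem U) (mk U (KN B)) T) (hA : mem U A T) (hC : mem U C T) :
    AlmostSub (mem U) (mk U (KN B)) A C ∨ AlmostSub (mem U) (mk U (KN B)) C A := by
  obtain ⟨-, d, f, h1, h2, h3⟩ := h
  obtain ⟨a, ha⟩ := h2.2.2.2 A hA
  obtain ⟨c, hc'⟩ := h2.2.2.2 C hC
  have hd : ∀ a A, Rel (mem U) f a A → mem U a d := by
    rintro a A ⟨p, p1, p2⟩
    obtain ⟨a', b', g1, -, g3⟩ := h2.1 p p1
    rwa [(IsOPair.inj (mod_pair U) p2 g3).1]
  rcases h1.2 a c (hd _ _ ha) (hd _ _ hc') with h | h | h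
  · exact Or.inr (h3 a c A C h (hd _ _ hc') ha hc')
  · subst h
    rw [h2.2.2.1 _ _ _ ha hc']
    exact Or.inl (hc.almost_of_sub fun _ hx => hx)
  · exact Or.inl (h3 c a C A h (hd _ _ ha) hc' ha)

theorem Cov.not_covered (hc : Cov B) {ι : Type} (hch : Chains B ι) {q : B} (hq : q ≠ ⊥)
    {T : Name B} (hT : Forces q (fun U => IsTower (mem U) (mk U (KN B)) (mk U T)))
    {u : ι → Name B} (hu : Covered q T u) : False := by
  let S : ι → Om → B := fun β ξ => bmem (u β) T ⇨ bmem (ordN ξ) (u β)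
  have h1 : ∀ β (V : Ultra B), V.s q → mem V (mk V (u β)) (mk V T) →
      mk V (subN (S β)) = mk V (u β) := by
    intro β V hV h
    rw [eq_subN V (u β) ((hT V hV).1.1 _ h).1]
    refine mod_ext V _ _ (fun x => ⟨fun hx => ?_, fun hx => ?_⟩)
    · refine of_mem_mk (P := fun V x => mem V (mk V (u β)) (mk V T) →
          mem V x (mk V (subN fun ξ : Om => bmem (ordN ξ) (u β))))
        (fun x => (Rep.mem _ _).imp (Rep.mem x _)) ?_ V x hx h
      exact fun ξ V' g1 g2 => (mem_subN V' _ ξ).mpr (V'.himp_iff.mp g1 g2)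
    · refine of_mem_mk (P := fun V x => mem V x (mk V (subN (S β)))) (fun x => Rep.mem x _) ?_ V x hx
      exact fun ξ V' g1 => (mem_subN V' _ ξ).mpr (V'.himp_iff.mpr fun _ => g1)
  have h2 : ∀ β (V : Ultra B), ¬ mem V (mk V (u β)) (mk V T) →
      Sub (mem V) (mk V (KN B)) (mk V (subN (S β))) := by
    intro β V h x hx
    refine of_mem_mk (P := fun V x => ¬ mem V (mk V (u β)) (mk V T) → mem V x (mk V (subN (S β))))
      (fun x => (Rep.mem _ _).not.imp (Rep.mem x _)) ?_ V x hx h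
    exact fun ξ V' _ g2 => (mem_subN V' _ ξ).mpr (V'.himp_iff.mpr fun g => absurd g g2)
  obtain ⟨Y, hY⟩ := hch S q hq (fun β β' => le_of_ultra fun V hV => by
      rw [V.sup_iff, hc.s_asub, hc.s_asub]
      by_cases g1 : mem V (mk V (u β)) (mk V T)
      · by_cases g2 : mem V (mk V (u β')) (mk V T)
        · rw [h1 β V hV g1, h1 β' V hV g2]
          exact hc.tower_chain (hT V hV) g1 g2
        · exact Or.inl (hc.almost_of_sub fun x hx => h2 β' V g2 x (subN_sub V _ x hx))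
      · exact Or.inr (hc.almost_of_sub fun x hx => h2 β V g1 x (subN_sub V _ x hx)))
    (fun b => le_of_ultra fun V hV => by
      let G : Name B := Name.mk ℕ (fun n => u (b n)) (fun n => bmem (u (b n)) T)
      obtain ⟨I, i1, i2⟩ := (hT V hV).1.2.1 (mk V G)
        (of_mem_mk (P := fun V x => mem V x (mk V T)) (fun x => Rep.mem x T) (fun _ _ h => h) V)
        (hc.cardLT (covered_mk ⊤ _ _) V V.top)
      obtain ⟨I', hI⟩ := exists_inter G
      rw [mod_ext V I (mk V I') (fun x => by rw [i1, hI])] at i2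
      rw [hc.s_unb]
      refine cardLE_mono_right i2.2.2 (fun x hx => ?_)
      refine of_mem_mk (P := fun V x => mem V x (mk V I') →
          mem V x (mk V (subN fun ξ => ⨅ n, S (b n) ξ)))
        (fun x => (Rep.mem x _).imp (Rep.mem x _)) ?_ V x ((hI V x).mp hx).1 hx
      intro ξ V' _ g
      rw [mem_subN]
      refine V'.mono (a := bmem (ordN ξ) I') (le_iInf fun n => le_of_ultra fun V'' g' => ?_) g
      exact V''.himp_iff.mpr fun g'' => ((hI V'' (mk V'' (ordN ξ))).mp g').2 _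
        (mem_mk_of (A := fun n => u (b n)) n g''))
  obtain ⟨V, hV⟩ := exists_ultra hY
  have hVq := V.mono inf_le_left hV
  refine (hT V hVq).1.2.2 ⟨mk V (subN Y), ⟨subN_sub V _, cardLE_of_sub (subN_sub V _),
    (hc.s_unb V _).mp (V.mono (inf_le_right.trans inf_le_left) hV)⟩, fun A hA => ?_⟩
  obtain ⟨A, rfl⟩ := mk_surj A
  refine Rep.imp_of_dense
    (P := fun V => V.s (q ⊓ (unb Y ⊓ ⨅ β, asub Y (S β))) ∧ mem V (mk V A) (mk V T))
    ((Rep.of_s _).and (Rep.mem A T)) (rep_almost (KN B) (subN Y) A) ?_ V ⟨hV, hA⟩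
  intro s s1 s2
  have s3 : s ≤ q ⊓ (unb Y ⊓ ⨅ β, asub Y (S β)) := le_of_ultra fun V hV => (s2 V hV).1
  obtain ⟨β, t, t1, t2, t3⟩ := hu A s s1 (s3.trans inf_le_left) (fun V hV => (s2 V hV).2)
  refine ⟨t, t1, t2, fun V hV => ?_⟩
  have g1 := (s2 V (V.mono t2 hV)).2
  beta_reduce
  rw [t3 V hV] at g1 ⊢
  rw [← h1 β V (V.mono ((t2.trans s3).trans inf_le_left) hV) g1, ← hc.s_asub]
  exact V.mono (((t2.trans s3).trans (inf_le_right.trans inf_le_right)).trans (iInf_le _ β)) hV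

theorem model_of (hB : (⊤ : B) ≠ ⊥) (hc : Cov B) {ι T : Type} [Nonempty ι] [LinearOrder T]
    [WellFoundedLT T] [Nonempty T] {F : ι → Om → B} (hF : Fam F) {G : T → Om → B} (hG : Fam G)
    (hdec : ∀ α β, α < β → asub (G β) (G α) = ⊤) (hch : Chains B ι) :
    ∃ (M : Type 1) (E : M → M → Prop), IsZFC E ∧ ∃ k p t : M, IsRegUnc E k ∧
      IsLeastCard E (PFam E k) p ∧ IsLeastCard E (IsTower E k) t ∧ CardLT E p t := by
  obtain ⟨U, -⟩ := exists_ultra hB
  obtain ⟨p, p1, p2⟩ := exists_least_card (Q := fun V x => PFam (mem V) (mk V (KN B)) x)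
    (rep_pfam _) U ⟨_, hc.pfam hF U⟩
  obtain ⟨t, t1, t2⟩ := exists_least_card (Q := fun V x => IsTower (mem V) (mk V (KN B)) x)
    (rep_tower _) U ⟨_, hc.isTower hG hdec U⟩
  refine ⟨Mod U, mem U, mod_isZFC U, mk U (KN B), p, t, hc.isRegUnc U,
    ⟨⟨p, p1, cardLE_refl U p, cardLE_refl U p⟩, p2⟩, ⟨⟨t, t1, cardLE_refl U t, cardLE_refl U t⟩, t2⟩,
    p2 t t1.1, fun h => ?_⟩
  obtain ⟨t, rfl⟩ := mk_surj t
  obtain ⟨q, q1, -, q3⟩ := ((rep_tower (KN B) t).and (rep_cardLE t (famN F))).localize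
    ⟨t1, cardLE_trans h (p2 _ (hc.pfam hF U))⟩ U.top
  obtain ⟨u, hu⟩ := cover_of_cardLE (fun V hV => (q3 V hV).2) (covered_mk q _ _)
  exact hc.not_covered hch q1 (fun V hV => (q3 V hV).1) hu

end Pool.Agent.P.MP_b10269_lc.H21
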