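import Mathlib
import Pool.Agent.P.MP_b10269_lc.H21.AA

/-! The sigma-closed forcing: a self-indexing system of Mathias type forcings on `ω₁`. -/

namespace Pool.Agent.P.MP_b10269_lc.H21

open Cardinal Set Sum

/-- Labels: a value of the generic set, or a promise. -/
abbrev Lab (L : Type) : Type := (Om × Bool) ⊕ (ℕ → L)

/-- Index type of the children of a coordinate. -/
abbrev Ix (L : Type) : Type := (ℕ → L) × Om × Set ℕ × ℕ

/-- Coordinates: each codes a family of names over earlier coordinates. -/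
inductive Co (L Bs : Type) : Type
  | base : Bs → Co L Bs
  | node : (Ix L → Co L Bs) → (Ix L → Option (Lab L)) → ((ℕ → L) → Om → Set ℕ → Prop) → Co L Bs

variable {L Bs : Type}

/-- A raw condition coded in a coordinate. -/
def cnd (f : Ix L → Co L Bs) (lab : Ix L → Option (Lab L)) (j : ℕ → L) (ξ : Om) (c : Set ℕ) :
    Set (Co L Bs × Lab L) := {e | ∃ n, e.1 = f (j, ξ, c, n) ∧ lab (j, ξ, c, n) = some e.2}

/-- `k` contains a witness that `ξ` is in the set number `j` named at the coordinate. -/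
def ok (k : Set (Co L Bs × Lab L)) : Co L Bs → (ℕ → L) → Om → Prop
  | .base _, _, _ => True
  | .node f lab on, j, ξ => ∃ c, on j ξ c ∧ cnd f lab j ξ c ⊆ k ∧ ∀ n j' ξ',
      lab (j, ξ, c, n) = some (inr j') → (f (j, ξ, c, n), inl (ξ', true)) ∈ k →
      (f (j, ξ, c, n), inl (ξ', true)) ∉ cnd f lab j ξ c → ok k (f (j, ξ, c, n)) j' ξ'

/-- The order on raw conditions. -/
def Le (k r : Set (Co L Bs × Lab L)) : Prop :=
  r ⊆ k ∧ ∀ i j ξ, (i, inr j) ∈ r → (i, inl (ξ, true)) ∈ k → (i, inl (ξ, true)) ∉ r → ok k i j ξ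

theorem ok_node {k : Set (Co L Bs × Lab L)} {f lab on j ξ} :
    ok k (.node f lab on) j ξ ↔ ∃ c, on j ξ c ∧ Le k (cnd f lab j ξ c) := by
  refine exists_congr fun c => and_congr_right fun _ => and_congr_right fun _ => ⟨?_, ?_⟩
  · rintro h i j' ξ' ⟨n, h1, h2⟩
    obtain rfl : i = f (j, ξ, c, n) := h1
    exact h n j' ξ' h2
  · intro h n j' ξ' h1
    exact h _ j' ξ' ⟨n, rfl, h1⟩

/-- The rank of a coordinate. -/
noncomputable def rank : Co L Bs → Ordinal.{0}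
  | .base _ => 0
  | .node f _ _ => ⨆ p, rank (f p) + 1

theorem rank_lt (f : Ix L → Co L Bs) (lab on p) : rank (f p) < rank (.node f lab on) :=
  Ordinal.lt_iSup_add_one (fun p => rank (f p)) p

theorem ok_mono {k k' : Set (Co L Bs × Lab L)} (h : Le k' k) (i : Co L Bs) :
    ∀ j ξ, ok k i j ξ → ok k' i j ξ := by
  induction i with
  | base => exact fun _ _ _ => trivial
  | node f lab on ih =>
    rintro j ξ ⟨c, h1, h2, h3⟩
    refine ⟨c, h1, h2.trans h.1, fun n j' ξ' k1 k2 k3 => ?_⟩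
    by_cases k4 : (f (j, ξ, c, n), inl (ξ', true)) ∈ k
    · exact ih _ _ _ (h3 n j' ξ' k1 k4 k3)
    · exact h.2 _ _ _ (h2 ⟨n, rfl, k1⟩) k2 k4

theorem Le.trans {k k' r : Set (Co L Bs × Lab L)} (h : Le k' k) (h' : Le k r) : Le k' r := by
  refine ⟨h'.1.trans h.1, fun i j ξ k1 k2 k3 => ?_⟩
  by_cases k4 : (i, inl (ξ, true)) ∈ k
  · exact ok_mono h _ _ _ (h'.2 _ _ _ k1 k4 k3)
  · exact h.2 _ _ _ (h'.1 k1) k2 k4

theorem Le.refl (k : Set (Co L Bs × Lab L)) : Le k k :=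
  ⟨Subset.rfl, fun _ _ _ _ h h' => absurd h h'⟩

theorem ok_local {k k' : Set (Co L Bs × Lab L)} {ρ : Ordinal.{0}}
    (h : ∀ e : Co L Bs × Lab L, rank e.1 < ρ → (e ∈ k ↔ e ∈ k')) (i : Co L Bs) :
    rank i ≤ ρ → ∀ j ξ, ok k i j ξ → ok k' i j ξ := by
  induction i with
  | base => exact fun _ _ _ _ => trivial
  | node f lab on ih =>
    rintro hi j ξ ⟨c, h1, h2, h3⟩
    have h4 : ∀ p, rank (f p) < ρ := fun p => (rank_lt f lab on p).trans_le hi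
    refine ⟨c, h1, fun e he => (h e ?_).mp (h2 he), fun n j' ξ' k1 k2 k3 =>
      ih _ (h4 _).le _ _ (h3 n j' ξ' k1 ((h _ (h4 _)).mpr k2) k3)⟩
    obtain ⟨n, e1, -⟩ := he
    rw [e1]
    exact h4 _

theorem Le.local {k k' w : Set (Co L Bs × Lab L)} {ρ : Ordinal.{0}}
    (h : ∀ e : Co L Bs × Lab L, rank e.1 < ρ → (e ∈ k ↔ e ∈ k')) (hw : ∀ e ∈ w, rank e.1 < ρ)
    (h1 : Le k w) : Le k' w :=
  ⟨fun e he => (h e (hw e he)).mp (h1.1 he), fun i j ξ k1 k2 k3 =>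
    ok_local h i (hw _ k1).le j ξ (h1.2 i j ξ k1 ((h (i, inl (ξ, true)) (hw (i, inr j) k1)).mpr k2) k3)⟩

theorem ok_sUnion {c : Set (Set (Co L Bs × Lab L))}
    (hc : ∀ k ∈ c, ∀ k' ∈ c, Le k k' ∨ Le k' k) (i : Co L Bs) :
    ∀ k ∈ c, ∀ j ξ, ok k i j ξ → ok (⋃₀ c) i j ξ := by
  induction i with
  | base => exact fun _ _ _ _ _ => trivial
  | node f lab on ih =>
    intro k hk j ξ h
    obtain ⟨d, h1, h2⟩ := ok_node.mp h
    refine ⟨d, h1, h2.1.trans (subset_sUnion_of_mem hk), fun n j' ξ' k1 k2 k3 => ?_⟩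
    obtain ⟨k', k4, k5⟩ := k2
    rcases hc k hk k' k4 with g | g
    · exact ih _ k hk _ _ (h2.2 _ _ _ ⟨n, rfl, k1⟩ (g.1 k5) k3)
    · exact ih _ k' k4 _ _ ((g.trans h2).2 _ _ _ ⟨n, rfl, k1⟩ k5 k3)

/-- Conditions. -/
structure Ma (L Bs : Type) where
  s : Set (Co L Bs × Lab L)
  cnt : s.Countable
  fn : ∀ i ξ v, (i, inl (ξ, v)) ∈ s → (i, inl (ξ, !v)) ∉ s

namespace Ma

instance : Preorder (Ma L Bs) where
  le k k' := Le k.s k'.s
  le_refl k := Le.refl k.s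
  le_trans _ _ _ h1 h2 := Le.trans h1 h2

/-- The trivial condition. -/
def top : Ma L Bs := ⟨∅, countable_empty, fun _ _ _ h => h.elim⟩

theorem le_top (k : Ma L Bs) : k ≤ top := ⟨empty_subset _, fun _ _ _ h => h.elim⟩

theorem closed : Closed (Ma L Bs) ℵ₀ := by
  intro c h1 _ h3
  have tot : ∀ k ∈ c, ∀ k' ∈ c, k ≤ k' ∨ k' ≤ k := fun k hk k' hk' => h1.total hk hk'
  have hc : ∀ k ∈ Ma.s '' c, ∀ k' ∈ Ma.s '' c, Le k k' ∨ Le k' k := by
    rintro _ ⟨k, hk, rfl⟩ _ ⟨k', hk', rfl⟩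
    exact tot k hk k' hk'
  refine ⟨⟨⋃₀ (Ma.s '' c), ?_, ?_⟩, fun k hk => ⟨subset_sUnion_of_mem ⟨k, hk, rfl⟩, ?_⟩⟩
  · refine ((Cardinal.le_aleph0_iff_set_countable.mp h3).image _).sUnion ?_
    rintro _ ⟨k, -, rfl⟩
    exact k.cnt
  · rintro i ξ v ⟨_, ⟨k, hk, rfl⟩, g1⟩ ⟨_, ⟨k', hk', rfl⟩, g2⟩
    rcases tot k hk k' hk' with g | g
    exacts [k.fn _ _ _ g1 (g.1 g2), k'.fn _ _ _ (g.1 g1) g2]
  · rintro i j ξ k1 ⟨_, ⟨k', hk', rfl⟩, k2⟩ k3
    rcases tot k hk k' hk' with g | g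
    · exact absurd (g.1 k2) k3
    · exact ok_sUnion hc i _ ⟨k', hk', rfl⟩ _ _ (g.2 _ _ _ k1 k2 k3)

theorem exists_fresh (k : Ma L Bs) : ∃ η, ∀ i ξ v, (i, inl (ξ, v)) ∈ k.s → ξ < η := by
  obtain ⟨η, h⟩ := Om_bdd (k.cnt.image
    (fun e => Sum.elim Prod.fst (fun _ => Classical.arbitrary Om) e.2))
  exact ⟨η, fun i ξ v hk => h _ ⟨_, hk, rfl⟩⟩

theorem exists_promise (k : Ma L Bs) (i : Co L Bs) (j : ℕ → L) :
    ∃ k' ≤ k, (i, inr j) ∈ k'.s := by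
  refine ⟨⟨insert (i, inr j) k.s, k.cnt.insert _, ?_⟩, ⟨subset_insert _ _, ?_⟩, mem_insert _ _⟩
  · rintro i ξ v (h1 | h1) (h2 | h2)
    · cases h1
    · cases h1
    · cases h2
    · exact k.fn _ _ _ h1 h2
  · rintro i j ξ - (h1 | h1) h2
    · cases h1
    · exact absurd h1 h2

theorem amalg {k k' : Ma L Bs} (h : k' ≤ k) (i : Co L Bs) (ξ : Om) (v : Bool)
    (h1 : (i, inl (ξ, !v)) ∉ k.s) (h2 : v = true → ∀ j, (i, inr j) ∈ k.s → ok k'.s i j ξ) :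
    ∃ m ≤ k, (i, inl (ξ, v)) ∈ m.s ∧
      ∀ e : Co L Bs × Lab L, rank e.1 < rank i → (e ∈ k'.s ↔ e ∈ m.s) := by
  let u : Set (Co L Bs × Lab L) := k.s ∪ {e ∈ k'.s | rank e.1 < rank i}
  have hu : u ⊆ k'.s := union_subset h.1 (fun _ he => he.1)
  have h3 : (i, inl (ξ, !v)) ∉ u := by
    rintro (g | g)
    exacts [h1 g, lt_irrefl _ g.2]
  have h4 : ∀ e : Co L Bs × Lab L, rank e.1 < rank i →
      (e ∈ k'.s ↔ e ∈ insert (i, inl (ξ, v)) u) := by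
    intro e he
    refine ⟨fun g => Or.inr (Or.inr ⟨g, he⟩), ?_⟩
    rintro (rfl | g)
    exacts [absurd he (lt_irrefl _), hu g]
  refine ⟨⟨insert (i, inl (ξ, v)) u, (k'.cnt.mono hu).insert _, ?_⟩,
    ⟨fun _ he => Or.inr (Or.inl he), ?_⟩, mem_insert _ _, h4⟩
  · rintro i' ξ' v' (g1 | g1) (g2 | g2)
    · cases g1; cases v <;> simp at g2
    · cases g1; exact h3 g2
    · cases g2; exact h3 (by simpa using g1)
    · exact k'.fn _ _ _ (hu g1) (hu g2)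
  · rintro i' j ξ' g1 (g2 | g2 | g2) g3
    · cases g2
      exact ok_local h4 _ le_rfl _ _ (h2 rfl j g1)
    · exact absurd g2 g3
    · exact ok_local h4 _ g2.2.le _ _ (h.2 _ _ _ g1 g2.1 g3)

theorem exists_decide (k : Ma L Bs) (i : Co L Bs) (ξ : Om) :
    ∃ m ≤ k, ∃ v, (i, inl (ξ, v)) ∈ m.s := by
  by_cases h : (i, inl (ξ, true)) ∈ k.s
  · exact ⟨k, le_rfl, true, h⟩
  · obtain ⟨m, m1, m2, -⟩ := amalg (le_refl k) i ξ false h (fun h => by cases h)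
    exact ⟨m, m1, false, m2⟩

/-- Every small system of names is coded by a coordinate. -/
theorem exists_coord (Bs0 : Bs) (D : (ℕ → L) → Om → Set (Ma L Bs)) (hD : ∀ j ξ, #(D j ξ) ≤ 𝔠) :
    ∃ i : Co L Bs, ∀ (k : Ma L Bs) j ξ, ok k.s i j ξ ↔ ∃ w ∈ D j ξ, k ≤ w := by
  classical
  have h1 : ∀ w : Ma L Bs, ∃ g : ℕ → Option (Co L Bs × Lab L), ∀ e, e ∈ w.s ↔ ∃ n, g n = some e := by
    intro w
    obtain ⟨g, hg⟩ := ((w.cnt.image some).insert none).exists_eq_range (insert_nonempty _ _)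
    refine ⟨g, fun e => ?_⟩
    rw [← mem_range, ← hg]
    simp
  choose g hg using h1
  have h2 : ∀ j ξ, ∃ d : Set ℕ → Ma L Bs, D j ξ ⊆ range d := by
    intro j ξ
    have : #(D j ξ) ≤ #(Set ℕ) := by simpa using hD j ξ
    obtain ⟨e⟩ := (Cardinal.le_def _ _).mp this
    refine ⟨Function.extend e Subtype.val (fun _ => top), fun w hw => ⟨e ⟨w, hw⟩, ?_⟩⟩
    exact e.injective.extend_apply _ _ _
  choose d hd using h2
  let f : Ix L → Co L Bs := fun p => (g (d p.1 p.2.1 p.2.2.1) p.2.2.2).elim (.base Bs0) Prod.fst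
  let lab : Ix L → Option (Lab L) := fun p => (g (d p.1 p.2.1 p.2.2.1) p.2.2.2).map Prod.snd
  have h3 : ∀ j ξ c, cnd f lab j ξ c = (d j ξ c).s := by
    intro j ξ c
    ext e
    rw [hg]
    refine exists_congr fun n => ?_
    simp only [f, lab]
    cases g (d j ξ c) n with
    | none => simp
    | some x => simp [Prod.ext_iff, eq_comm]
  refine ⟨.node f lab (fun j ξ c => d j ξ c ∈ D j ξ), fun k j ξ => ?_⟩
  rw [ok_node]
  constructor
  · rintro ⟨c, c1, c2⟩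
    exact ⟨_, c1, by rwa [h3] at c2⟩
  · rintro ⟨w, w1, w2⟩
    obtain ⟨c, rfl⟩ := hd j ξ w1
    exact ⟨c, w1, by rwa [h3]⟩

end Ma

theorem cc_AP {N : Type} : CC (A N × Ma L Bs) 𝔠 := by
  intro S hS
  have hY : #(Set Bool × {t : Set (Om × Bool) // #t ≤ ℵ₀}) ≤ 𝔠 := by
    rw [Cardinal.mk_prod, Cardinal.lift_id, Cardinal.lift_id]
    refine Cardinal.mul_le_of_le Cardinal.aleph0_le_continuum
      (Cardinal.mk_le_aleph0.trans Cardinal.aleph0_le_continuum)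
      ((Cardinal.mk_bounded_set_le _ _).trans ?_)
    refine (Cardinal.power_le_power_right (max_le ?_ Cardinal.aleph0_le_continuum)).trans_eq
      Cardinal.continuum_power_aleph0
    rw [Cardinal.mk_prod, Cardinal.lift_id, Cardinal.lift_id]
    exact Cardinal.mul_le_of_le Cardinal.aleph0_le_continuum Om_card
      (Cardinal.mk_le_aleph0.trans Cardinal.aleph0_le_continuum)
  have hc : ∀ (k : Ma L Bs) (i : Co L Bs), #{p | (i, inl p) ∈ k.s} ≤ ℵ₀ := fun k i =>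
    Cardinal.le_aleph0_iff_set_countable.mpr (k.cnt.preimage_of_injOn
      (f := fun p => (i, inl p)) (fun _ _ _ _ h => by simpa using h))
  refine card_le_of_disagree (X := N ⊕ Co L Bs) hY
    (fun t : S => inl '' (Prod.fst '' t.1.1.s) ∪ inr '' (Prod.fst '' t.1.2.s))
    (fun t => ((t.1.1.fin.countable.image _).image _).union ((t.1.2.cnt.image _).image _))
    (fun t x => Sum.elim (fun n => ({v | (n, v) ∈ t.1.1.s}, ⟨∅, by simp⟩))
      (fun i => (∅, ⟨{p | (i, inl p) ∈ t.1.2.s}, hc _ i⟩)) x) ?_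
  intro t t' hne
  by_contra hcon
  push Not at hcon
  refine hS t.2 t'.2 (fun h => hne (Subtype.ext h)) ?_
  obtain ⟨a, a1, a2⟩ : Comp t.1.1 t'.1.1 := A.comp_of fun n v g1 g2 => by
    have := congrArg Prod.fst (hcon (inl n) (Or.inl ⟨n, ⟨_, g1, rfl⟩, rfl⟩)
      (Or.inl ⟨n, ⟨_, g2, rfl⟩, rfl⟩))
    exact t'.1.1.fn n v ((Set.ext_iff.mp this v).mp g1) g2
  have key : ∀ i l l' p, (i, l) ∈ t.1.2.s → (i, l') ∈ t'.1.2.s →
      ((i, inl p) ∈ t.1.2.s ↔ (i, inl p) ∈ t'.1.2.s) := by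
    intro i l l' p g1 g2
    have := congrArg (fun y => y.2.1) (hcon (inr i) (Or.inr ⟨i, ⟨_, g1, rfl⟩, rfl⟩)
      (Or.inr ⟨i, ⟨_, g2, rfl⟩, rfl⟩))
    exact Set.ext_iff.mp this p
  refine ⟨(a, ⟨t.1.2.s ∪ t'.1.2.s, t.1.2.cnt.union t'.1.2.cnt, ?_⟩),
    ⟨a1, subset_union_left, ?_⟩, ⟨a2, subset_union_right, ?_⟩⟩
  · rintro i ξ v (g1 | g1) (g2 | g2)
    · exact t.1.2.fn _ _ _ g1 g2
    · exact t'.1.2.fn _ _ _ ((key _ _ _ _ g1 g2).mp g1) g2
    · exact t.1.2.fn _ _ _ ((key _ _ _ _ g2 g1).mpr g1) g2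
    · exact t'.1.2.fn _ _ _ g1 g2
  · rintro i j ξ g1 (g2 | g2) g3
    exacts [absurd g2 g3, absurd ((key _ _ _ _ g1 g2).mpr g2) g3]
  · rintro i j ξ g1 (g2 | g2) g3
    exacts [absurd ((key _ _ _ _ g2 g1).mp g2) g3, absurd g2 g3]

theorem cc_P : CC (Ma L Bs) 𝔠 := by
  intro S hS
  have := cc_AP (N := Unit) ((fun k => (A.top, k)) '' S) (by
    rintro _ ⟨k, hk, rfl⟩ _ ⟨k', hk', rfl⟩ hne ⟨z, z1, z2⟩
    exact hS hk hk' (fun h => hne (by rw [h])) ⟨z.2, z1.2, z2.2⟩)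
  rwa [Cardinal.mk_image_eq (fun _ _ h => (Prod.ext_iff.mp h).2)] at this

end Pool.Agent.P.MP_b10269_lc.H21
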