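import Mathlib
import Pool.Agent.P.MP_b10269_lc.H21.BVb

/-! The regular open algebra of a preorder; translation to statements about conditions. -/

namespace Pool.Agent.P.MP_b10269_lc.H21

open Pool.Agent.P.MP_54b694_lc Set

variable {Q : Type} [Preorder Q]

/-- Conditions below which `s` is dense. -/
def Den (s : Set Q) : Set Q := {q | ∀ q' ≤ q, ∃ q'' ≤ q', q'' ∈ s}

/-- Conditions with no extension in `s`. -/
def Neg (s : Set Q) : Set Q := {q | ∀ q' ≤ q, q' ∉ s}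

/-- Regular open sets. -/
def Reg (s : Set Q) : Prop := IsLowerSet s ∧ ∀ q ∈ Den s, q ∈ s

/-- Conditions forcing that `S` is unbounded. -/
def FUnb (S : Om → Set Q) : Set Q := {q | ∀ η, ∀ q' ≤ q, ∃ q'' ≤ q', ∃ ξ, η ≤ ξ ∧ q'' ∈ S ξ}

/-- Conditions forcing that `S ⊆ T` from `η` on. -/
def SubAt (η : Om) (S T : Om → Set Q) : Set Q :=
  {q | ∀ ξ, η ≤ ξ → ∀ r ≤ q, r ∈ S ξ → r ∈ T ξ}

/-- Conditions forcing `S ⊆* T`. -/
def FSub (S T : Om → Set Q) : Set Q := {q | ∀ q' ≤ q, ∃ q'' ≤ q', ∃ η, q'' ∈ SubAt η S T}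

theorem den_lower (s : Set Q) : IsLowerSet (Den s) := fun _ _ h hq q' h' => hq q' (h'.trans h)

theorem neg_lower (s : Set Q) : IsLowerSet (Neg s) := fun _ _ h hq q' h' => hq q' (h'.trans h)

theorem reg_den (s : Set Q) : Reg (Den s) :=
  ⟨den_lower s, fun q hq q' h => by
    obtain ⟨r, r1, r2⟩ := hq q' h
    obtain ⟨t, t1, t2⟩ := r2 r le_rfl
    exact ⟨t, t1.trans r1, t2⟩⟩

theorem reg_neg {s : Set Q} (hs : IsLowerSet s) : Reg (Neg s) :=
  ⟨neg_lower s, fun q hq q' h h' => by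
    obtain ⟨r, r1, r2⟩ := hq q' h
    exact r2 r le_rfl (hs r1 h')⟩

theorem mem_den {s : Set Q} (hs : IsLowerSet s) {q : Q} (h : q ∈ s) : q ∈ Den s :=
  fun q' h' => ⟨q', le_rfl, hs h' h⟩

theorem exists_decide (s : Set Q) (q : Q) : ∃ r ≤ q, r ∈ s ∨ r ∈ Neg s := by
  by_cases h : q ∈ Neg s
  · exact ⟨q, le_rfl, Or.inr h⟩
  · simp only [Neg, mem_ofPred_eq, not_forall, not_not] at h
    obtain ⟨r, r1, r2⟩ := h
    exact ⟨r, r1, Or.inl r2⟩

theorem Reg.exists_neg {s : Set Q} (hs : Reg s) {q : Q} (h : q ∉ s) : ∃ r ≤ q, r ∈ Neg s := by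
  by_contra hcon
  refine h (hs.2 q fun q' h' => ?_)
  obtain ⟨r, r1, r2⟩ := exists_decide s q'
  exact ⟨r, r1, r2.resolve_right fun h3 => hcon ⟨r, r1.trans h', h3⟩⟩

theorem funb_lower (S : Om → Set Q) : IsLowerSet (FUnb S) :=
  fun _ _ h hq η q' h' => hq η q' (h'.trans h)

theorem subAt_lower (η : Om) (S T : Om → Set Q) : IsLowerSet (SubAt η S T) :=
  fun _ _ h hq ξ hξ r hr => hq ξ hξ r (hr.trans h)

theorem fsub_lower (S T : Om → Set Q) : IsLowerSet (FSub S T) :=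
  fun _ _ h hq q' h' => hq q' (h'.trans h)

theorem reg_fsub (S T : Om → Set Q) : Reg (FSub S T) :=
  ⟨fsub_lower S T, fun q hq q' h => by
    obtain ⟨r, r1, r2⟩ := hq q' h
    obtain ⟨t, t1, t2⟩ := r2 r le_rfl
    exact ⟨t, t1.trans r1, t2⟩⟩

theorem fsub_of_subAt {η : Om} {S T : Om → Set Q} {q : Q} (h : q ∈ SubAt η S T) : q ∈ FSub S T :=
  fun q' h' => ⟨q', le_rfl, η, subAt_lower η S T h' h⟩

theorem fsub_trans {S T R : Om → Set Q} {q : Q} (h1 : q ∈ FSub S T) (h2 : q ∈ FSub T R) :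
    q ∈ FSub S R := by
  intro q' h
  obtain ⟨r, r1, η, r2⟩ := h1 q' h
  obtain ⟨t, t1, η', t2⟩ := h2 r (r1.trans h)
  exact ⟨t, t1.trans r1, max η η', fun ξ hξ u hu h3 => t2 ξ ((le_max_right _ _).trans hξ) u hu
    (r2 ξ ((le_max_left _ _).trans hξ) u (hu.trans t1) h3)⟩

theorem fsub_of_sub {S T : Om → Set Q} {q : Q} (h : ∀ ξ, ∀ r ≤ q, r ∈ S ξ → r ∈ T ξ) :
    q ∈ FSub S T :=
  fsub_of_subAt (η := Classical.arbitrary Om) (fun ξ _ => h ξ)

/-- Countable covering, for conditions. -/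
def CovQ (Q : Type) [Preorder Q] : Prop :=
  ∀ (T ι : Type), Countable T → ∀ D : T → ι → Set Q, (∀ n x, IsLowerSet (D n x)) → ∀ q,
    (∀ n, ∀ q' ≤ q, ∃ q'' ≤ q', ∃ x, q'' ∈ D n x) →
    ∃ q' ≤ q, ∃ X : Set ι, X.Countable ∧ ∀ n, ∀ r ≤ q', ∃ r' ≤ r, ∃ x ∈ X, r' ∈ D n x

/-- A family forced to have the SIP and no pseudo-intersection. -/
def FamQ {ι : Type} (F : ι → Om → Set Q) : Prop :=
  (∀ β ξ, Reg (F β ξ)) ∧ (∀ (b : ℕ → ι) q, q ∈ FUnb (fun ξ => ⋂ n, F (b n) ξ)) ∧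
    ∀ Y : Om → Set Q, (∀ ξ, Reg (Y ξ)) → ∀ q ∈ FUnb Y, ¬ ∀ β, q ∈ FSub Y (F β)

/-- Forced chains with the SIP have forced pseudo-intersections. -/
def ChainsQ (Q : Type) [Preorder Q] (ι : Type) : Prop :=
  ∀ S : ι → Om → Set Q, (∀ β ξ, Reg (S β ξ)) → ∀ q,
    (∀ β β', ∀ q' ≤ q, ∃ q'' ≤ q', q'' ∈ FSub (S β) (S β') ∨ q'' ∈ FSub (S β') (S β)) →
    (∀ b : ℕ → ι, q ∈ FUnb (fun ξ => ⋂ n, S (b n) ξ)) →
    ∃ Y : Om → Set Q, (∀ ξ, Reg (Y ξ)) ∧ ∃ q' ≤ q, q' ∈ FUnb Y ∧ ∀ β, q' ∈ FSub Y (S β)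

/-- The regular open algebra. -/
def RQ (Q : Type) [Preorder Q] : Type := Heyting.Regular (LowerSet Q)

noncomputable instance : CompleteBooleanAlgebra (RQ Q) :=
  { (inferInstance : BooleanAlgebra (Heyting.Regular (LowerSet Q))) with
    sSup := fun S => Heyting.Regular.toRegular (sSup (Heyting.Regular.val '' S))
    sInf := fun S => Heyting.Regular.toRegular (sInf (Heyting.Regular.val '' S))
    isLUB_sSup := fun _ => Heyting.Regular.gi.isLUB_of_u_image (isLUB_sSup _)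
    isGLB_sInf := fun _ => Heyting.Regular.gi.isGLB_of_u_image (isGLB_sInf _) }

theorem mem_hcompl (s : LowerSet Q) (q : Q) : q ∈ sᶜ ↔ ∀ q' ≤ q, q' ∉ s := by
  rw [← LowerSet.Iic_le, le_compl_iff_disjoint_right, disjoint_iff]
  constructor
  · intro h q' h1 h2
    have : q' ∈ LowerSet.Iic q ⊓ s := ⟨h1, h2⟩
    rw [h] at this
    exact this
  · intro h
    ext q'
    exact iff_of_false (fun h' => h q' h'.1 h'.2) (fun h' => h')

/-- A dense presentation of a complete Boolean algebra by a preorder. -/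
structure Pres (Q B : Type) [Preorder Q] [CompleteBooleanAlgebra B] where
  e : Q → B
  mono : ∀ {q q'}, q' ≤ q → e q' ≤ e q
  compl : ∀ q b, e q ≤ bᶜ ↔ ∀ q' ≤ q, ¬ e q' ≤ b
  dense : ∀ b, b ≠ ⊥ → ∃ q, e q ≤ b
  ro : Set Q → B
  le_ro : ∀ {s}, Reg s → ∀ q, e q ≤ ro s ↔ q ∈ s

theorem exists_pres : Nonempty (Pres Q (RQ Q)) := by
  classical
  let e : Q → RQ Q := fun q => Heyting.Regular.toRegular (LowerSet.Iic q)
  have he : ∀ q (b : RQ Q), e q ≤ b ↔ q ∈ (Heyting.Regular.val b : LowerSet Q) := by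
    intro q b
    rw [← LowerSet.Iic_le]
    exact Heyting.Regular.gi.gc _ _
  have hreg : ∀ s : Set Q, ∀ hs : Reg s, Heyting.IsRegular (⟨s, hs.1⟩ : LowerSet Q) := by
    intro s hs
    refine le_antisymm (fun q hq => hs.2 q fun q' h => ?_) le_compl_compl
    have h1 := (mem_hcompl _ q).mp hq q' h
    rw [mem_hcompl] at h1
    push Not at h1
    exact h1
  refine ⟨⟨e, fun h => Heyting.Regular.toRegular.monotone (LowerSet.Iic_le.mpr h), fun q b => ?_,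
    fun b hb => ?_, fun s => if hs : Reg s then ⟨⟨s, hs.1⟩, hreg s hs⟩ else ⊥, fun hs q => ?_⟩⟩
  · simp only [he]
    exact mem_hcompl _ q
  · by_contra hcon
    simp only [he, not_exists] at hcon
    apply hb
    apply Heyting.Regular.coe_injective
    ext q
    exact iff_of_false (hcon q) (fun h => h)
  · rw [he, dif_pos hs]
    rfl

namespace Pres

variable {B : Type} [CompleteBooleanAlgebra B] (P : Pres Q B)

theorem ne_bot (q : Q) : P.e q ≠ ⊥ := fun h =>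
  (P.compl q ⊤).mp (by rw [h]; exact bot_le) q le_rfl le_top

theorem le_of {a b : B} (h : ∀ q, P.e q ≤ a → P.e q ≤ b) : a ≤ b :=
  le_of_dense fun r hr hra => by
    obtain ⟨q, hq⟩ := P.dense r hr
    exact ⟨_, P.ne_bot q, hq, h q (hq.trans hra)⟩

theorem le_iSup_iff {ι : Type} (q : Q) (f : ι → B) :
    P.e q ≤ ⨆ i, f i ↔ ∀ q' ≤ q, ∃ q'' ≤ q', ∃ i, P.e q'' ≤ f i := by
  have : ⨆ i, f i = (⨅ i, (f i)ᶜ)ᶜ := by simp [compl_iInf]
  rw [this, P.compl]
  simp only [le_iInf_iff, P.compl, not_forall, not_not]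
  refine forall₂_congr fun q' _ => ⟨?_, ?_⟩
  · rintro ⟨i, r, r1, r2⟩
    exact ⟨r, r1, i, r2⟩
  · rintro ⟨r, r1, i, r2⟩
    exact ⟨i, r, r1, r2⟩

/-- The conditions below a value. -/
def pts (b : B) : Set Q := {q | P.e q ≤ b}

theorem reg_pts (b : B) : Reg (P.pts b) := by
  refine ⟨fun _ _ h hq => (P.mono h).trans hq, fun q hq => ?_⟩
  have := (P.le_iSup_iff q (fun _ : Unit => b)).mpr fun q' h => by
    obtain ⟨r, r1, r2⟩ := hq q' h
    exact ⟨r, r1, (), r2⟩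
  simpa [pts] using this

theorem pts_ro {s : Set Q} (hs : Reg s) : P.pts (P.ro s) = s := Set.ext (P.le_ro hs)

theorem le_unb (q : Q) (S : Om → B) : P.e q ≤ unb S ↔ q ∈ FUnb (fun ξ => P.pts (S ξ)) := by
  simp only [unb, le_iInf_iff, P.le_iSup_iff, Subtype.exists, exists_prop]
  rfl

theorem le_asub (q : Q) (S T : Om → B) :
    P.e q ≤ asub S T ↔ q ∈ FSub (fun ξ => P.pts (S ξ)) (fun ξ => P.pts (T ξ)) := by
  rw [asub, P.compl]
  refine forall₂_congr fun q' _ => ?_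
  rw [P.le_unb]
  constructor
  · intro h
    simp only [FUnb, mem_ofPred_eq, not_forall, not_exists, not_and] at h
    obtain ⟨η, r, r1, h⟩ := h
    refine ⟨r, r1, η, fun ξ hξ t t1 t2 => ?_⟩
    by_contra hn
    obtain ⟨u, u1, u2⟩ := (P.reg_pts (T ξ)).exists_neg hn
    exact h u (u1.trans t1) ξ hξ (le_inf ((P.mono u1).trans t2) ((P.compl u _).mpr u2))
  · rintro ⟨r, r1, η, h⟩ h'
    obtain ⟨t, t1, ξ, hξ, t2⟩ := h' η r r1
    have t3 : P.e t ≤ S ξ ⊓ (T ξ)ᶜ := t2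
    exact (P.compl t _).mp (t3.trans inf_le_right) t le_rfl (h ξ hξ t t1 (t3.trans inf_le_left))

theorem pts_iInf {ι : Type} (f : ι → B) : P.pts (⨅ i, f i) = ⋂ i, P.pts (f i) := by
  ext q
  simp [pts]

theorem fam {ι : Type} {F : ι → Om → Set Q} (hF : FamQ F) : Fam (fun β ξ => P.ro (F β ξ)) := by
  constructor
  · intro b
    refine top_le_iff.mp (P.le_of fun q _ => ?_)
    rw [P.le_unb]
    simp only [P.pts_iInf, P.pts_ro (hF.1 _ _)]
    exact hF.2.1 b q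
  · intro Y
    by_contra hne
    obtain ⟨q, hq⟩ := P.dense _ hne
    refine hF.2.2 (fun ξ => P.pts (Y ξ)) (fun ξ => P.reg_pts _) q
      ((P.le_unb q Y).mp (hq.trans inf_le_left)) (fun β => ?_)
    have := (P.le_asub q _ _).mp ((hq.trans inf_le_right).trans (iInf_le _ β))
    simpa only [P.pts_ro (hF.1 _ _)] using this

include P in
theorem cov (h : CovQ Q) : Cov B := by
  intro T ι hT f p hp hf
  obtain ⟨q, hq⟩ := P.dense p hp
  obtain ⟨q', h1, X, h2, h3⟩ := h T ι hT (fun n x => P.pts (f n x)) (fun n x => (P.reg_pts _).1) q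
    (fun n => (P.le_iSup_iff q _).mp (hq.trans (hf n)))
  refine ⟨_, P.ne_bot q', (P.mono h1).trans hq, X, h2, fun n => (P.le_iSup_iff q' _).mpr ?_⟩
  intro r hr
  obtain ⟨r', r1, x, r2, r3⟩ := h3 n r hr
  exact ⟨r', r1, ⟨x, r2⟩, r3⟩

include P in
theorem chains {ι : Type} (h : ChainsQ Q ι) : Chains B ι := by
  intro S p hp h1 h2
  obtain ⟨q, hq⟩ := P.dense p hp
  obtain ⟨Y, y1, r, r1, r2, r3⟩ := h (fun β ξ => P.pts (S β ξ)) (fun β ξ => P.reg_pts _) q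
    (fun β β' q' hq' => by
      have h3 := (hq.trans (h1 β β'))
      rw [sup_eq_iSup, P.le_iSup_iff] at h3
      obtain ⟨r, r1, i, r2⟩ := h3 q' hq'
      refine ⟨r, r1, ?_⟩
      cases i
      exacts [Or.inr ((P.le_asub _ _ _).mp r2), Or.inl ((P.le_asub _ _ _).mp r2)])
    (fun b => by
      have h3 := (P.le_unb q _).mp (hq.trans (h2 b))
      simpa only [P.pts_iInf] using h3)
  refine ⟨fun ξ => P.ro (Y ξ), fun h0 => P.ne_bot r (le_bot_iff.mp ?_)⟩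
  rw [← h0]
  refine le_inf ((P.mono r1).trans hq) (le_inf ?_ (le_iInf fun β => ?_))
  · rw [P.le_unb]
    simpa only [P.pts_ro (y1 _)] using r2
  · rw [P.le_asub]
    simpa only [P.pts_ro (y1 _)] using r3 β

end Pres

theorem model_of_forcing [Nonempty Q] (hc : CovQ Q) {ι T : Type} [Nonempty ι] [LinearOrder T]
    [WellFoundedLT T] [Nonempty T] {F : ι → Om → Set Q} (hF : FamQ F) {G : T → Om → Set Q}
    (hG : FamQ G) (hdec : ∀ α β, α < β → ∀ q, q ∈ FSub (G β) (G α)) (hch : ChainsQ Q ι) :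
    ∃ (M : Type 1) (E : M → M → Prop), IsZFC E ∧ ∃ k p t : M, IsRegUnc E k ∧
      IsLeastCard E (PFam E k) p ∧ IsLeastCard E (IsTower E k) t ∧ CardLT E p t := by
  obtain ⟨P⟩ := exists_pres (Q := Q)
  refine model_of (B := RQ Q) (fun h => P.ne_bot (Classical.arbitrary Q) (le_bot_iff.mp ?_))
    (P.cov hc) (P.fam hF) (P.fam hG) (fun α β h => top_le_iff.mp (P.le_of fun q _ => ?_))
    (P.chains hch)
  · rw [← h]
    exact le_top
  · rw [P.le_asub]
    simpa only [P.pts_ro (hG.1 _ _)] using hdec α β h q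

end Pool.Agent.P.MP_b10269_lc.H21
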