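import Mathlib
import Pool.Agent.P.MP_b10269_lc.H21.PP
import Pool.Agent.P.MP_b10269_lc.H21.Pres

/-! In the extension by Cohen forcing times the Mathias type forcing, small families with the
strong intersection property have pseudo-intersections. -/

namespace Pool.Agent.P.MP_b10269_lc.H21

open Cardinal Set Sum

theorem exists_merge {L T : Type} [Nonempty L] [Countable T] (bs : T → ℕ → L) :
    ∃ b : ℕ → L, ∀ t n, ∃ m, b m = bs t n := by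
  obtain ⟨b, hb⟩ := ((countable_range (fun p : T × ℕ => bs p.1 p.2)).insert
    (Classical.arbitrary L)).exists_eq_range (insert_nonempty _ _)
  refine ⟨b, fun t n => ?_⟩
  rw [← mem_range, ← hb]
  exact Or.inr ⟨(t, n), rfl⟩

theorem pigeon {L G : Type} [Nonempty L] [Preorder G] (hcl : Closed G ℵ₀)
    (R : ℕ → (ℕ → L) → Om → G → Prop)
    (anti : ∀ t b b' ξ k, (∀ n, ∃ m, b' m = b n) → R t b' ξ k → R t b ξ k) (k0 : G)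
    (h : ∀ b η, ∀ k ≤ k0, ∃ k' ≤ k, ∃ ξ, η ≤ ξ ∧ ∃ t, R t b ξ k') :
    ∃ t, ∃ k1 ≤ k0, ∀ b η, ∀ k ≤ k1, ∃ k' ≤ k, ∃ ξ, η ≤ ξ ∧ R t b ξ k' := by
  by_contra hcon
  push Not at hcon
  obtain ⟨g, g1, g2⟩ := hcl.meet le_rfl (T := ℕ) (by simp)
    (fun t k => ∃ b η, ∀ k' ≤ k, ∀ ξ, η ≤ ξ → ¬ R t b ξ k') k0
    (fun t g g' h1 ⟨b, η, h2⟩ => ⟨b, η, fun k' h3 => h2 k' (h3.trans h1)⟩)
    (fun t g h1 => by
      obtain ⟨b, η, k, h2, h3⟩ := hcon t g h1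
      exact ⟨k, h2, b, η, h3⟩)
  choose b η hb using g2
  obtain ⟨b', hb'⟩ := exists_merge b
  obtain ⟨η', hη⟩ := Om_bdd (countable_range η)
  obtain ⟨k', k1, ξ, k2, t, k3⟩ := h b' η' g g1
  exact hb t k' k1 ξ ((hη _ ⟨t, rfl⟩).le.trans k2) (anti t _ _ _ _ (hb' t) k3)

theorem lemA {N L Bs : Type} [Nonempty L] (Bs0 : Bs) (U : L → Om → Set (A N × Ma L Bs))
    (hU : ∀ l ξ, Reg (U l ξ)) (x0 : A N × Ma L Bs)
    (hs : ∀ b : ℕ → L, x0 ∈ FUnb (fun ξ => ⋂ n, U (b n) ξ)) :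
    ∃ Y : Om → Set (A N × Ma L Bs), (∀ ξ, Reg (Y ξ)) ∧
      ∃ x ≤ x0, x ∈ FUnb Y ∧ ∀ l, x ∈ FSub Y (U l) := by
  classical
  obtain ⟨a0, k0⟩ := x0
  let Wt : (ℕ → L) → Om → A N → Ma L Bs → Prop :=
    fun b ξ a k => a ≤ a0 ∧ ∀ n, (a, k) ∈ U (b n) ξ
  have Wanti : ∀ {b b' ξ a k}, (∀ n, ∃ m, b' m = b n) → Wt b' ξ a k → Wt b ξ a k := by
    intro b b' ξ a k h1 h2
    refine ⟨h2.1, fun n => ?_⟩
    obtain ⟨m, hm⟩ := h1 n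
    rw [← hm]
    exact h2.2 m
  have Wmono : ∀ {b ξ a k k'}, k' ≤ k → Wt b ξ a k → Wt b ξ a k' :=
    fun h1 h2 => ⟨h2.1, fun n => (hU _ _).1 (Prod.mk_le_mk.mpr ⟨le_rfl, h1⟩) (h2.2 n)⟩
  have hex := pigeon Ma.closed (fun t b ξ k => ∃ a : A N, a.s.ncard < t ∧ Wt b ξ a k)
    (fun t b b' ξ k h1 ⟨a, h2, h3⟩ => ⟨a, h2, Wanti h1 h3⟩) k0 (fun b η k hk => by
      obtain ⟨⟨a, k'⟩, h1, ξ, h2, h3⟩ := hs b η (a0, k) ⟨le_rfl, hk⟩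
      exact ⟨k', h1.2, ξ, h2, _, a, Nat.lt_succ_self _, h1.1, mem_iInter.mp h3⟩)
  obtain ⟨k1, hk1, hG⟩ := Nat.find_spec hex
  obtain ⟨j, hj⟩ : ∃ j, Nat.find hex = j + 1 := by
    obtain ⟨-, -, -, -, a, h, -⟩ := hG (Classical.arbitrary _) (Classical.arbitrary _) k1 le_rfl
    exact ⟨Nat.find hex - 1, by omega⟩
  have hmin := Nat.find_min hex (m := j) (by omega)
  rw [hj] at hG
  push Not at hmin
  obtain ⟨b2, η2, k2, hk2, hN⟩ := hmin k1 hk1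
  let Ws : Om → Ma L Bs → Set (A N) := fun ξ k => {a | a.s.ncard ≤ j ∧ Wt b2 ξ a k}
  have Wsmono : ∀ {ξ k k'}, k' ≤ k → Ws ξ k ⊆ Ws ξ k' := fun h _ ha => ⟨ha.1, Wmono h ha.2⟩
  have hfin : ∀ ξ, η2 ≤ ξ → ∀ k ≤ k2, (Ws ξ k).Finite := by
    intro ξ hξ k hk
    by_contra hinf
    obtain ⟨r, r1, r2, r3⟩ := A.exists_root (a0 := a0) (j := j) (not_finite.mp hinf)
      (fun w hw => ⟨hw.2.1, hw.1⟩)
    refine hN k hk ξ hξ r r2 ⟨r1, fun n => (hU _ _).2 _ fun x hx => ?_⟩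
    obtain ⟨w, w1, -, z, z1, z2⟩ := (r3 x.1 hx.1).nonempty
    exact ⟨(z, x.2), ⟨z1, le_rfl⟩, (hU _ _).1 (Prod.mk_le_mk.mpr ⟨z2, hx.2⟩) (w1.2.2 n)⟩
  let D : Om → Ma L Bs → Prop := fun ξ k => ∀ k' ≤ k, Ws ξ k' = Ws ξ k
  have Dmono : ∀ {ξ k k'}, k' ≤ k → D ξ k → D ξ k' :=
    fun h1 h2 k'' h3 => (h2 k'' (h3.trans h1)).trans (h2 _ h1).symm
  have hD : ∀ ξ, η2 ≤ ξ → ∀ k ≤ k2, ∃ k' ≤ k, D ξ k' := by
    intro ξ hξ k hk
    by_contra hcon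
    push Not at hcon
    obtain ⟨g, -, g2⟩ := Ma.closed.meet le_rfl (T := ℕ) (by simp)
      (fun m g => g ≤ k ∧ m ≤ (Ws ξ g).ncard) k
      (fun m g g' h1 h2 => ⟨h1.trans h2.1, h2.2.trans
        (ncard_le_ncard (Wsmono h1) (hfin ξ hξ _ ((h1.trans h2.1).trans hk)))⟩)
      (fun m => by
        induction m with
        | zero => exact fun g hg => ⟨g, le_rfl, hg, Nat.zero_le _⟩
        | succ m ih =>
          intro g hg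
          obtain ⟨g', h1, h2, h3⟩ := ih g hg
          have h4 := hcon g' h2
          simp only [D, not_forall] at h4
          obtain ⟨g'', h5, h6⟩ := h4
          exact ⟨g'', h5.trans h1, h5.trans h2, h3.trans_lt (ncard_lt_ncard
            ((Wsmono h5).ssubset_of_ne (Ne.symm h6)) (hfin ξ hξ _ ((h5.trans h2).trans hk)))⟩)
    exact absurd (g2 _).2 (Nat.not_succ_le_self _)
  have hen : ∀ s : Set (A N), ∃ e : ℕ → A N, s.Finite → s ⊆ range e := by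
    intro s
    by_cases h : s.Finite
    · obtain ⟨e, he⟩ := (h.countable.insert A.top).exists_eq_range (insert_nonempty _ _)
      exact ⟨e, fun _ => he ▸ subset_insert _ _⟩
    · exact ⟨fun _ => A.top, fun h' => absurd h' h⟩
  choose en hen using hen
  obtain ⟨t, k3, hk3, hO⟩ := pigeon Ma.closed
    (fun t b ξ k => D ξ k ∧ Wt b ξ (en (Ws ξ k) t) k)
    (fun t b b' ξ k h1 h2 => ⟨h2.1, Wanti h1 h2.2⟩) k2 (fun b η k hk => by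
      obtain ⟨b', hb'⟩ := exists_merge (fun u : Bool => cond u b b2)
      obtain ⟨k', h1, ξ, h2, a, h3, h4⟩ := hG b' (max η η2) k (hk.trans hk2)
      have h5 := (le_max_right _ _).trans h2
      obtain ⟨k'', h6, h7⟩ := hD ξ h5 k' (h1.trans hk)
      obtain ⟨t, ht⟩ := hen _ (hfin ξ h5 k'' ((h6.trans h1).trans hk))
        (show a ∈ Ws ξ k'' from ⟨Nat.lt_succ_iff.mp h3, Wmono h6 (Wanti (hb' false) h4)⟩)
      exact ⟨k'', h6.trans h1, ξ, (le_max_left _ _).trans h2, t, h7,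
        ht ▸ Wmono h6 (Wanti (hb' true) h4)⟩)
  let O : (ℕ → L) → Om → Set (Ma L Bs) := fun b ξ => {k | D ξ k ∧ Wt b ξ (en (Ws ξ k) t) k}
  have Omono : ∀ {b ξ k k'}, k' ≤ k → k ∈ O b ξ → k' ∈ O b ξ := by
    intro b ξ k k' h1 h2
    refine ⟨Dmono h1 h2.1, ?_⟩
    rw [h2.1 k' h1]
    exact Wmono h1 h2.2
  choose C hC1 hC2 hC3 using fun b ξ => cc_P.exists_predense (O b ξ)
  obtain ⟨i, hi⟩ := Ma.exists_coord Bs0 C hC2
  have hok : ∀ (k : Ma L Bs) b ξ, ok k.s i b ξ → k ∈ O b ξ := by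
    intro k b ξ h
    obtain ⟨w, w1, w2⟩ := (hi k b ξ).mp h
    exact Omono w2 (hC1 b ξ w1)
  let Y0 : Om → Set (A N × Ma L Bs) :=
    fun ξ => {x | (i, inl (ξ, true)) ∈ x.2.s ∧ x.1 ≤ en (Ws ξ x.2) t ∧ D ξ x.2}
  have Ylow : ∀ ξ, IsLowerSet (Y0 ξ) := by
    intro ξ x y h1 h2
    refine ⟨h1.2.1 h2.1, ?_, Dmono h1.2 h2.2.2⟩
    rw [h2.2.2 _ h1.2]
    exact h1.1.trans h2.2.1
  have hsub : ∀ l x, x ∈ FSub (fun ξ => Den (Y0 ξ)) (U l) := by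
    intro l _ x _
    obtain ⟨k', h1, h2⟩ := x.2.exists_promise i (fun _ => l)
    obtain ⟨η, hη⟩ := k'.exists_fresh
    refine ⟨(x.1, k'), ⟨le_rfl, h1⟩, η, fun ξ hξ r r1 r2 => (hU _ _).2 _ fun r' r3 => ?_⟩
    obtain ⟨y, y1, y2⟩ := r2 r' r3
    have h3 := hok y.2 _ ξ (((y1.trans r3).trans r1).2.2 i _ ξ h2 y2.1
      (fun h => absurd (hη _ _ _ h) (not_lt.mpr hξ)))
    exact ⟨y, y1, (hU _ _).1 (show y ≤ (_, y.2) from ⟨y2.2.1, le_rfl⟩) (h3.2.2 0)⟩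
  refine ⟨fun ξ => Den (Y0 ξ), fun ξ => reg_den _, ?_⟩
  by_contra hcon
  push Not at hcon
  obtain ⟨k4, hk4, E, hE⟩ := lemH (T := Unit) le_rfl A.ccc Ma.closed (by simp)
    (fun _ a k => ∃ η, ∀ ξ, η ≤ ξ → ∀ x ≤ (a, k), x ∉ Den (Y0 ξ)) a0 k3
    (fun _ a g g' h1 ⟨η, h2⟩ => ⟨η, fun ξ hξ x hx => h2 ξ hξ x (hx.trans ⟨le_rfl, h1⟩)⟩)
    (fun _ a k h1 h2 => by
      have h3 : (a, k) ∉ FUnb (fun ξ => Den (Y0 ξ)) := fun h => by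
        obtain ⟨l, hl⟩ := hcon (a, k) ⟨h1, h2.trans (hk3.trans (hk2.trans hk1))⟩ h
        exact hl (hsub l _)
      simp only [FUnb, mem_ofPred_eq, not_forall, not_exists, not_and] at h3
      obtain ⟨η, x, h4, h5⟩ := h3
      exact ⟨x.1, h4.1, x.2, h4.2, η, fun ξ hξ y hy => h5 y hy ξ hξ⟩)
  obtain ⟨E1, E2, E3⟩ := hE ()
  choose ηE hηE using fun a : E () => E2 a a.2
  have : Countable (E ()) := Cardinal.mk_le_aleph0_iff.mp E1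
  obtain ⟨η1, hη1⟩ := Om_bdd (countable_range ηE)
  obtain ⟨k5, hk5, hp⟩ := k4.exists_promise i (Classical.arbitrary _)
  obtain ⟨η3, hη3⟩ := k5.exists_fresh
  have : Countable {j // (i, inr j) ∈ k5.s} := (k5.cnt.preimage_of_injOn
    (f := fun j => (i, inr j)) (fun _ _ _ _ h => by simpa using h)).to_subtype
  obtain ⟨b, hb⟩ := exists_merge (fun j : {j // (i, inr j) ∈ k5.s} => j.1)
  obtain ⟨k6, hk6, ξ, hξ, h6⟩ := hO b (max η1 η3) k5 (hk5.trans hk4)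
  obtain ⟨k7, hk7, h7⟩ := Ma.closed.meet le_rfl (T := {j // (i, inr j) ∈ k5.s})
    Cardinal.mk_le_aleph0 (fun j k => ok k.s i j.1 ξ) k6
    (fun j g g' h1 h2 => ok_mono h1 _ _ _ h2) (fun j g hg => by
      obtain ⟨w, w1, z, z1, z2⟩ := hC3 j.1 ξ g (Omono hg ⟨h6.1, Wanti (hb j) h6.2⟩)
      exact ⟨z, z1, (hi z _ _).mpr ⟨w, w1, z2⟩⟩)
  have hf : ∀ v, (i, inl (ξ, v)) ∉ k5.s := fun v h =>
    absurd (hη3 _ _ _ h) (not_lt.mpr ((le_max_right _ _).trans hξ))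
  obtain ⟨m, m1, m2, -⟩ := Ma.amalg (hk7.trans hk6) i ξ true (hf _) (fun _ j hj => h7 ⟨j, hj⟩)
  have h8 := hok m _ ξ (m1.2 i _ ξ hp m2 (hf _))
  obtain ⟨y, y1, z, z1, z2⟩ := E3 _ h8.2.1
  exact hηE ⟨y, y1⟩ ξ ((hη1 _ ⟨_, rfl⟩).le.trans ((le_max_left _ _).trans hξ)) (z, m)
    ⟨z2, m1.trans hk5⟩ (mem_den (Ylow ξ) ⟨m2, z1, h8.1⟩)

end Pool.Agent.P.MP_b10269_lc.H21
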