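import Mathlib
import Pool.Agent.P.MP_b10269_lc.H21.LemA

/-! The Mitchell type term forcing and the whole forcing. -/

namespace Pool.Agent.P.MP_b10269_lc.H21

open Cardinal Set Sum

/-- The cardinal `𝔠⁺`. -/
noncomputable abbrev nu : Cardinal.{0} := Order.succ 𝔠

/-- The well-order of type `𝔠⁺`. -/
abbrev Nu : Type := W 𝔠

/-- The well-order of type `𝔠⁺⁺`. -/
abbrev Mu : Type := W nu

theorem c_le_nu : 𝔠 ≤ nu := Order.le_succ _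

theorem aleph0_le_nu : ℵ₀ ≤ nu := Cardinal.aleph0_le_continuum.trans c_le_nu

theorem Om_le_nu : #Om ≤ nu := Om_card.trans c_le_nu

instance : Infinite Nu := by
  rw [Cardinal.infinite_iff, W_card]
  exact aleph0_le_nu

theorem A_card : #(A Nu) ≤ nu := A.card_le.trans_eq (W_card _)

/-- Terms: at each coordinate of the domain, a value and the conditions that activate it. -/
structure Tm where
  dom : Set Mu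
  small : Cardinal.mk dom ≤ nu
  val : Mu → Bool × Set (A Nu)

/-- Below `a` the term `o` is active with value `v`. -/
def act (a : A Nu) (o : Bool × Set (A Nu)) (v : Bool) : Prop := v = o.1 ∧ ∃ d ∈ o.2, a ≤ d

/-- Two terms act in the same way below `a`. -/
def eqv (a : A Nu) (o o' : Bool × Set (A Nu)) : Prop := ∀ a' ≤ a, ∀ v, act a' o v ↔ act a' o' v

/-- Below `a`, the term `σ'` extends `σ`. -/
def TLe (a : A Nu) (σ' σ : Tm) : Prop :=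
  σ.dom ⊆ σ'.dom ∧ ∀ β ∈ σ.dom, eqv a (σ'.val β) (σ.val β)

instance : Preorder Tm where
  le σ' σ := σ.dom ⊆ σ'.dom ∧ ∀ β ∈ σ.dom, σ'.val β = σ.val β
  le_refl _ := ⟨Subset.rfl, fun _ _ => rfl⟩
  le_trans _ _ _ h1 h2 := ⟨h2.1.trans h1.1, fun β hβ => (h1.2 β (h2.1 hβ)).trans (h2.2 β hβ)⟩

theorem act.mono {a a' o v} (h : act a o v) (h' : a' ≤ a) : act a' o v := by
  obtain ⟨h1, d, h2, h3⟩ := h
  exact ⟨h1, d, h2, h'.trans h3⟩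

theorem TLe.mono {a a' σ' σ} (h : TLe a σ' σ) (h' : a' ≤ a) : TLe a' σ' σ :=
  ⟨h.1, fun β hβ a'' h'' => h.2 β hβ a'' (h''.trans h')⟩

theorem TLe.trans {a σ'' σ' σ} (h : TLe a σ'' σ') (h' : TLe a σ' σ) : TLe a σ'' σ :=
  ⟨h'.1.trans h.1, fun β hβ a' ha v => (h.2 β (h'.1 hβ) a' ha v).trans (h'.2 β hβ a' ha v)⟩

theorem TLe.of_le (a : A Nu) {σ' σ : Tm} (h : σ' ≤ σ) : TLe a σ' σ :=
  ⟨h.1, fun β hβ _ _ _ => by rw [h.2 β hβ]⟩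

theorem TLe.proj {a σ' σ} (h : TLe a σ' σ) : ∃ σ'' ≤ σ, TLe a σ'' σ' := by
  classical
  refine ⟨⟨σ'.dom, σ'.small, fun β => if β ∈ σ.dom then σ.val β else σ'.val β⟩,
    ⟨h.1, fun β hβ => if_pos hβ⟩, Subset.rfl, fun β _ a' ha v => ?_⟩
  by_cases hβ : β ∈ σ.dom
  · simp only [if_pos hβ]
    exact (h.2 β hβ a' ha v).symm
  · simp only [if_neg hβ]

theorem Tm.closed : Closed Tm nu := by
  classical
  intro c h1 _ h3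
  refine ⟨⟨⋃ σ ∈ c, σ.dom, mk_biUnion_le_of aleph0_le_nu h3 (fun σ _ => σ.small),
    fun β => if h : ∃ σ ∈ c, β ∈ σ.dom then h.choose.val β else (false, ∅)⟩, fun σ hσ =>
    ⟨subset_biUnion_of_mem (u := Tm.dom) hσ, fun β hβ => ?_⟩⟩
  have h : ∃ σ ∈ c, β ∈ σ.dom := ⟨σ, hσ, hβ⟩
  simp only [dif_pos h]
  rcases h1.total hσ h.choose_spec.1 with g | g
  exacts [(g.2 β h.choose_spec.2).symm, g.2 β hβ]

/-- Extension of a term by prescribed values on new coordinates. -/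
theorem Tm.exists_ext (σ : Tm) (E : Set Mu) (hE : #E ≤ nu) (o : Bool × Set (A Nu)) :
    ∃ τ ≤ σ, E ⊆ τ.dom ∧ ∀ β, β ∉ σ.dom → τ.val β = o := by
  classical
  exact ⟨⟨σ.dom ∪ E, (Cardinal.mk_union_le _ _).trans (Cardinal.add_le_of_le aleph0_le_nu σ.small hE),
    fun β => if β ∈ σ.dom then σ.val β else o⟩, ⟨subset_union_left, fun β hβ => if_pos hβ⟩,
    subset_union_right, fun β hβ => if_neg hβ⟩

/-- The empty term. -/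
def Tm.top : Tm := ⟨∅, by simp, fun _ => (false, ∅)⟩

/-- Labels of the families coded by coordinates. -/
abbrev LL : Type := Mu × Tm

instance : Nonempty Tm := ⟨Tm.top⟩

/-- The product of the Cohen part and the Mathias type part. -/
abbrev PI : Type := A Nu × Ma LL Mu

/-- Conditions of the whole forcing. -/
structure Qc where
  x : PI
  σ : Tm

instance : Preorder Qc where
  le q' q := q'.x ≤ q.x ∧ TLe q'.x.1 q'.σ q.σ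
  le_refl q := ⟨le_rfl, TLe.of_le _ le_rfl⟩
  le_trans _ _ _ h1 h2 := ⟨h1.1.trans h2.1, h1.2.trans (h2.2.mono h1.1.1)⟩

theorem Qc.le_of {x x' : PI} {σ σ' : Tm} (h1 : x' ≤ x) (h2 : σ' ≤ σ) :
    (⟨x', σ'⟩ : Qc) ≤ ⟨x, σ⟩ := ⟨h1, TLe.of_le _ h2⟩

theorem Qc.le_left (q : Qc) {x : PI} (h : x ≤ q.x) : (⟨x, q.σ⟩ : Qc) ≤ q := Qc.le_of h le_rfl

theorem Qc.proj {q : Qc} {x : PI} {σ : Tm} (h : q ≤ ⟨x, σ⟩) :
    ∃ σ' ≤ σ, (⟨q.x, σ'⟩ : Qc) ≤ q := by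
  obtain ⟨σ', h1, h2⟩ := h.2.proj
  exact ⟨σ', h1, le_rfl, h2⟩

theorem cc_PI : CC PI nu := cc_AP.mono c_le_nu

theorem lemHQ {T : Type} (hT : #T ≤ nu) (V : T → Set Qc) (hV : ∀ t, IsLowerSet (V t)) (q : Qc)
    (hd : ∀ t, ∀ r ≤ q, ∃ r' ≤ r, r' ∈ V t) :
    ∃ σ ≤ q.σ, ∃ E : T → Set PI, ∀ t, #(E t) ≤ nu ∧ (∀ x ∈ E t, (⟨x, σ⟩ : Qc) ∈ V t) ∧
      ∀ r ≤ (⟨q.x, σ⟩ : Qc), ∃ y ∈ E t, ∃ r' ≤ r, r' ≤ ⟨y, σ⟩ := by
  obtain ⟨σ, h1, E, hE⟩ := lemH aleph0_le_nu cc_PI Tm.closed hT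
    (fun t x σ => (⟨x, σ⟩ : Qc) ∈ V t) q.x q.σ
    (fun t x g g' h1 h2 => hV t (Qc.le_of le_rfl h1) h2) (fun t x g h1 h2 => by
      obtain ⟨r, r1, r2⟩ := hd t ⟨x, g⟩ (Qc.le_of h1 h2)
      obtain ⟨σ', s1, s2⟩ := Qc.proj r1
      exact ⟨r.x, r1.1, σ', s1, hV t s2 r2⟩)
  refine ⟨σ, h1, E, fun t => ⟨(hE t).1, (hE t).2.1, fun r hr => ?_⟩⟩
  obtain ⟨y, y1, z, z1, z2⟩ := (hE t).2.2 r.x hr.1
  exact ⟨y, y1, ⟨z, r.σ⟩, r.le_left z1, z2, hr.2.mono z1.1⟩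

theorem covQ : CovQ Qc := by
  intro T ι hT D hD q hd
  obtain ⟨g, h1, E, hE⟩ := lemH le_rfl A.ccc (Ma.closed.prod (Tm.closed.anti aleph0_le_nu))
    (Cardinal.mk_le_aleph0 (α := T))
    (fun t a (g : Ma LL Mu × Tm) => ∃ x, (⟨(a, g.1), g.2⟩ : Qc) ∈ D t x) q.x.1 (q.x.2, q.σ)
    (fun t a g g' h1 ⟨x, h2⟩ => ⟨x, hD t x (Qc.le_of (Prod.mk_le_mk.mpr ⟨le_rfl, h1.1⟩) h1.2) h2⟩)
    (fun t a g h1 h2 => by
      obtain ⟨r, r1, x, r2⟩ := hd t ⟨(a, g.1), g.2⟩ (Qc.le_of ⟨h1, h2.1⟩ h2.2)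
      obtain ⟨σ', s1, s2⟩ := Qc.proj r1
      exact ⟨r.x.1, r1.1.1, (r.x.2, σ'), ⟨r1.1.2, s1⟩, x, hD t x s2 r2⟩)
  choose f hf using fun (t : T) (a : E t) => (hE t).2.1 a a.2
  have : ∀ t, Countable (E t) := fun t => Cardinal.mk_le_aleph0_iff.mp (hE t).1
  refine ⟨⟨(q.x.1, g.1), g.2⟩, Qc.le_of ⟨le_rfl, h1.1⟩ h1.2, ⋃ t, range (f t),
    countable_iUnion fun t => countable_range _, fun t r hr => ?_⟩
  obtain ⟨y, y1, z, z1, z2⟩ := (hE t).2.2 r.x.1 hr.1.1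
  exact ⟨⟨(z, r.x.2), r.σ⟩, r.le_left ⟨z1, le_rfl⟩, f t ⟨y, y1⟩, mem_iUnion.mpr ⟨t, _, rfl⟩,
    hD t _ (show (⟨(z, r.x.2), r.σ⟩ : Qc) ≤ ⟨(y, g.1), g.2⟩ from ⟨⟨z2, hr.1.2⟩, hr.2.mono z1⟩)
      (hf t ⟨y, y1⟩)⟩

/-- The term `σ` reduces the event `s` to the product part. -/
def Red (σ : Tm) (s : Set Qc) : Prop :=
  ∀ x : PI, ∃ x' ≤ x, (⟨x', σ⟩ : Qc) ∈ s ∨ (⟨x', σ⟩ : Qc) ∈ Neg s

theorem exists_red {T : Type} (hT : #T ≤ nu) (s : T → Set Qc) (hs : ∀ t, IsLowerSet (s t))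
    (σ0 : Tm) : ∃ σ ≤ σ0, ∀ t, Red σ (s t) := by
  obtain ⟨σ, h1, E, hE⟩ := lemH aleph0_le_nu cc_PI Tm.closed hT
    (fun t x σ => (⟨x, σ⟩ : Qc) ∈ s t ∨ (⟨x, σ⟩ : Qc) ∈ Neg (s t)) (A.top, Ma.top) σ0
    (fun t x g g' h1 h2 => h2.imp (hs t (Qc.le_of le_rfl h1)) (neg_lower _ (Qc.le_of le_rfl h1)))
    (fun t x g _ _ => by
      obtain ⟨r, r1, r2⟩ := exists_decide (s t) ⟨x, g⟩
      obtain ⟨σ', s1, s2⟩ := Qc.proj r1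
      exact ⟨r.x, r1.1, σ', s1, r2.imp (hs t s2) (neg_lower _ s2)⟩)
  refine ⟨σ, h1, fun t x => ?_⟩
  obtain ⟨y, y1, z, z1, z2⟩ := (hE t).2.2 x ⟨A.le_top _, Ma.le_top _⟩
  exact ⟨z, z1, ((hE t).2.1 y y1).imp (hs t (Qc.le_of z2 le_rfl)) (neg_lower _ (Qc.le_of z2 le_rfl))⟩

theorem Red.mem {σ : Tm} {s : Set Qc} (h : Red σ s) (hs : Reg s) {q : Qc} (h1 : TLe q.x.1 q.σ σ)
    (h2 : q ∈ s) : (⟨q.x, σ⟩ : Qc) ∈ s := by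
  refine hs.2 _ fun r hr => ?_
  obtain ⟨z, z1, z2⟩ := h r.x
  refine ⟨⟨z, r.σ⟩, r.le_left z1, hs.1 (show (⟨z, r.σ⟩ : Qc) ≤ ⟨z, σ⟩ from
    ⟨le_rfl, hr.2.mono z1.1⟩) (z2.resolve_right fun h3 => ?_)⟩
  exact h3 ⟨z, q.σ⟩ ⟨le_rfl, h1.mono (z1.trans hr.1).1⟩ (hs.1 (q.le_left (z1.trans hr.1)) h2)

/-- The section of an event at a term. -/
def sec (σ : Tm) (s : Set Qc) : Set PI := {x | (⟨x, σ⟩ : Qc) ∈ s}

/-- An event of the product part, seen in the whole forcing. -/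
def up (u : Set PI) : Set Qc := {q | q.x ∈ u}

theorem reg_sec (σ : Tm) {s : Set Qc} (hs : Reg s) : Reg (sec σ s) := by
  refine ⟨fun _ _ h hx => hs.1 (Qc.le_of h le_rfl) hx, fun x hx => hs.2 _ fun r hr => ?_⟩
  obtain ⟨z, z1, z2⟩ := hx r.x hr.1
  exact ⟨⟨z, r.σ⟩, r.le_left z1, hs.1 (show (⟨z, r.σ⟩ : Qc) ≤ ⟨z, σ⟩ from
    ⟨le_rfl, hr.2.mono z1.1⟩) z2⟩

theorem reg_up {u : Set PI} (hu : Reg u) : Reg (up u) := by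
  refine ⟨fun _ _ h hx => hu.1 h.1 hx, fun q hq => hu.2 _ fun x hx => ?_⟩
  obtain ⟨r, r1, r2⟩ := hq ⟨x, q.σ⟩ (q.le_left hx)
  exact ⟨r.x, r1.1, r2⟩

theorem funb_up {Y : Om → Set PI} {q : Qc} (h : q.x ∈ FUnb Y) : q ∈ FUnb (fun ξ => up (Y ξ)) := by
  intro η r hr
  obtain ⟨z, z1, ξ, z2, z3⟩ := h η r.x hr.1
  exact ⟨⟨z, r.σ⟩, r.le_left z1, ξ, z2, z3⟩

theorem fsub_up {Y Z : Om → Set PI} {q : Qc} :
    q ∈ FSub (fun ξ => up (Y ξ)) (fun ξ => up (Z ξ)) ↔ q.x ∈ FSub Y Z := by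
  constructor
  · intro h x hx
    obtain ⟨r, r1, η, r2⟩ := h ⟨x, q.σ⟩ (q.le_left hx)
    exact ⟨r.x, r1.1, η, fun ξ hξ y y1 y2 => r2 ξ hξ ⟨y, r.σ⟩ (r.le_left y1) y2⟩
  · intro h r hr
    obtain ⟨z, z1, η, z2⟩ := h r.x hr.1
    exact ⟨⟨z, r.σ⟩, r.le_left z1, η, fun ξ hξ y y1 y2 => z2 ξ hξ y.x y1.1 y2⟩

/-- The event depends only on the Cohen coordinates below `i`. -/
def Supp (i : Nu) (u : Set PI) : Prop := ∀ a k, (a, k) ∈ u → (a.res i, k) ∈ u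

theorem exists_supp (U : Om → Set PI) (hU : ∀ ξ, Reg (U ξ)) : ∃ i, ∀ ξ, Supp i (U ξ) := by
  choose E E1 E2 E3 using fun ξ => (cc_AP (N := Nu) (L := LL) (Bs := Mu)).exists_predense (U ξ)
  obtain ⟨i, hi⟩ := W_bdd Cardinal.aleph0_le_continuum (⋃ ξ, ⋃ y ∈ E ξ, Prod.fst '' y.1.s)
    (mk_iUnion_le_of Cardinal.aleph0_le_continuum Om_card fun ξ =>
      mk_biUnion_le_of Cardinal.aleph0_le_continuum (E2 ξ) fun y _ =>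
        (Cardinal.le_aleph0_iff_set_countable.mpr (y.1.fin.countable.image _)).trans
          Cardinal.aleph0_le_continuum)
  refine ⟨i, fun ξ a k h => (hU ξ).2 _ fun x hx => ?_⟩
  obtain ⟨d, d1, d2, -⟩ := A.exists_glue (A.res_le_res hx.1)
  obtain ⟨y, y1, z, z1, z2⟩ := E3 ξ (d, x.2) ((hU ξ).1 (Prod.mk_le_mk.mpr ⟨d1, hx.2⟩) h)
  obtain ⟨e, e1, e2, -⟩ := A.exists_glue (A.res_le_res (z1.1.trans d2))
  refine ⟨(e, z.2), ⟨e1, z1.2⟩, (hU ξ).1 (show (e, z.2) ≤ y from ⟨fun p hp => ?_, z2.2⟩) (E1 ξ y1)⟩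
  exact e2 ⟨z2.1 hp, hi _ (mem_iUnion.mpr ⟨ξ, mem_biUnion y1 ⟨p, hp, rfl⟩⟩)⟩

theorem fsub_supp {i : Nu} {U V : Om → Set PI} (hU : ∀ ξ, Supp i (U ξ)) (hV : ∀ ξ, Supp i (V ξ))
    (hU' : ∀ ξ, IsLowerSet (U ξ)) (hV' : ∀ ξ, IsLowerSet (V ξ)) {a a' : A Nu} {k : Ma LL Mu}
    (ha : a' ≤ a.res i) (h : (a, k) ∈ FSub U V) : (a', k) ∈ FSub U V := by
  intro x hx
  obtain ⟨d, d1, d2, -⟩ := A.exists_glue (A.res_le_res (hx.1.trans ha))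
  obtain ⟨z, z1, η, z2⟩ := h (d, x.2) ⟨d1, hx.2⟩
  obtain ⟨e, e1, e2, -⟩ := A.exists_glue (A.res_le_res (z1.1.trans d2))
  refine ⟨(e, z.2), ⟨e1, z1.2⟩, η, fun ξ hξ y y1 y2 => ?_⟩
  obtain ⟨f, f1, f2, f3⟩ := A.exists_glue (A.res_le_res (y1.1.trans e2))
  have h1 : (f, y.2) ∈ V ξ := z2 ξ hξ _ ⟨f1, y1.2⟩
    (hU' ξ (Prod.mk_le_mk.mpr ⟨f2, le_rfl⟩) (hU ξ y.1 y.2 y2))
  exact hV' ξ (show y ≤ (f.res i, y.2) from ⟨(y.1.le_res i).trans f3, le_rfl⟩) (hV ξ _ _ h1)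

end Pool.Agent.P.MP_b10269_lc.H21
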