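import Mathlib
import Pool.Agent.P.MP_b10269_lc.H21.QQ

/-! The small family without pseudo-intersection, and a tower. -/

namespace Pool.Agent.P.MP_b10269_lc.H21

open Cardinal Set Sum

theorem Ma.exists_add {L Bs : Type} (k : Ma L Bs) (ξ : Om) (hξ : ∀ i v, (i, inl (ξ, v)) ∉ k.s)
    (Z : Set (Co L Bs × Bool)) (hZ : Z.Countable) (hf : ∀ i v, (i, v) ∈ Z → (i, !v) ∉ Z)
    (h : ∀ s : Set (Co L Bs × Lab L), (∀ p ∈ Z, (p.1, inl (ξ, p.2)) ∈ s) →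
      ∀ i j, (i, true) ∈ Z → (i, inr j) ∈ k.s → ok s i j ξ) :
    ∃ m ≤ k, ∀ p ∈ Z, (p.1, inl (ξ, p.2)) ∈ m.s := by
  refine ⟨⟨k.s ∪ (fun p => (p.1, inl (ξ, p.2))) '' Z, k.cnt.union (hZ.image _), ?_⟩,
    ⟨subset_union_left, ?_⟩, fun p hp => Or.inr ⟨p, hp, rfl⟩⟩
  · rintro i ξ' v (g1 | ⟨⟨i1, v1⟩, p1, g1⟩) (g2 | ⟨⟨i2, v2⟩, p2, g2⟩)
    · exact k.fn _ _ _ g1 g2
    · cases g2; exact hξ _ _ g1
    · cases g1; exact hξ _ _ g2
    · cases g1; cases g2; exact hf _ _ p1 p2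
  · rintro i j ξ' g1 (g2 | ⟨⟨i1, v1⟩, p1, g2⟩) g3
    · exact absurd g2 g3
    · cases g2
      exact h _ (fun p hp => Or.inr ⟨p, hp, rfl⟩) _ _ p1 g1

/-- The term is active at `β` and the generic set at `β` takes the other value at `ξ`. -/
def Bad (β : Mu) (ξ : Om) : Set Qc :=
  {q | ∃ v, β ∈ q.σ.dom ∧ act q.x.1 (q.σ.val β) v ∧ (Co.base β, inl (ξ, !v)) ∈ q.x.2.s}

theorem bad_lower (β : Mu) (ξ : Om) : IsLowerSet (Bad β ξ) := by
  rintro q r h ⟨v, h1, h2, h3⟩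
  exact ⟨v, h.2.1 h1, (h.2.2 β h1 _ le_rfl v).mpr (h2.mono h.1.1), h.1.2.1 h3⟩

theorem famF : FamQ (fun β ξ => Neg (Bad β ξ)) := by
  refine ⟨fun β ξ => reg_neg (bad_lower β ξ), fun b _ η q _ => ?_, fun Y hY q hq h => ?_⟩
  · obtain ⟨τ, t1, t2, -⟩ := q.σ.exists_ext (range b)
      (Cardinal.mk_range_le.trans (by simpa using aleph0_le_nu)) (false, ∅)
    obtain ⟨η', hη⟩ := q.x.2.exists_fresh
    obtain ⟨m, m1, m2⟩ := q.x.2.exists_add (max η η')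
      (fun i v h => absurd (hη _ _ _ h) (not_lt.mpr (le_max_right _ _)))
      (range fun n => (Co.base (b n), (τ.val (b n)).1)) (countable_range _)
      (by
        rintro i v ⟨n, h1⟩ ⟨n', h2⟩
        cases h1
        have h3 : b n' = b n := Co.base.inj (Prod.ext_iff.mp h2).1
        have h4 : (τ.val (b n')).1 = !(τ.val (b n)).1 := (Prod.ext_iff.mp h2).2
        rw [h3] at h4
        simp at h4)
      (by
        rintro s - i j ⟨n, h1⟩ -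
        obtain rfl : Co.base (b n) = i := (Prod.ext_iff.mp h1).1
        trivial)
    refine ⟨⟨(q.x.1, m), τ⟩, Qc.le_of ⟨le_rfl, m1⟩ t1, _, le_max_left η η', mem_iInter.mpr ?_⟩
    rintro n r hr ⟨v, -, h2, h3⟩
    have h4 := ((hr.2.2 _ (t2 ⟨n, rfl⟩) _ le_rfl v).mp h2).1
    exact r.x.2.fn _ _ _ (h4 ▸ hr.1.2.1 (m2 _ ⟨n, rfl⟩)) h3
  · obtain ⟨σ, s1, s2⟩ := exists_red Om_le_nu Y (fun ξ => (hY ξ).1) q.σ
    obtain ⟨β, hβ⟩ := W_bdd aleph0_le_nu σ.dom σ.small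
    have hβ' : β ∉ σ.dom := fun h => lt_irrefl _ (hβ β h)
    have key : ∀ (v : Bool) (x : PI), x ≤ q.x → ∃ r : Qc, r.x ≤ x ∧ r ≤ ⟨x, σ⟩ ∧ ∃ η, ∀ ξ, η ≤ ξ →
        ∀ y ≤ r.x, (⟨y, σ⟩ : Qc) ∈ Y ξ → (Co.base β, inl (ξ, !v)) ∉ y.2.s := by
      intro v x hx
      obtain ⟨τ, t1, t2, t3⟩ := σ.exists_ext {β} (by simpa using Cardinal.one_le_aleph0.trans aleph0_le_nu)
        (v, univ)
      obtain ⟨r, r1, η, r2⟩ := h β ⟨x, τ⟩ (Qc.le_of hx (t1.trans s1))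
      have r3 : r ≤ ⟨x, σ⟩ := r1.trans (Qc.le_of le_rfl t1)
      refine ⟨r, r1.1, r3, η, fun ξ hξ y y1 y2 y3 => ?_⟩
      refine r2 ξ hξ ⟨y, r.σ⟩ (r.le_left y1) ((hY ξ).1 (show (⟨y, r.σ⟩ : Qc) ≤ ⟨y, σ⟩ from
        ⟨le_rfl, r3.2.mono y1.1⟩) y2) _ le_rfl ⟨v, r1.2.1 (t2 rfl), ?_, y3⟩
      refine (r1.2.2 β (t2 rfl) _ y1.1 v).mpr ?_
      show act _ (τ.val β) v
      rw [t3 β hβ']
      exact ⟨rfl, _, trivial, le_rfl⟩
    obtain ⟨r0, a1, -, η0, a3⟩ := key false q.x le_rfl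
    obtain ⟨r1, b1, b2, η1, b3⟩ := key true r0.x a1
    obtain ⟨r, c1, ξ, c2, c3⟩ := hq (max η0 η1) ⟨r1.x, σ⟩ (Qc.le_of (b1.trans a1) s1)
    obtain ⟨m, m1, u, m2⟩ := r.x.2.exists_decide (Co.base β) ξ
    have d1 : (r.x.1, m) ≤ r.x := ⟨le_rfl, m1⟩
    have d2 : (⟨(r.x.1, m), σ⟩ : Qc) ∈ Y ξ :=
      (hY ξ).1 (Qc.le_of d1 le_rfl) ((s2 ξ).mem (hY ξ) c1.2 c3)
    cases u
    · exact b3 ξ ((le_max_right _ _).trans c2) _ (d1.trans c1.1) d2 m2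
    · exact a3 ξ ((le_max_left _ _).trans c2) _ ((d1.trans c1.1).trans b1) d2 m2

/-- The length of the tower. -/
abbrev Th : Type := W #(ℕ → LL)

theorem c_le_J : 𝔠 ≤ #(ℕ → LL) := by
  have h1 : #Mu ≤ #(ℕ → LL) := Cardinal.mk_le_of_injective
    (f := fun β _ => (β, Tm.top)) (fun _ _ h => (Prod.ext_iff.mp (congrFun h 0)).1)
  rw [W_card] at h1
  exact (c_le_nu.trans (Order.le_succ _)).trans h1

theorem aleph0_le_J : ℵ₀ ≤ #(ℕ → LL) := Cardinal.aleph0_le_continuum.trans c_le_J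

theorem rank_bound (i : Co LL Mu) : rank i < (Order.succ #(ℕ → LL)).ord := by
  have hr := Cardinal.isRegular_succ aleph0_le_J
  induction i with
  | base => exact hr.ord_pos
  | node f lab on ih =>
    refine Ordinal.iSup_add_one_lt_of_lt_cof ?_ ih
    rw [hr.cof_ord, Order.lt_succ_iff]
    simp only [Cardinal.mk_prod, Cardinal.lift_id]
    refine Cardinal.mul_le_of_le aleph0_le_J le_rfl (Cardinal.mul_le_of_le aleph0_le_J
      (Om_card.trans c_le_J) (Cardinal.mul_le_of_le aleph0_le_J ?_ ?_))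
    · simpa using c_le_J
    · simpa using aleph0_le_J

theorem exists_tower_coords : ∃ (i : Th → Co LL Mu) (g : Th → (ℕ → LL) → Th),
    (∀ α β, β < α → ∃ j, g α j = β) ∧ (∀ α β, β < α → rank (i β) < rank (i α)) ∧
    ∀ s α j ξ, ok s (i α) j ξ ↔ (g α j < α → (i (g α j), inl (ξ, true)) ∈ s) := by
  classical
  have h1 : ∀ α : Th, ∃ g : (ℕ → LL) → Th, ∀ β, β < α → ∃ j, g j = β := by
    intro α
    obtain ⟨e⟩ := (Cardinal.le_def _ _).mp (W_Iio α)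
    exact ⟨Function.extend e Subtype.val (fun _ => α), fun β h =>
      ⟨e ⟨β, h⟩, e.injective.extend_apply _ _ _⟩⟩
  choose g hg using h1
  let lab : Th → Ix LL → Option (Lab LL) :=
    fun α p => if g α p.1 < α then some (inl (p.2.1, true)) else none
  let i : Th → Co LL Mu := WellFounded.fix (wellFounded_lt (α := Th)) (fun α ih =>
    Co.node (fun p => if h : g α p.1 < α then ih _ h else Co.base (Classical.arbitrary _))
      (lab α) (fun _ _ _ => True))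
  have hi : ∀ α, i α = Co.node
      (fun p => if g α p.1 < α then i (g α p.1) else Co.base (Classical.arbitrary _))
      (lab α) (fun _ _ _ => True) := fun α => WellFounded.fix_eq _ _ α
  refine ⟨i, g, hg, fun α β h => ?_, fun s α j ξ => ?_⟩
  · obtain ⟨j, rfl⟩ := hg α β h
    rw [hi α]
    have := rank_lt (fun p => if g α p.1 < α then i (g α p.1) else Co.base (Classical.arbitrary _))
      (lab α) (fun _ _ _ => True) (j, Classical.arbitrary _, ∅, 0)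
    rwa [if_pos h] at this
  · rw [hi α, ok_node]
    constructor
    · rintro ⟨c, -, h1, -⟩ h
      exact h1 ⟨0, by simp [h], by simp [lab, h]⟩
    · refine fun h => ⟨∅, trivial, ?_, ?_⟩
      · rintro ⟨e1, e2⟩ ⟨n, h1, h2⟩
        by_cases h3 : g α j < α
        · simp only [lab, h3, if_true, Option.some.injEq] at h1 h2
          rw [h1, ← h2]
          exact h h3
        · simp [lab, h3] at h2
      · rintro i' j' ξ' ⟨n, -, h2⟩
        by_cases h3 : g α j < α <;> simp [lab, h3] at h2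

theorem exists_tower : ∃ G : Th → Om → Set Qc, FamQ G ∧
    ∀ α β, α < β → ∀ q, q ∈ FSub (G β) (G α) := by
  obtain ⟨i, g, h1, h2, h3⟩ := exists_tower_coords
  let G0 : Th → Om → Set Qc := fun α ξ => {q | (i α, inl (ξ, true)) ∈ q.x.2.s}
  have hG0 : ∀ α ξ, IsLowerSet (G0 α ξ) := fun α ξ _ _ h hq => h.1.2.1 hq
  obtain ⟨rk, hrk⟩ : ∃ rk : Co LL Mu → Th, ∀ c c', rk c < rk c' ↔ rank c < rank c' :=
    ⟨fun c => Ordinal.ToType.mk ⟨rank c, rank_bound c⟩, fun c c' =>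
      (OrderIso.lt_iff_lt Ordinal.ToType.mk).trans Subtype.mk_lt_mk⟩
  have hmono : StrictMono (fun α => rk (i α)) := fun β α h => (hrk _ _).mpr (h2 α β h)
  refine ⟨fun α ξ => Den (G0 α ξ), ⟨fun α ξ => reg_den _, fun b _ η q _ => ?_,
    fun Y hY q hq h => ?_⟩, fun α β hαβ _ q _ => ?_⟩
  · obtain ⟨η', hη⟩ := q.x.2.exists_fresh
    let S : Set Th := range b ∪ (fun p : Th × (ℕ → LL) => g p.1 p.2) '' {p | (i p.1, inr p.2) ∈ q.x.2.s}
    have hS : S.Countable := (countable_range b).union (Set.Countable.image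
      (q.x.2.cnt.preimage_of_injOn (f := fun p : Th × (ℕ → LL) => (i p.1, inr p.2))
        (fun p _ p' _ h => by
          obtain ⟨e1, e2⟩ := Prod.ext_iff.mp h
          exact Prod.ext (hmono.injective (congrArg rk e1)) (inr.inj e2))) _)
    obtain ⟨m, m1, m2⟩ := q.x.2.exists_add (max η η')
      (fun i v h => absurd (hη _ _ _ h) (not_lt.mpr (le_max_right _ _)))
      ((fun α => (i α, true)) '' S) (hS.image _)
      (by
        rintro c v ⟨α, -, e1⟩ ⟨α', -, e2⟩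
        cases e1
        simp at e2)
      (by
        rintro s hs c j ⟨α, -, e1⟩ hj
        cases e1
        exact (h3 s α j _).mpr fun _ => hs _ ⟨_, Or.inr ⟨(α, j), hj, rfl⟩, rfl⟩)
    exact ⟨⟨(q.x.1, m), q.σ⟩, q.le_left ⟨le_rfl, m1⟩, _, le_max_left η η',
      mem_iInter.mpr fun n => mem_den (hG0 _ _) (m2 _ ⟨_, Or.inl ⟨n, rfl⟩, rfl⟩)⟩
  · obtain ⟨σ, s1, s2⟩ := exists_red Om_le_nu Y (fun ξ => (hY ξ).1) q.σ
    choose E E1 E2 E3 using fun ξ =>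
      (cc_AP (N := Nu) (L := LL) (Bs := Mu)).exists_predense (sec σ (Y ξ))
    obtain ⟨α, hα⟩ := W_bdd aleph0_le_J (⋃ ξ, ⋃ y ∈ E ξ, (fun e => rk e.1) '' y.2.s)
      (mk_iUnion_le_of aleph0_le_J (Om_card.trans c_le_J) fun ξ =>
        mk_biUnion_le_of aleph0_le_J ((E2 ξ).trans c_le_J) fun y _ =>
          (Cardinal.le_aleph0_iff_set_countable.mpr (y.2.cnt.image _)).trans aleph0_le_J)
    obtain ⟨r, r1, η, r2⟩ := h α ⟨q.x, σ⟩ (Qc.le_of le_rfl s1)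
    obtain ⟨η', hη⟩ := r.x.2.exists_fresh
    obtain ⟨t, t1, ξ, t2, t3⟩ := hq (max η η') r (r1.trans (Qc.le_of le_rfl s1))
    obtain ⟨y, y1, z, z1, z2⟩ := E3 ξ t.x ((s2 ξ).mem (hY ξ) (t1.trans r1).2 t3)
    obtain ⟨m, m1, m2, m3⟩ := Ma.amalg (z1.trans t1.1).2 (i α) ξ false
      (fun h => absurd (hη _ _ _ h) (not_lt.mpr ((le_max_right _ _).trans t2)))
      (fun h => by cases h)
    have m4 : m ≤ y.2 := Le.local m3 (fun e he => (hrk _ _).mp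
      ((hα _ (mem_iUnion.mpr ⟨ξ, mem_biUnion y1 ⟨e, he, rfl⟩⟩)).trans_le hmono.le_apply)) z2.2
    have m5 : (z.1, m) ≤ r.x := ⟨(z1.trans t1.1).1, m1⟩
    obtain ⟨u, u1, u2⟩ := r2 ξ ((le_max_left _ _).trans t2) ⟨(z.1, m), r.σ⟩ (r.le_left m5)
      ((hY ξ).1 (show (⟨(z.1, m), r.σ⟩ : Qc) ≤ ⟨y, σ⟩ from ⟨⟨z2.1, m4⟩, r1.2.mono m5.1⟩)
        (E1 ξ y1)) _ le_rfl
    exact u.x.2.fn _ _ _ u2 (u1.1.2.1 m2)
  · obtain ⟨j, hj⟩ := h1 β α hαβ
    obtain ⟨k, k1, k2⟩ := q.x.2.exists_promise (i β) j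
    obtain ⟨η, hη⟩ := k.exists_fresh
    refine ⟨⟨(q.x.1, k), q.σ⟩, q.le_left ⟨le_rfl, k1⟩, η, fun ξ hξ r r1 r2 r' r3 => ?_⟩
    obtain ⟨y, y1, y2⟩ := r2 r' r3
    have h4 := (h3 _ _ _ _).mp (((y1.trans r3).trans r1).1.2.2 _ j ξ k2 y2
      (fun h => absurd (hη _ _ _ h) (not_lt.mpr hξ)))
    rw [hj] at h4
    exact ⟨y, y1, h4 hαβ⟩

end Pool.Agent.P.MP_b10269_lc.H21
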