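import Mathlib
import Pool.Agent.P.MP_b10269_lc.H21.Fam

/-! Chains of size at most `𝔠⁺⁺` with the SIP have pseudo-intersections. -/

namespace Pool.Agent.P.MP_b10269_lc.H21

open Cardinal Set Sum

theorem reg_univ {Q : Type} [Preorder Q] : Reg (univ : Set Q) :=
  ⟨isLowerSet_univ, fun _ _ => trivial⟩

theorem final_step {S : Mu → Om → Set Qc} (q : Qc) (V : LL → Om → Set PI)
    (hV : ∀ l ξ, Reg (V l ξ)) (h1 : ∀ b : ℕ → LL, q.x ∈ FUnb (fun ξ => ⋂ n, V (b n) ξ))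
    (h2 : ∀ β, ∀ r ≤ q, ∃ r' ≤ r, ∃ l, r' ∈ FSub (fun ξ => up (V l ξ)) (S β)) :
    ∃ Y : Om → Set Qc, (∀ ξ, Reg (Y ξ)) ∧ ∃ q' ≤ q, q' ∈ FUnb Y ∧ ∀ β, q' ∈ FSub Y (S β) := by
  obtain ⟨Y, y1, x, y2, y3, y4⟩ := lemA (Classical.arbitrary Mu) V hV q.x h1
  refine ⟨fun ξ => up (Y ξ), fun ξ => reg_up (y1 ξ), ⟨x, q.σ⟩, q.le_left y2, funb_up y3,
    fun β => (reg_fsub _ _).2 _ fun r hr => ?_⟩
  obtain ⟨r', r1, l, r2⟩ := h2 β r (hr.trans (q.le_left y2))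
  exact ⟨r', r1, fsub_trans (fsub_up.mpr (fsub_lower _ _ (r1.trans hr).1 (y4 l))) r2⟩

theorem exists_mix {a : A Nu} {σ τ ρ : Tm} (i : Nu) (h1 : τ ≤ σ) (h2 : ρ ≤ σ)
    (h3 : τ.dom ⊆ ρ.dom) (h4 : ∀ β ∈ τ.dom, β ∉ σ.dom → (ρ.val β).2 = ∅) :
    ∃ a0 ≤ a, ∃ a1 ≤ a, a0 ≤ a1.res i ∧ a1 ≤ a0.res i ∧
      ∃ π ≤ σ, TLe a0 π τ ∧ TLe a1 π ρ := by
  classical
  obtain ⟨n, hn⟩ := W_bdd Cardinal.aleph0_le_continuum (insert i (Prod.fst '' a.s))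
    ((Cardinal.le_aleph0_iff_set_countable.mpr ((a.fin.countable.image _).insert i)).trans
      Cardinal.aleph0_le_continuum)
  have hn1 : ∀ v, (n, v) ∉ a.s := fun v h => lt_irrefl _ (hn n (Or.inr ⟨_, h, rfl⟩))
  have hn2 : i < n := hn i (Or.inl rfl)
  obtain ⟨a0, b1, b2⟩ := a.exists_bit hn1 false
  obtain ⟨a1, c1, c2⟩ := a.exists_bit hn1 true
  have key : ∀ (d d' : A Nu) v, d.s = insert (n, v) a.s → d' ≤ a → d' ≤ d.res i := by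
    rintro d d' v g1 g2 e ⟨e1, e2⟩
    rw [g1] at e1
    rcases e1 with rfl | e1
    exacts [absurd e2 (not_lt.mpr hn2.le), g2 e1]
  refine ⟨a0, b1, a1, c1, key _ _ _ c2 b1, key _ _ _ b2 c1,
    ⟨ρ.dom, ρ.small, fun β => if β ∈ τ.dom ∧ β ∉ σ.dom then
      ((τ.val β).1, {d | d ≤ a0 ∧ ∃ d' ∈ (τ.val β).2, d ≤ d'}) else ρ.val β⟩,
    ⟨h2.1, fun β hβ => ?_⟩, ⟨h3, fun β hβ a' ha v => ?_⟩, ⟨Subset.rfl, fun β _ a' ha v => ?_⟩⟩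
  · exact (if_neg fun h => h.2 hβ).trans (h2.2 β hβ)
  · by_cases h : β ∈ σ.dom
    · simp only [h, not_true, and_false, if_false]
      rw [h2.2 β h, h1.2 β h]
    · simp only [h, hβ, not_false_iff, and_self, if_true]
      refine and_congr_right fun _ => ⟨?_, ?_⟩
      · rintro ⟨d, ⟨-, d', g1, g2⟩, g3⟩
        exact ⟨d', g1, g3.trans g2⟩
      · rintro ⟨d, g1, g2⟩
        exact ⟨a', ⟨ha, d, g1, g2⟩, le_rfl⟩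
  · by_cases h : β ∈ τ.dom ∧ β ∉ σ.dom
    · simp only [if_pos h]
      refine iff_of_false ?_ ?_
      · rintro ⟨-, d, ⟨g1, -⟩, g2⟩
        exact a'.fn n false ((g2.trans g1) (b2 ▸ mem_insert _ _)) (ha (c2 ▸ mem_insert _ _))
      · rintro ⟨-, d, g1, -⟩
        rw [h4 β h.1 h.2] at g1
        exact g1
    · simp only [if_neg h]

section caseII

variable {S : Mu → Om → Set Qc} (hS : ∀ β ξ, Reg (S β ξ))

/-- The product name read off from a member of the chain and a term. -/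
def UU (S : Mu → Om → Set Qc) (z : LL) (ξ : Om) : Set PI := sec z.2 (S z.1 ξ)

/-- `q` forces that the name `z` is a member of the chain lying below all members before `γ`. -/
def Wit (S : Mu → Om → Set Qc) (q : Qc) (z : LL) (γ : Mu) : Prop :=
  TLe q.x.1 q.σ z.2 ∧ (∀ ξ, Red z.2 (S z.1 ξ)) ∧ ∀ β < γ, q ∈ FSub (S z.1) (S β)

/-- The filter generated by the chain contains the set named by `z`. -/
def Xi (S : Mu → Om → Set Qc) (z : LL) : Set Qc :=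
  {q | ∀ q' ≤ q, ∃ q'' ≤ q', ∃ β, q'' ∈ FSub (S β) (fun ξ => up (UU S z ξ))}

theorem reg_Xi (z : LL) : Reg (Xi S z) :=
  reg_den {q | ∃ β, q ∈ FSub (S β) (fun ξ => up (UU S z ξ))}

theorem Wit.mono {q r : Qc} {z : LL} {γ γ' : Mu} (h : Wit S q z γ) (h1 : r ≤ q) (h2 : γ' ≤ γ) :
    Wit S r z γ' :=
  ⟨h1.2.trans (h.1.mono h1.1.1), h.2.1, fun β hβ => fsub_lower _ _ h1 (h.2.2 β (hβ.trans_le h2))⟩

include hS

theorem Wit.sub1 {q : Qc} {z : LL} {γ : Mu} (h : Wit S q z γ) :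
    q ∈ FSub (S z.1) (fun ξ => up (UU S z ξ)) :=
  fsub_of_sub fun ξ _ hr h1 => (h.2.1 ξ).mem (hS _ _) (h.mono hr le_rfl).1 h1

theorem Wit.sub2 {q : Qc} {z : LL} {γ : Mu} (h : Wit S q z γ) :
    q ∈ FSub (fun ξ => up (UU S z ξ)) (S z.1) :=
  fsub_of_sub fun _ r hr h1 =>
    (hS _ _).1 (show r ≤ ⟨r.x, z.2⟩ from ⟨le_rfl, (h.mono hr le_rfl).1⟩) h1

theorem exists_stable {q0 : Qc}
    (hW : ∀ q ≤ q0, ∀ γ, ∃ r ≤ q, ∃ β, ∀ β' < γ, r ∈ FSub (S β) (S β')) :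
    ∃ i, ∃ q1 ≤ q0, ∀ γ, ∀ q ≤ q1, ∃ r ≤ q, ∃ z, (∀ ξ, Supp i (UU S z ξ)) ∧ Wit S r z γ := by
  by_contra hcon
  push Not at hcon
  obtain ⟨σ, s1, E, hE⟩ := lemHQ (T := Nu) (W_card _).le
    (fun i => {q | ∃ γ, ∀ r ≤ q, ∀ z, (∀ ξ, Supp i (UU S z ξ)) → ¬ Wit S r z γ})
    (fun i q q' h1 ⟨γ, h2⟩ => ⟨γ, fun r hr => h2 r (hr.trans h1)⟩) q0
    (fun i q hq => by
      obtain ⟨γ, r, r1, r2⟩ := hcon i q hq
      exact ⟨r, r1, γ, r2⟩)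
  choose g hg using fun (i : Nu) (y : E i) => (hE i).2.1 y y.2
  obtain ⟨γ, hγ⟩ := W_bdd aleph0_le_nu (⋃ i, range (g i))
    (mk_iUnion_le_of aleph0_le_nu (W_card _).le fun i => Cardinal.mk_range_le.trans (hE i).1)
  obtain ⟨r, r1, β, r2⟩ := hW ⟨q0.x, σ⟩ (Qc.le_of le_rfl s1) γ
  obtain ⟨τ, t1, t2⟩ := exists_red Om_le_nu (S β) (fun ξ => (hS β ξ).1) r.σ
  obtain ⟨i, hi⟩ := exists_supp (UU S (β, τ)) (fun ξ => reg_sec _ (hS β ξ))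
  have t3 : (⟨r.x, τ⟩ : Qc) ≤ r := Qc.le_of le_rfl t1
  obtain ⟨y, y1, u, u1, u2⟩ := (hE i).2.2 _ (t3.trans r1)
  refine hg i ⟨y, y1⟩ u u2 (β, τ) hi (Wit.mono (q := ⟨r.x, τ⟩) (γ := γ)
    ⟨TLe.of_le _ le_rfl, t2, fun β' h => fsub_lower _ _ t3 (r2 β' h)⟩ u1
    (hγ _ (mem_iUnion.mpr ⟨i, _, rfl⟩)).le)

theorem exists_approx {i : Nu} {q1 : Qc}
    (hW : ∀ γ, ∀ q ≤ q1, ∃ r ≤ q, ∃ z, (∀ ξ, Supp i (UU S z ξ)) ∧ Wit S r z γ)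
    (Z : Set LL) (hZ : #Z ≤ nu) {q : Qc} (hq : q ≤ q1) :
    ∃ r ≤ q, ∃ z', (∀ ξ, Supp i (UU S z' ξ)) ∧ ∀ z ∈ Z, ∀ t ≤ r,
      (t ∈ Xi S z ↔ t.x ∈ FSub (UU S z') (UU S z)) := by
  obtain ⟨σ, s1, E, hE⟩ := lemHQ hZ
    (fun z : Z => {q | ∃ β, q ∈ Neg (Xi S z) ∨ q ∈ FSub (S β) (fun ξ => up (UU S z ξ))})
    (fun z q q' h1 ⟨β, h2⟩ => ⟨β, h2.imp (neg_lower _ h1) (fsub_lower _ _ h1)⟩) q
    (fun z r _ => by
      obtain ⟨t, t1, t2 | t2⟩ := exists_decide (Xi S z) r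
      · obtain ⟨u, u1, β, u2⟩ := t2 t le_rfl
        exact ⟨u, u1.trans t1, β, Or.inr u2⟩
      · exact ⟨t, t1, Classical.arbitrary _, Or.inl t2⟩)
  choose g hg using fun (z : Z) (y : E z) => (hE z).2.1 y y.2
  obtain ⟨γ, hγ⟩ := W_bdd aleph0_le_nu (⋃ z, range (g z))
    (mk_iUnion_le_of aleph0_le_nu hZ fun z => Cardinal.mk_range_le.trans (hE z).1)
  have s2 : (⟨q.x, σ⟩ : Qc) ≤ q := Qc.le_of le_rfl s1
  obtain ⟨r, r1, z', r2, r3⟩ := hW γ _ (s2.trans hq)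
  refine ⟨r, r1.trans s2, z', r2, fun z hz t ht => ?_⟩
  rw [← fsub_up]
  constructor
  · refine fun h => (reg_fsub _ _).2 _ fun u hu => ?_
    obtain ⟨y, y1, v, v1, v2⟩ := (hE ⟨z, hz⟩).2.2 u ((hu.trans ht).trans r1)
    have v3 := r3.mono ((v1.trans hu).trans ht) le_rfl
    refine ⟨v, v1, fsub_trans (v3.sub2 hS) (fsub_trans
      (v3.2.2 _ (hγ _ (mem_iUnion.mpr ⟨⟨z, hz⟩, ⟨y, y1⟩, rfl⟩))) ?_)⟩
    exact fsub_lower _ _ v2 ((hg ⟨z, hz⟩ ⟨y, y1⟩).resolve_left fun h' =>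
      h' v v2 ((reg_Xi z).1 (v1.trans hu) h))
  · exact fun h u hu => ⟨u, le_rfl, z'.1,
      fsub_trans ((r3.mono (hu.trans ht) le_rfl).sub1 hS) (fsub_lower _ _ hu h)⟩

theorem exists_decided {i : Nu} {q1 : Qc}
    (hW : ∀ γ, ∀ q ≤ q1, ∃ r ≤ q, ∃ z, (∀ ξ, Supp i (UU S z ξ)) ∧ Wit S r z γ) :
    ∃ q2 ≤ q1, ∀ z, (∀ ξ, Supp i (UU S z ξ)) → ∀ r ≤ q2, r ∈ Xi S z →
      (⟨r.x, q2.σ⟩ : Qc) ∈ Xi S z := by
  by_contra hcon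
  push Not at hcon
  have hmix : ∀ q ≤ q1, ∃ k ≤ q.x.2, ∃ π ≤ q.σ, ∃ z, (∀ ξ, Supp i (UU S z ξ)) ∧
      ∃ a0 ≤ q.x.1, ∃ a1 ≤ q.x.1, a1 ≤ a0.res i ∧
        (⟨(a0, k), π⟩ : Qc) ∈ Xi S z ∧ (⟨(a1, k), π⟩ : Qc) ∈ Neg (Xi S z) := by
    intro q hq
    obtain ⟨z, z1, r, r1, r2, r3⟩ := hcon q hq
    obtain ⟨t, t1, t2⟩ := (reg_Xi z).exists_neg r3
    obtain ⟨σ0, a1, a2⟩ := Qc.proj (q := r) (x := q.x) (σ := q.σ) r1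
    obtain ⟨σ1, b1, b2⟩ := Qc.proj t1
    have a3 : (⟨t.x, σ0⟩ : Qc) ∈ Xi S z := (reg_Xi z).1 ((Qc.le_of t1.1 le_rfl).trans a2) r2
    have b3 : (⟨t.x, σ1⟩ : Qc) ∈ Neg (Xi S z) := neg_lower _ b2 t2
    obtain ⟨σp, c1, c2, c3⟩ := q.σ.exists_ext (σ0.dom ∪ σ1.dom) ((Cardinal.mk_union_le _ _).trans
      (Cardinal.add_le_of_le aleph0_le_nu σ0.small σ1.small)) (false, ∅)
    obtain ⟨u, u1, u2⟩ := exists_decide (Xi S z) ⟨t.x, σp⟩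
    obtain ⟨ρ, d1, d2⟩ := Qc.proj u1
    have d3 : ∀ τ : Tm, τ.dom ⊆ σ0.dom ∪ σ1.dom → ∀ β ∈ τ.dom, β ∉ q.σ.dom → (ρ.val β).2 = ∅ :=
      fun τ h β h1 h2 => by rw [d1.2 β (c2 (h h1)), c3 β h2]
    have d4 : u.x ≤ q.x := (u1.1.trans t1.1).trans r1.1
    rcases u2 with u2 | u2
    · obtain ⟨e0, f0, e1, f1, f2, -, π, f4, f5, f6⟩ := exists_mix (a := u.x.1) i b1 (d1.trans c1)
        ((subset_union_right.trans c2).trans d1.1) (d3 σ1 subset_union_right)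
      exact ⟨u.x.2, d4.2, π, f4, z, z1, e1, f1.trans d4.1, e0, f0.trans d4.1, f2,
        (reg_Xi z).1 (le_trans (show _ ≤ (⟨u.x, ρ⟩ : Qc) from ⟨⟨f1, le_rfl⟩, f6⟩) d2) u2,
        neg_lower _ (show _ ≤ (⟨t.x, σ1⟩ : Qc) from ⟨⟨f0.trans u1.1.1, u1.1.2⟩, f5⟩) b3⟩
    · obtain ⟨e0, f0, e1, f1, -, f3, π, f4, f5, f6⟩ := exists_mix (a := u.x.1) i a1 (d1.trans c1)
        ((subset_union_left.trans c2).trans d1.1) (d3 σ0 subset_union_left)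
      exact ⟨u.x.2, d4.2, π, f4, z, z1, e0, f0.trans d4.1, e1, f1.trans d4.1, f3,
        (reg_Xi z).1 (show _ ≤ (⟨t.x, σ0⟩ : Qc) from ⟨⟨f0.trans u1.1.1, u1.1.2⟩, f5⟩) a3,
        neg_lower _ (le_trans (show _ ≤ (⟨u.x, ρ⟩ : Qc) from ⟨⟨f1, le_rfl⟩, f6⟩) d2) u2⟩
  obtain ⟨σ, s1, E, hE⟩ := lemH aleph0_le_nu (cc_P.mono c_le_nu) Tm.closed
    (T := {a : A Nu // a ≤ q1.x.1}) ((Cardinal.mk_subtype_le _).trans A_card)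
    (fun a k π => ∃ z, (∀ ξ, Supp i (UU S z ξ)) ∧ ∃ a0 ≤ a.1, ∃ a1 ≤ a.1, a1 ≤ a0.res i ∧
        (⟨(a0, k), π⟩ : Qc) ∈ Xi S z ∧ (⟨(a1, k), π⟩ : Qc) ∈ Neg (Xi S z)) q1.x.2 q1.σ
    (fun a k g g' h ⟨z, z1, a0, z2, a1, z3, z4, z5, z6⟩ => ⟨z, z1, a0, z2, a1, z3, z4,
      (reg_Xi z).1 (Qc.le_of le_rfl h) z5, neg_lower _ (Qc.le_of le_rfl h) z6⟩)
    (fun a k g h1 h2 => hmix ⟨(a.1, k), g⟩ (Qc.le_of ⟨a.2, h1⟩ h2))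
  choose g hg using fun (a : {a : A Nu // a ≤ q1.x.1}) (y : E a) => (hE a).2.1 y y.2
  obtain ⟨r, r1, z', r2, r3⟩ := exists_approx hS hW (⋃ a, range (g a))
    (mk_iUnion_le_of aleph0_le_nu ((Cardinal.mk_subtype_le _).trans A_card)
      fun a => Cardinal.mk_range_le.trans (hE a).1) (q := ⟨q1.x, σ⟩) (Qc.le_of le_rfl s1)
  obtain ⟨y, y1, m, m1, m2⟩ := (hE ⟨r.x.1, r1.1.1⟩).2.2 r.x.2 r1.1.2
  obtain ⟨z1, a0, z2, a1, z3, z4, z5, z6⟩ := hg ⟨r.x.1, r1.1.1⟩ ⟨y, y1⟩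
  have hz := r3 _ (mem_iUnion.mpr ⟨⟨r.x.1, r1.1.1⟩, ⟨y, y1⟩, rfl⟩)
  have k1 := (hz ⟨(a0, m), r.σ⟩ (r.le_left ⟨z2, m1⟩)).mp
    ((reg_Xi _).1 (show _ ≤ (⟨(a0, y), σ⟩ : Qc) from ⟨⟨le_rfl, m2⟩, r1.2.mono z2⟩) z5)
  have k2 := fsub_supp r2 z1 (fun ξ => (reg_sec _ (hS _ ξ)).1) (fun ξ => (reg_sec _ (hS _ ξ)).1)
    z4 k1
  exact z6 ⟨(a1, m), r.σ⟩ ⟨⟨le_rfl, m2⟩, r1.2.mono z3⟩
    ((hz ⟨(a1, m), r.σ⟩ (r.le_left ⟨z3, m1⟩)).mpr k2)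

theorem case_two {q0 : Qc} (hs : ∀ b : ℕ → Mu, q0 ∈ FUnb (fun ξ => ⋂ n, S (b n) ξ))
    (hW : ∀ q ≤ q0, ∀ γ, ∃ r ≤ q, ∃ β, ∀ β' < γ, r ∈ FSub (S β) (S β')) :
    ∃ Y : Om → Set Qc, (∀ ξ, Reg (Y ξ)) ∧ ∃ q' ≤ q0, q' ∈ FUnb Y ∧ ∀ β, q' ∈ FSub Y (S β) := by
  obtain ⟨i, q1, h1, hW1⟩ := exists_stable hS hW
  obtain ⟨q2, h2, hD⟩ := exists_decided hS hW1
  have hU : ∀ z ξ, Reg (UU S z ξ) := fun z ξ => reg_sec _ (hS _ ξ)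
  obtain ⟨Y, y1, q', y2, y3⟩ := final_step (S := S) q2
    (fun z ξ => {x | ∀ x' ≤ x, x' ∈ sec q2.σ (Xi S z) → x' ∈ UU S z ξ})
    (fun z ξ => ⟨fun _ _ h hx x' h' => hx x' (h'.trans h), fun x hx x' g1 g2 =>
      (hU z ξ).2 _ fun y g3 => by
        obtain ⟨y', g4, g5⟩ := hx y (g3.trans g1)
        exact ⟨y', g4, g5 y' le_rfl ((reg_sec _ (reg_Xi z)).1 (g4.trans g3) g2)⟩⟩)
    (fun b η x hx => by
      obtain ⟨r, r1, X, r2, r3⟩ := covQ ℕ (Mu × Om) inferInstance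
        (fun n p => {q | q ∈ Neg (Xi S (b n)) ∨ q ∈ SubAt p.2 (S p.1) (fun ξ => up (UU S (b n) ξ))})
        (fun n p _ _ h g => g.imp (neg_lower _ h) (subAt_lower _ _ _ h)) ⟨x, q2.σ⟩
        (fun n r _ => by
          obtain ⟨t, t1, t2 | t2⟩ := exists_decide (Xi S (b n)) r
          · obtain ⟨u, u1, β, u2⟩ := t2 t le_rfl
            obtain ⟨v, v1, η', v2⟩ := u2 u le_rfl
            exact ⟨v, (v1.trans u1).trans t1, (β, η'), Or.inr v2⟩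
          · exact ⟨t, t1, Classical.arbitrary _, Or.inl t2⟩)
      obtain ⟨b', hb⟩ := ((r2.image Prod.fst).insert (Classical.arbitrary Mu)).exists_eq_range
        (insert_nonempty _ _)
      obtain ⟨η', hη⟩ := Om_bdd (r2.image Prod.snd)
      obtain ⟨t, t1, ξ, t2, t3⟩ := hs b' (max η η') r
        (r1.trans ((q2.le_left hx).trans (h2.trans h1)))
      refine ⟨t.x, (t1.trans r1).1, ξ, (le_max_left _ _).trans t2, mem_iInter.mpr fun n x' g1 g2 =>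
        (hU _ ξ).2 _ fun y g3 => ?_⟩
      have g4 : (⟨y, t.σ⟩ : Qc) ≤ t := t.le_left (g3.trans g1)
      obtain ⟨u, u1, p, u2, u3⟩ := r3 n ⟨y, t.σ⟩ (g4.trans t1)
      obtain ⟨m, hm⟩ : p.1 ∈ range b' := by rw [← hb]; exact Or.inr ⟨p, u2, rfl⟩
      refine ⟨u.x, u1.1, (u3.resolve_left fun h => h u le_rfl ((reg_Xi _).1
        (show u ≤ ⟨x', q2.σ⟩ from ⟨u1.1.trans g3, ((u1.trans g4).trans (t1.trans r1)).2⟩) g2))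
        ξ ((hη _ ⟨p, u2, rfl⟩).le.trans ((le_max_right _ _).trans t2)) u le_rfl ?_⟩
      exact (hS _ _).1 (u1.trans g4) (hm ▸ mem_iInter.mp t3 m))
    (fun β r hr => by
      obtain ⟨γ, hγ⟩ := W_bdd aleph0_le_nu {β}
        (by simpa using Cardinal.one_le_aleph0.trans aleph0_le_nu)
      obtain ⟨t, t1, z, t2, t3⟩ := hW1 γ r (hr.trans h2)
      have t4 := hD z t2 t (t1.trans hr) fun u hu =>
        ⟨u, le_rfl, z.1, fsub_lower _ _ hu (t3.sub1 hS)⟩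
      refine ⟨t, t1, z, fsub_trans (fsub_of_sub fun ξ u hu g => ?_)
        (fsub_trans (t3.sub2 hS) (t3.2.2 β (hγ β rfl)))⟩
      exact g u.x le_rfl ((reg_sec _ (reg_Xi z)).1 hu.1 t4))
  exact ⟨Y, y1, q', y2.trans (h2.trans h1), y3⟩

end caseII

theorem chainsQ : ChainsQ Qc Mu := by
  classical
  intro S hS q0 hc hs
  by_cases hW : ∀ q ≤ q0, ∀ γ, ∃ r ≤ q, ∃ β, ∀ β' < γ, r ∈ FSub (S β) (S β')
  · exact case_two hS hs hW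
  push Not at hW
  obtain ⟨q, hq, γ, h⟩ := hW
  obtain ⟨σ, s1, s2⟩ := exists_red (T := Iio γ × Om) (by
      rw [Cardinal.mk_prod, Cardinal.lift_id, Cardinal.lift_id]
      exact Cardinal.mul_le_of_le aleph0_le_nu (W_Iio γ) Om_le_nu)
    (fun p => S p.1 p.2) (fun p => (hS _ _).1) q.σ
  have s3 : (⟨q.x, σ⟩ : Qc) ≤ q := Qc.le_of le_rfl s1
  obtain ⟨Y, y1, q', y2, y3⟩ := final_step (S := S) ⟨q.x, σ⟩
    (fun z ξ => {x | z.1 < γ → x ∈ sec σ (S z.1 ξ)})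
    (fun z ξ => by
      by_cases hz : z.1 < γ
      · simpa [hz] using reg_sec σ (hS z.1 ξ)
      · simpa [hz] using reg_univ)
    (fun b η x hx => by
      obtain ⟨t, t1, ξ, t2, t3⟩ := hs (fun n => (b n).1) η ⟨x, σ⟩
        ((Qc.le_of hx le_rfl).trans (s3.trans hq))
      exact ⟨t.x, t1.1, ξ, t2, mem_iInter.mpr fun n hn =>
        (s2 (⟨_, hn⟩, ξ)).mem (hS _ _) t1.2 (mem_iInter.mp t3 n)⟩)
    (fun β r hr => by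
      obtain ⟨β', b1, b2⟩ := h r (hr.trans s3) β
      obtain ⟨t, t1, t2⟩ := (reg_fsub _ _).exists_neg b2
      obtain ⟨u, u1, u2⟩ := hc β β' t ((t1.trans hr).trans (s3.trans hq))
      refine ⟨u, u1.trans t1, (β', σ), fsub_trans (fsub_of_sub fun ξ v hv g => ?_)
        (u2.resolve_left (t2 u u1))⟩
      exact (hS _ _).1 (show v ≤ ⟨v.x, σ⟩ from ⟨le_rfl, (hv.trans ((u1.trans t1).trans hr)).2⟩)
        (g b1))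
  exact ⟨Y, y1, q', y2.trans (s3.trans hq), y3⟩

theorem exists_model : ∃ (M : Type 1) (E : M → M → Prop), MP_54b694_lc.IsZFC E ∧ ∃ k p t : M,
    IsRegUnc E k ∧ IsLeastCard E (PFam E k) p ∧ IsLeastCard E (IsTower E k) t ∧
      MP_54b694_lc.CardLT E p t := by
  obtain ⟨G, h1, h2⟩ := exists_tower
  have : Nonempty Qc := ⟨⟨(A.top, Ma.top), Tm.top⟩⟩
  exact model_of_forcing covQ famF h1 h2 chainsQ

end Pool.Agent.P.MP_b10269_lc.H21
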