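import Mathlib
import Pool.Agent.P.MP_b10269_lc.H21.Main

/-! The same model, recording that every element of `k` is countable, so that `k = ω₁`. -/

namespace Pool.Agent.P.MP_b10269_lc.H21

open Pool.Agent.P.MP_54b694_lc Pool.Agent.P.MP_54b694_lc.Name Cardinal Set

theorem model_of_om1 {B : Type} [CompleteBooleanAlgebra B] (hB : (⊤ : B) ≠ ⊥) (hc : Cov B)
    {ι T : Type} [Nonempty ι] [LinearOrder T]
    [WellFoundedLT T] [Nonempty T] {F : ι → Om → B} (hF : Fam F) {G : T → Om → B} (hG : Fam G)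
    (hdec : ∀ α β, α < β → asub (G β) (G α) = ⊤) (hch : Chains B ι) :
    ∃ (M : Type 1) (E : M → M → Prop), IsZFC E ∧ ∃ k p t : M, IsRegUnc E k ∧
      (∀ a, E a k → IsCountable E a) ∧
      IsLeastCard E (PFam E k) p ∧ IsLeastCard E (IsTower E k) t ∧ CardLT E p t := by
  obtain ⟨U, -⟩ := exists_ultra hB
  obtain ⟨p, p1, p2⟩ := exists_least_card (Q := fun V x => PFam (mem V) (mk V (KN B)) x)
    (rep_pfam _) U ⟨_, hc.pfam hF U⟩
  obtain ⟨t, t1, t2⟩ := exists_least_card (Q := fun V x => IsTower (mem V) (mk V (KN B)) x)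
    (rep_tower _) U ⟨_, hc.isTower hG hdec U⟩
  refine ⟨Mod U, mem U, mod_isZFC U, mk U (KN B), p, t, hc.isRegUnc U, ?_,
    ⟨⟨p, p1, cardLE_refl U p, cardLE_refl U p⟩, p2⟩, ⟨⟨t, t1, cardLE_refl U t, cardLE_refl U t⟩, t2⟩,
    p2 t t1.1, fun h => ?_⟩
  · refine of_mem_mk (P := fun V a => IsCountable (mem V) a) (fun a => rep_countable a) ?_ U
    intro ξ V _
    exact forces_countable (covered_ordN ⊤ ξ) V V.top
  obtain ⟨t, rfl⟩ := mk_surj t
  obtain ⟨q, q1, -, q3⟩ := ((rep_tower (KN B) t).and (rep_cardLE t (famN F))).localize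
    ⟨t1, cardLE_trans h (p2 _ (hc.pfam hF U))⟩ U.top
  obtain ⟨u, hu⟩ := cover_of_cardLE (fun V hV => (q3 V hV).2) (covered_mk q _ _)
  exact hc.not_covered hch q1 (fun V hV => (q3 V hV).1) hu

theorem model_of_forcing_om1 {Q : Type} [Preorder Q] [Nonempty Q] (hc : CovQ Q) {ι T : Type}
    [Nonempty ι] [LinearOrder T]
    [WellFoundedLT T] [Nonempty T] {F : ι → Om → Set Q} (hF : FamQ F) {G : T → Om → Set Q}
    (hG : FamQ G) (hdec : ∀ α β, α < β → ∀ q, q ∈ FSub (G β) (G α)) (hch : ChainsQ Q ι) :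
    ∃ (M : Type 1) (E : M → M → Prop), IsZFC E ∧ ∃ k p t : M, IsRegUnc E k ∧
      (∀ a, E a k → IsCountable E a) ∧
      IsLeastCard E (PFam E k) p ∧ IsLeastCard E (IsTower E k) t ∧ CardLT E p t := by
  obtain ⟨P⟩ := exists_pres (Q := Q)
  refine model_of_om1 (B := RQ Q) (fun h => P.ne_bot (Classical.arbitrary Q) (le_bot_iff.mp ?_))
    (P.cov hc) (P.fam hF) (P.fam hG) (fun α β h => top_le_iff.mp (P.le_of fun q _ => ?_))
    (P.chains hch)
  · rw [← h]
    exact le_top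
  · rw [P.le_asub]
    simpa only [P.pts_ro (hG.1 _ _)] using hdec α β h q

theorem exists_model_om1 : ∃ (M : Type 1) (E : M → M → Prop), IsZFC E ∧ ∃ k p t : M,
    IsRegUnc E k ∧ (∀ a, E a k → IsCountable E a) ∧
      IsLeastCard E (PFam E k) p ∧ IsLeastCard E (IsTower E k) t ∧ CardLT E p t := by
  obtain ⟨G, h1, h2⟩ := exists_tower
  have : Nonempty Qc := ⟨⟨(A.top, Ma.top), Tm.top⟩⟩
  exact model_of_forcing_om1 covQ famF h1 h2 chainsQ

end Pool.Agent.P.MP_b10269_lc.H21
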